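import Pool.Agent.Zk71.D2.Nf
import Pool.Agent.Zk11.QD.Pos

/-! Boundary values of the free resolvent in two dimensions. -/

set_option autoImplicit false
set_option linter.unusedSectionVars false

open scoped BigOperators Topology
open MeasureTheory Filter Set

namespace Pool.Agent.Zk71.D2

open Pool.Agent.Zk11.QD

/-- the square root, continuous on the closed upper half plane -/
noncomputable def rt0 (z : ℂ) : ℂ := if z = 0 then 0 else rt z

theorem rt0_norm (z : ℂ) : ‖rt0 z‖ = Real.sqrt ‖z‖ := by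
  unfold rt0
  split_ifs with h
  · rw [h]; simp
  · rw [← rt_norm z h, Real.sqrt_sq (norm_nonneg _)]

theorem rt0_cont : ContinuousOn rt0 {z : ℂ | 0 ≤ z.im} := by
  intro z0 hz0
  by_cases h0 : z0 = 0
  · subst h0
    unfold ContinuousWithinAt
    have h1 : rt0 0 = 0 := if_pos rfl
    rw [h1, tendsto_zero_iff_norm_tendsto_zero]
    simp only [rt0_norm]
    have h2 := (Real.continuous_sqrt.comp (continuous_norm (E := ℂ))).tendsto 0
    simp only [Function.comp_apply, norm_zero, Real.sqrt_zero] at h2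
    exact h2.mono_left nhdsWithin_le_nhds
  · have hlog : ContinuousWithinAt Complex.log {z : ℂ | 0 ≤ z.im} z0 := by
      by_cases hs : z0 ∈ Complex.slitPlane
      · exact (continuousAt_clog hs).continuousWithinAt
      · rw [Complex.mem_slitPlane_iff] at hs
        push Not at hs
        refine Complex.continuousWithinAt_log_of_re_neg_of_im_zero ?_ hs.2
        refine lt_of_le_of_ne hs.1 fun h => h0 ?_
        exact Complex.ext h hs.2
    have hrt : ContinuousWithinAt rt {z : ℂ | 0 ≤ z.im} z0 := (hlog.div_const 2).cexp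
    refine hrt.congr_of_eventuallyEq ?_ (if_neg h0)
    have h2 : ∀ᶠ z in 𝓝[{z : ℂ | 0 ≤ z.im}] z0, z ≠ 0 :=
      (eventually_ne_nhds h0).filter_mono nhdsWithin_le_nhds
    filter_upwards [h2] with z hz
    exact if_neg hz

/-- the integrated kernel -/
noncomputable def Psi (φ φ' : ℝ → ℂ) (w : ℂ) (k : ℝ) : ℂ :=
  2 * rt0 (1 - CC w k) * (φ' k * Real.sin k + φ k * Real.cos k) / ch w k -
    rt0 (1 - CC w k) * φ k * (Real.sin k : ℂ) ^ 2 / ch w k ^ 3 +
    φ k * rt0 (1 - CC w k) * (rt0 (1 - CC w k) ^ 2 - (w - 2)) / ch w k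

/-- the boundary value function -/
noncomputable def bvf (φ φ' : ℝ → ℂ) (w : ℂ) : ℂ :=
  Complex.I / (Real.pi * (w * (4 - w))) * ∫ k in (-Real.pi)..Real.pi, Psi φ φ' w k

/-- the closed region -/
def Dr (μ1 μ2 : ℝ) : Set ℂ :=
  {w : ℂ | 0 ≤ w.im ∧ μ1 ≤ (4 - w.re) / 2 ∧ (4 - w.re) / 2 ≤ μ2}

theorem Psi_cont (μ1 μ2 : ℝ) (hp1 : 0 < μ1) (φ φ' : ℝ → ℂ) (hφ : Continuous φ)
    (hφ' : Continuous φ') :
    Continuous (Function.uncurry fun (w : Dr μ1 μ2) (k : ℝ) => Psi φ φ' w k) := by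
  have hC : Continuous fun p : Dr μ1 μ2 × ℝ => CC (p.1 : ℂ) p.2 := by
    unfold CC
    fun_prop
  have h1 : Continuous fun p : Dr μ1 μ2 × ℝ => rt0 (1 - CC (p.1 : ℂ) p.2) := by
    refine rt0_cont.comp_continuous (continuous_const.sub hC) fun p => ?_
    change 0 ≤ (1 - CC (p.1 : ℂ) p.2).im
    rw [Complex.sub_im, CC_im, Complex.one_im]
    have := p.1.2.1
    linarith
  have h2 : Continuous fun p : Dr μ1 μ2 × ℝ => ch (p.1 : ℂ) p.2 := by
    have h3 : Continuous fun p : Dr μ1 μ2 × ℝ => Complex.log (1 + CC (p.1 : ℂ) p.2) := by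
      refine (continuous_const.add hC).clog fun p => ?_
      rw [Complex.mem_slitPlane_iff]
      left
      change 0 < (1 + CC (p.1 : ℂ) p.2).re
      rw [Complex.add_re, CC_re, Complex.one_re]
      have := p.1.2.2.1
      have := Real.cos_le_one p.2
      linarith
    exact (h3.div_const 2).cexp
  have h3 : ∀ p : Dr μ1 μ2 × ℝ, ch (p.1 : ℂ) p.2 ≠ 0 := fun p => rt_ne _
  have hw : Continuous fun p : Dr μ1 μ2 × ℝ => (p.1 : ℂ) := continuous_subtype_val.comp continuous_fst
  have hsin : Continuous fun p : Dr μ1 μ2 × ℝ => (Real.sin p.2 : ℂ) := by fun_prop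
  have hcos : Continuous fun p : Dr μ1 μ2 × ℝ => (Real.cos p.2 : ℂ) := by fun_prop
  have hf : Continuous fun p : Dr μ1 μ2 × ℝ => φ p.2 := hφ.comp continuous_snd
  have hf' : Continuous fun p : Dr μ1 μ2 × ℝ => φ' p.2 := hφ'.comp continuous_snd
  have e1 : (Function.uncurry fun (w : Dr μ1 μ2) (k : ℝ) => Psi φ φ' w k) =
      fun p : Dr μ1 μ2 × ℝ => Psi φ φ' (p.1 : ℂ) p.2 := rfl
  rw [e1]
  unfold Psi
  refine Continuous.add (Continuous.sub ?_ ?_) ?_
  · exact ((continuous_const.mul h1).mul ((hf'.mul hsin).add (hf.mul hcos))).div h2 h3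
  · exact ((h1.mul hf).mul (hsin.pow 2)).div (h2.pow 3) fun p => pow_ne_zero 3 (h3 p)
  · exact ((hf.mul h1).mul ((h1.pow 2).sub (hw.sub continuous_const))).div h2 h3

theorem Dr_re (μ1 μ2 : ℝ) (hp1 : 0 < μ1) (hp2 : μ2 < 2) (w : ℂ) (hw : w ∈ Dr μ1 μ2) :
    w * (4 - w) ≠ 0 := by
  obtain ⟨-, h1, h2⟩ := hw
  refine mul_ne_zero (fun h => ?_) (fun h => ?_)
  · rw [h, Complex.zero_re] at h2
    linarith
  · have h3 := congrArg Complex.re h
    rw [Complex.sub_re, Complex.zero_re] at h3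
    have h4 : (4 : ℂ).re = 4 := by norm_num
    rw [h4] at h3
    linarith

theorem bvf_cont (μ1 μ2 : ℝ) (hp1 : 0 < μ1) (hp2 : μ2 < 2) (φ φ' : ℝ → ℂ) (hφ : Continuous φ)
    (hφ' : Continuous φ') : ContinuousOn (bvf φ φ') (Dr μ1 μ2) := by
  rw [continuousOn_iff_continuous_domRestrict]
  have h1 := intervalIntegral.continuous_parametric_intervalIntegral_of_continuous'
    (μ := volume) (Psi_cont μ1 μ2 hp1 φ φ' hφ hφ') (-Real.pi) Real.pi
  have hpi : (Real.pi : ℂ) ≠ 0 := by exact_mod_cast Real.pi_ne_zero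
  refine Continuous.mul (continuous_const.div ?_ fun w => ?_) h1
  · exact continuous_const.mul (continuous_subtype_val.mul
      (continuous_const.sub continuous_subtype_val))
  · exact mul_ne_zero hpi (Dr_re μ1 μ2 hp1 hp2 w w.2)

/-- integration by parts -/
theorem bvf_eq (w : ℂ) (hw : 0 < w.im) (hne : w * (4 - w) ≠ 0) (φ φ' : ℝ → ℂ)
    (hd : ∀ k, HasDerivAt φ (φ' k) k) (hφ' : Continuous φ') :
    (1 / (2 * Real.pi) : ℝ) * ∫ k in (-Real.pi)..Real.pi, φ k * gk w 0 k = bvf φ φ' w := by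
  have hpi := Real.pi_pos
  have hpic : (Real.pi : ℂ) ≠ 0 := by exact_mod_cast hpi.ne'
  have hφ : Continuous φ := continuous_iff_continuousAt.mpr fun k => (hd k).continuousAt
  have hr : ∀ k, rt0 (1 - CC w k) = xi w k := fun k =>
    if_neg (Complex.slitPlane_ne_zero (one_sub_slit hw k))
  have hx : ∀ k, xi w k ≠ 0 := fun k => rt_ne _
  have hc : ∀ k, ch w k ≠ 0 := fun k => rt_ne _
  set Dv : ℝ → ℂ := fun k => -(φ k * (Real.sin k : ℂ) ^ 2) / (2 * (xi w k * ch w k)) +
    xi w k * (φ' k * Real.sin k + φ k * Real.cos k) / ch w k -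
    xi w k * φ k * (Real.sin k : ℂ) ^ 2 / (2 * ch w k ^ 3) with hDv
  have hsd : ∀ k : ℝ, HasDerivAt (fun k : ℝ => (Real.sin k : ℂ)) (Real.cos k : ℂ) k :=
    fun k => (Real.hasDerivAt_sin k).ofReal_comp
  have hD : ∀ k ∈ Set.uIcc (-Real.pi) Real.pi, HasDerivAt
      (fun k => xi w k * φ k * (Real.sin k : ℂ) / ch w k) (Dv k) k := by
    intro k _
    have h1 := (((xi_deriv hw k).mul (hd k)).mul (hsd k)).div (ch_deriv hw k) (hc k)
    refine h1.congr_deriv ?_
    have h2 := hx k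
    have h3 := hc k
    simp only [hDv, Pi.mul_apply]
    field_simp
    ring
  have hxc : Continuous (xi w) := continuous_iff_continuousAt.mpr fun k =>
    (xi_deriv hw k).continuousAt
  have hcc : Continuous (ch w) := continuous_iff_continuousAt.mpr fun k =>
    (ch_deriv hw k).continuousAt
  have hsin : Continuous fun k : ℝ => (Real.sin k : ℂ) := by fun_prop
  have hcos : Continuous fun k : ℝ => (Real.cos k : ℂ) := by fun_prop
  have hDc : Continuous Dv := by
    refine Continuous.sub (Continuous.add ?_ ?_) ?_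
    · exact (hφ.mul (hsin.pow 2)).neg.div (continuous_const.mul (hxc.mul hcc)) fun k =>
        mul_ne_zero two_ne_zero (mul_ne_zero (hx k) (hc k))
    · exact (hxc.mul ((hφ'.mul hsin).add (hφ.mul hcos))).div hcc hc
    · exact ((hxc.mul hφ).mul (hsin.pow 2)).div (continuous_const.mul (hcc.pow 3)) fun k =>
        mul_ne_zero two_ne_zero (pow_ne_zero 3 (hc k))
  have hftc := intervalIntegral.integral_eq_sub_of_hasDerivAt hD (hDc.intervalIntegrable _ _)
  have hz : ∫ k in (-Real.pi)..Real.pi, Dv k = 0 := by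
    rw [hftc]
    simp
  -- pointwise identity
  have hpt : ∀ k, φ k * gk w 0 k = (2 * Complex.I / (w * (4 - w))) *
      (Psi φ φ' w k - 2 * Dv k) := by
    intro k
    have h2 := hx k
    have h3 := hc k
    have hxs := xi_sq hw k
    have hsc : (Real.sin k : ℂ) ^ 2 + (Real.cos k : ℂ) ^ 2 = 1 := by
      exact_mod_cast Real.sin_sq_add_cos_sq k
    have e1 : Psi φ φ' w k - 2 * Dv k = φ k * ((Real.sin k : ℂ) ^ 2 +
        xi w k ^ 2 * (xi w k ^ 2 - (w - 2))) / (xi w k * ch w k) := by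
      simp only [hDv, Psi, hr]
      field_simp
      ring
    have e2 : (Real.sin k : ℂ) ^ 2 + xi w k ^ 2 * (xi w k ^ 2 - (w - 2)) = w * (4 - w) / 4 := by
      rw [hxs]
      unfold CC
      linear_combination hsc
    rw [e1, e2]
    unfold gk SS
    rw [pow_zero, one_mul]
    have h4 : w ≠ 0 := left_ne_zero_of_mul hne
    have h5 : 4 - w ≠ 0 := right_ne_zero_of_mul hne
    field_simp
    ring
  simp only [hpt]
  have hPc : Continuous (Psi φ φ' w) := by
    have : Psi φ φ' w = fun k => 2 * xi w k * (φ' k * Real.sin k + φ k * Real.cos k) / ch w k -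
      xi w k * φ k * (Real.sin k : ℂ) ^ 2 / ch w k ^ 3 +
      φ k * xi w k * (xi w k ^ 2 - (w - 2)) / ch w k := by
      funext k
      unfold Psi
      rw [hr]
    rw [this]
    refine Continuous.add (Continuous.sub ?_ ?_) ?_
    · exact ((continuous_const.mul hxc).mul ((hφ'.mul hsin).add (hφ.mul hcos))).div hcc hc
    · exact ((hxc.mul hφ).mul (hsin.pow 2)).div (hcc.pow 3) fun p => pow_ne_zero 3 (hc p)
    · exact ((hφ.mul hxc).mul ((hxc.pow 2).sub continuous_const)).div hcc hc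
  rw [intervalIntegral.integral_const_mul, intervalIntegral.integral_sub
    (hPc.intervalIntegrable _ _) ((hDc.intervalIntegrable _ _).const_mul _),
    intervalIntegral.integral_const_mul, hz, mul_zero, sub_zero]
  unfold bvf
  have h4 : w ≠ 0 := left_ne_zero_of_mul hne
  have h5 : 4 - w ≠ 0 := right_ne_zero_of_mul hne
  push_cast
  field_simp

end Pool.Agent.Zk71.D2
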