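import Pool.Agent.Zk71.D2.Lp

/-! Everything about the free resolvent in two dimensions, away from the thresholds. -/

set_option autoImplicit false
set_option linter.unusedSectionVars false

open scoped BigOperators Topology
open MeasureTheory Filter Set

namespace Pool.Agent.Zk71.D2

open Pool.Agent.Zk11.QD Pool.Agent.Zk71.DR
open Pool.Agent.W788.MFP.Four (T e NN adj adj_neg e_comm e_add_left e_add e_zero e_neg e_neg_left
  e_normSq sum_e NN_pos card_T e_single)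

/-- the region of spectral parameters -/
def Rg (E1 E2 r : ℝ) : Set ℂ := {w : ℂ | 0 < w.im ∧ w.im ≤ r ∧ E1 - r ≤ w.re ∧ w.re ≤ E2 + r}

/-- boundary values and decay of the free resolvent -/
structure BV (E1 E2 : ℝ) (g h : ℝ → ℂ) (r C : ℝ) : Prop where
  r0 : 0 < r
  r1 : r ≤ 1
  C0 : 0 ≤ C
  bd : ∀ w ∈ Rg E1 E2 r, ‖Lap (GG 2) w‖ ≤ C
  lg : ∀ E ∈ Icc E1 E2, Tendsto (Lap (GG 2)) (𝓝[{w : ℂ | 0 < w.im}] (E : ℂ)) (𝓝 (g E))
  lh : ∀ E ∈ Icc E1 E2, Tendsto (Lap (HH 2)) (𝓝[{w : ℂ | 0 < w.im}] (E : ℂ)) (𝓝 (h E))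
  cg : ContinuousOn g (Icc E1 E2)
  ch : ContinuousOn h (Icc E1 E2)
  pd : ∀ w ∈ Rg E1 E2 r, ∀ G : Zd 2 → ℂ, IsG 0 (fun _ => 0) w G → ∀ x : Zd 2, x ≠ 0 →
    ‖G x‖ ^ 2 ≤ C / nx x

theorem bv_low (E1 E2 : ℝ) (h1 : 0 < E1) (h12 : E1 ≤ E2) (h2 : E2 < 4) :
    ∃ r C : ℝ, BV E1 E2 (fun E => bg (E : ℂ)) (fun E => bh (E : ℂ)) r C := by
  set r0 : ℝ := min E1 (4 - E2) / 2 with hr0
  have hr00 : 0 < r0 := by
    have : 0 < min E1 (4 - E2) := lt_min h1 (by linarith)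
    positivity
  have hr0a : r0 ≤ E1 / 2 := by
    have := min_le_left E1 (4 - E2)
    rw [hr0]; linarith
  have hr0b : r0 ≤ (4 - E2) / 2 := by
    have := min_le_right E1 (4 - E2)
    rw [hr0]; linarith
  set μ1 : ℝ := (4 - E2 - r0) / 2 with hμ1
  set μ2 : ℝ := (4 - E1 + r0) / 2 with hμ2
  have hp1 : 0 < μ1 := by rw [hμ1]; linarith
  have hp2 : μ2 < 2 := by rw [hμ2]; linarith
  have hp12 : μ1 ≤ μ2 := by rw [hμ1, hμ2]; linarith
  have hq : 0 < μ1 * (1 - μ2 ^ 2 / 4) := by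
    have : 0 < 1 - μ2 ^ 2 / 4 := by nlinarith
    positivity
  set r : ℝ := min (min r0 1) (μ1 * (1 - μ2 ^ 2 / 4) / 800) with hr
  have hrp : 0 < r := lt_min (lt_min hr00 one_pos) (by positivity)
  have hra : r ≤ r0 := (min_le_left _ _).trans (min_le_left _ _)
  have hrb : r ≤ 1 := (min_le_left _ _).trans (min_le_right _ _)
  have hrc : r ≤ μ1 * (1 - μ2 ^ 2 / 4) / 800 := min_le_right _ _
  have hadm : ∀ w ∈ Rg E1 E2 r, Adm w μ1 μ2 := by
    intro w hw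
    obtain ⟨a1, a2, a3, a4⟩ := hw
    exact ⟨a1, hp1, hp2, by rw [hμ1]; linarith, by rw [hμ2]; linarith, a2.trans hrc⟩
  have hDr : ∀ w : ℂ, Adm w μ1 μ2 → w ∈ Dr μ1 μ2 := fun w hw => ⟨hw.im0.le, hw.l1, hw.l2⟩
  have hcg := bvf_cont μ1 μ2 hp1 hp2 (fun _ => 1) (fun _ => 0) continuous_const continuous_const
  have hch := bvf_cont μ1 μ2 hp1 hp2 f4 f4' f4_cont f4'_cont
  -- bound on a compact set
  have hK : IsCompact ((Icc (E1 - r) (E2 + r)) ×ℂ (Icc (0 : ℝ) 1)) :=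
    IsCompact.reProdIm isCompact_Icc isCompact_Icc
  have hKD : ((Icc (E1 - r) (E2 + r)) ×ℂ (Icc (0 : ℝ) 1)) ⊆ Dr μ1 μ2 := by
    intro w hw
    rw [Complex.mem_reProdIm] at hw
    exact ⟨hw.2.1, by rw [hμ1]; linarith [hw.1.2], by rw [hμ2]; linarith [hw.1.1]⟩
  obtain ⟨C1, hC1⟩ := hK.exists_bound_of_continuousOn (hcg.mono hKD)
  obtain ⟨C2, hC20, hC2⟩ := Gf_bound μ1 μ2 hp1 hp12 hp2
  have hreal : ∀ E ∈ Icc E1 E2, (E : ℂ) ∈ Dr μ1 μ2 := by
    intro E hE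
    refine ⟨by simp, ?_, ?_⟩
    · rw [hμ1, Complex.ofReal_re]; linarith [hE.2]
    · rw [hμ2, Complex.ofReal_re]; linarith [hE.1]
  have hnb : ∀ E ∈ Icc E1 E2, ∀ᶠ w : ℂ in 𝓝[{w : ℂ | 0 < w.im}] (E : ℂ), w ∈ Dr μ1 μ2 := by
    intro E hE
    have h3 : ∀ᶠ w : ℂ in 𝓝 (E : ℂ), |w.re - E| < r0 := by
      have h4 : Continuous fun w : ℂ => |w.re - E| := by fun_prop
      have h5 := h4.tendsto (E : ℂ)
      simp only [Complex.ofReal_re, sub_self, abs_zero] at h5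
      exact h5.eventually_lt_const hr00
    filter_upwards [h3.filter_mono nhdsWithin_le_nhds, self_mem_nhdsWithin] with w hw1 hw2
    have h6 := abs_lt.1 hw1
    have h7 : 0 < w.im := hw2
    exact ⟨h7.le, by rw [hμ1]; linarith [hE.2], by rw [hμ2]; linarith [hE.1]⟩
  refine ⟨r, max C1 C2, ?_⟩
  refine ⟨hrp, hrb, hC20.trans (le_max_right _ _), ?_, ?_, ?_, ?_, ?_, ?_⟩
  · intro w hw
    have hA := hadm w hw
    rw [lap_bg w hA.im0 (Dr_re μ1 μ2 hp1 hp2 w (hDr w hA))]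
    refine (hC1 w ?_).trans (le_max_left _ _)
    rw [Complex.mem_reProdIm]
    exact ⟨⟨hw.2.2.1, hw.2.2.2⟩, ⟨hA.im0.le, hw.2.1.trans hrb⟩⟩
  · intro E hE
    have h3 : Tendsto (bvf (fun _ => 1) (fun _ => 0)) (𝓝[{w : ℂ | 0 < w.im}] (E : ℂ))
        (𝓝 (bg (E : ℂ))) :=
      (hcg (E : ℂ) (hreal E hE)).mono_left (nhdsWithin_le_of_mem (hnb E hE))
    refine (tendsto_congr' ?_).2 h3
    filter_upwards [hnb E hE, self_mem_nhdsWithin] with w hw1 hw2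
    exact lap_bg w hw2 (Dr_re μ1 μ2 hp1 hp2 w hw1)
  · intro E hE
    have h3 : Tendsto (bvf f4 f4') (𝓝[{w : ℂ | 0 < w.im}] (E : ℂ)) (𝓝 (bh (E : ℂ))) :=
      (hch (E : ℂ) (hreal E hE)).mono_left (nhdsWithin_le_of_mem (hnb E hE))
    refine (tendsto_congr' ?_).2 h3
    filter_upwards [hnb E hE, self_mem_nhdsWithin] with w hw1 hw2
    exact lap_bh w hw2 (Dr_re μ1 μ2 hp1 hp2 w hw1)
  · exact hcg.comp Complex.continuous_ofReal.continuousOn hreal
  · exact hch.comp Complex.continuous_ofReal.continuousOn hreal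
  · intro w hw G hG x hx
    have hA := hadm w hw
    have h3 : G = Gf w := isG_unique 0 _ w hA.im0 _ _ hG (Gf_isG hA.im0 _)
    rw [h3]
    refine (hC2 w hA x hx).trans ?_
    exact div_le_div_of_nonneg_right (le_max_right _ _) (Nat.cast_nonneg _)

/-- reflection -/
noncomputable def rfl8 (w : ℂ) : ℂ := 8 - (starRingEnd ℂ) w

theorem rfl8_im (w : ℂ) : (rfl8 w).im = w.im := by
  unfold rfl8
  simp

theorem rfl8_re (w : ℂ) : (rfl8 w).re = 8 - w.re := by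
  unfold rfl8
  simp

theorem rfl8_rfl8 (w : ℂ) : rfl8 (rfl8 w) = w := by
  apply Complex.ext
  · rw [rfl8_re, rfl8_re]
    ring
  · rw [rfl8_im, rfl8_im]

theorem rfl8_lap (w : ℂ) (hw : 0 < w.im) :
    Lap (GG 2) w = -(starRingEnd ℂ) (Lap (GG 2) (rfl8 w)) ∧
    Lap (HH 2) w = -(starRingEnd ℂ) (Lap (HH 2) (rfl8 w)) := by
  have hw' : 0 < (rfl8 w).im := by rw [rfl8_im]; exact hw
  obtain ⟨G', hG'⟩ := isG_exists 0 (fun _ : Zd 2 => 0) (rfl8 w) hw'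
  have hG := gauge_isG w (rfl8 w) (rfl8_rfl8 w).symm _ G' hG'
  have s0 : sg 0 = 1 := sg_zero
  have s2 : sg (Pi.single 0 1 + Pi.single 0 1) = 1 := by
    have h1 := sg_a (Pi.single 0 1) 0
    have h2 := sg_a 0 0
    rw [zero_add] at h2
    rw [h1, h2, s0, neg_neg]
  have s3 : sg (-(Pi.single 0 1 + Pi.single 0 1)) = 1 := by
    have h1 := sg_s (-Pi.single 0 1) 0
    have h2 := sg_s 0 0
    rw [zero_sub] at h2
    rw [neg_add, ← sub_eq_add_neg, h1, h2, s0, neg_neg]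
  constructor
  · rw [lapG w hw _ _ hG, lapG (rfl8 w) hw' _ _ hG']
    simp only [s0, one_mul]
  · rw [lapH 0 w hw _ _ hG, lapH 0 (rfl8 w) hw' _ _ hG']
    simp only [s0, s2, s3, one_mul, map_sub, map_mul]
    have : (starRingEnd ℂ) (2 : ℂ) = 2 := Complex.conj_ofNat 2
    rw [this]
    ring

theorem rfl8_cont : Continuous rfl8 := by
  unfold rfl8
  exact continuous_const.sub Complex.continuous_conj

theorem rfl8_tendsto (E : ℝ) : Tendsto rfl8 (𝓝[{w : ℂ | 0 < w.im}] (E : ℂ))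
    (𝓝[{w : ℂ | 0 < w.im}] ((8 - E : ℝ) : ℂ)) := by
  rw [tendsto_nhdsWithin_iff]
  constructor
  · have h1 := rfl8_cont.tendsto (E : ℂ)
    have h2 : rfl8 (E : ℂ) = ((8 - E : ℝ) : ℂ) := by
      unfold rfl8
      rw [Complex.conj_ofReal]
      push_cast
      ring
    rw [h2] at h1
    exact h1.mono_left nhdsWithin_le_nhds
  · filter_upwards [self_mem_nhdsWithin] with w hw
    change 0 < (rfl8 w).im
    rw [rfl8_im]
    exact hw

theorem BV.refl {E1 E2 : ℝ} {g h : ℝ → ℂ} {r C : ℝ} (hb : BV E1 E2 g h r C) :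
    BV (8 - E2) (8 - E1) (fun E => -(starRingEnd ℂ) (g (8 - E)))
      (fun E => -(starRingEnd ℂ) (h (8 - E))) r C := by
  have hR : ∀ w ∈ Rg (8 - E2) (8 - E1) r, rfl8 w ∈ Rg E1 E2 r := by
    intro w hw
    obtain ⟨a1, a2, a3, a4⟩ := hw
    refine ⟨?_, ?_, ?_, ?_⟩
    · rw [rfl8_im]; exact a1
    · rw [rfl8_im]; exact a2
    · rw [rfl8_re]; linarith
    · rw [rfl8_re]; linarith
  have hI : ∀ E ∈ Icc (8 - E2) (8 - E1), 8 - E ∈ Icc E1 E2 := fun E hE =>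
    ⟨by linarith [hE.2], by linarith [hE.1]⟩
  have hmap : MapsTo (fun E : ℝ => 8 - E) (Icc (8 - E2) (8 - E1)) (Icc E1 E2) := hI
  refine ⟨hb.r0, hb.r1, hb.C0, ?_, ?_, ?_, ?_, ?_, ?_⟩
  · intro w hw
    rw [(rfl8_lap w hw.1).1, norm_neg, RCLike.norm_conj]
    exact hb.bd _ (hR w hw)
  · intro E hE
    have h1 := (hb.lg (8 - E) (hI E hE)).comp (rfl8_tendsto E)
    have h2 := ((Complex.continuous_conj.tendsto _).comp h1).neg
    refine (tendsto_congr' ?_).2 h2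
    filter_upwards [self_mem_nhdsWithin] with w hw
    exact (rfl8_lap w hw).1
  · intro E hE
    have h1 := (hb.lh (8 - E) (hI E hE)).comp (rfl8_tendsto E)
    have h2 := ((Complex.continuous_conj.tendsto _).comp h1).neg
    refine (tendsto_congr' ?_).2 h2
    filter_upwards [self_mem_nhdsWithin] with w hw
    exact (rfl8_lap w hw).2
  · exact (Complex.continuous_conj.comp_continuousOn
      (hb.cg.comp (by fun_prop : Continuous fun E : ℝ => 8 - E).continuousOn hmap)).neg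
  · exact (Complex.continuous_conj.comp_continuousOn
      (hb.ch.comp (by fun_prop : Continuous fun E : ℝ => 8 - E).continuousOn hmap)).neg
  · intro w hw G hG x hx
    have hw' := hR w hw
    obtain ⟨G', hG'⟩ := isG_exists 0 (fun _ : Zd 2 => 0) (rfl8 w) hw'.1
    have hG2 := gauge_isG w (rfl8 w) (rfl8_rfl8 w).symm _ G' hG'
    have h1 : G = _ := isG_unique 0 _ w hw.1 _ _ hG hG2
    rw [h1]
    simp only
    rw [norm_neg, norm_mul, sg_norm, one_mul, RCLike.norm_conj]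
    exact hb.pd _ hw' G' hG' x hx

theorem pt_E' (E : ℝ) : Tendsto (fun δ : ℝ => (E : ℂ) + δ * Complex.I) (𝓝[>] 0)
    (𝓝[{w : ℂ | 0 < w.im}] (E : ℂ)) := by
  rw [tendsto_nhdsWithin_iff]
  constructor
  · exact (pt_E E).mono_right nhdsWithin_le_nhds
  · filter_upwards [self_mem_nhdsWithin] with δ hδ
    have : 0 < δ := hδ
    simpa using this

section
variable {E1 E2 : ℝ} {g h : ℝ → ℂ} {r C : ℝ} (hb : BV E1 E2 g h r C)
include hb

theorem BV.g_po (E : ℝ) (hE : E ∈ Icc E1 E2) :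
    Tendsto (fun δ : ℝ => ∫ k in cube 2, po δ (ek k - E)) (𝓝[>] 0) (𝓝 (g E).im) := by
  have h1 := (Complex.continuous_im.tendsto _).comp ((hb.lg E hE).comp (pt_E' E))
  refine (tendsto_congr' ?_).1 h1
  filter_upwards [self_mem_nhdsWithin] with δ hδ
  have hδ0 : 0 < δ := hδ
  simp only [Function.comp]
  rw [GG_rep _ (by simpa using hδ0), po_im (fun _ => 1) continuous_const E δ hδ0]
  simp only [one_mul]

theorem BV.h_po (i0 : Fin 2) (E : ℝ) (hE : E ∈ Icc E1 E2) :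
    Tendsto (fun δ : ℝ => ∫ k in cube 2, 4 * Real.sin (2 * Real.pi * k i0) ^ 2 * po δ (ek k - E))
      (𝓝[>] 0) (𝓝 (h E).im) := by
  have h1 := (Complex.continuous_im.tendsto _).comp ((hb.lh E hE).comp (pt_E' E))
  refine (tendsto_congr' ?_).1 h1
  filter_upwards [self_mem_nhdsWithin] with δ hδ
  have hδ0 : 0 < δ := hδ
  simp only [Function.comp]
  rw [HH_rep i0 _ (by simpa using hδ0),
    po_im (fun k => 4 * Real.sin (2 * Real.pi * k i0) ^ 2) (by fun_prop) E δ hδ0]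

theorem BV.g_pos (E : ℝ) (hE : E ∈ Icc E1 E2) (h0 : 0 < E1) (h8 : E2 < 8) : 0 < (g E).im := by
  obtain ⟨c, hc, h1⟩ := po_lower (0 : Fin 2) E (by linarith [hE.1]) (by
    push_cast
    linarith [hE.2]) (fun _ => 1) continuous_const (fun _ => zero_le_one) (fun _ _ => one_pos)
  simp only [one_mul] at h1
  exact lt_of_lt_of_le hc (ge_of_tendsto (hb.g_po E hE) h1)

theorem BV.h_pos (E : ℝ) (hE : E ∈ Icc E1 E2) (h0 : 0 < E1) (h8 : E2 < 8) : 0 < (h E).im := by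
  obtain ⟨c, hc, h1⟩ := po_lower (0 : Fin 2) E (by linarith [hE.1]) (by
      push_cast
      linarith [hE.2]) (fun k => 4 * Real.sin (2 * Real.pi * k 0) ^ 2)
    (by fun_prop) (fun _ => by positivity) (fun k hk => by
      have h2 := hk 0
      have hpi := Real.pi_pos
      have h3 : 0 < Real.sin (2 * Real.pi * k 0) := by
        apply Real.sin_pos_of_pos_of_lt_pi
        · have := h2.1
          positivity
        · nlinarith [h2.2]
      positivity)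
  exact lt_of_lt_of_le hc (ge_of_tendsto (hb.h_po 0 E hE) h1)

/-- the fourth moment on large tori -/
theorem BV.n4 : ∃ C4 : ℝ, 0 ≤ C4 ∧ ∀ η : ℝ, 0 < η → ∀ᶠ L : ℕ in atTop, ∀ w ∈ Rg E1 E2 r,
    η ≤ w.im → ∑ x : T 2 (2 * L + 1), ‖kc (rv w) x‖ ^ 4 ≤
      C4 * (1 + Real.log (1 / w.im)) ^ 2 := by
  have hC := hb.C0
  refine ⟨8 * (C ^ 4 + 25 * C ^ 2 + 2 * C) + 8, by positivity, ?_⟩
  intro η hη
  filter_upwards [close_unif 2 (by norm_num) η 1 hη one_pos] with L hL w hw hwη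
  obtain ⟨G, hG⟩ := isG_exists 0 (fun _ : Zd 2 => 0) w hw.1
  have him1 : w.im ≤ 1 := hw.2.1.trans hb.r1
  have h1 := kc4_sum w hw.1 him1 _ G hG C hC (hb.pd w hw G hG) L (hL w hwη _ G hG)
  refine h1.trans ?_
  have hG0 : ‖G 0‖ ≤ C := by
    rw [← lapG w hw.1 _ G hG]
    exact hb.bd w hw
  have hlog : 0 ≤ Real.log (1 / w.im) := Real.log_nonneg (by
    rw [le_div_iff₀ hw.1]
    linarith)
  set Λ := 1 + Real.log (1 / w.im) with hΛ
  have hΛ1 : 1 ≤ Λ ^ 2 := one_le_pow₀ (by linarith)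
  have h2 : (5 + 4 * Real.log (1 / w.im)) ^ 2 ≤ 25 * Λ ^ 2 := by
    rw [hΛ]
    nlinarith
  have h3 : ‖G 0‖ ^ 4 ≤ C ^ 4 := pow_le_pow_left₀ (norm_nonneg _) hG0 4
  have h4 : C ^ 2 * (5 + 4 * Real.log (1 / w.im)) ^ 2 ≤ C ^ 2 * (25 * Λ ^ 2) := by gcongr
  have h5 : C ^ 4 ≤ C ^ 4 * Λ ^ 2 := by
    have : 0 ≤ C ^ 4 := by positivity
    nlinarith
  have h6 : C ≤ C * Λ ^ 2 := by nlinarith
  nlinarith

end

end Pool.Agent.Zk71.D2
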