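import Pool.Agent.Zk71.D2.Cvdc

/-! The complex level curve of the two-dimensional lattice. -/

set_option autoImplicit false
set_option linter.unusedSectionVars false

open scoped BigOperators Topology
open MeasureTheory Filter Set

namespace Pool.Agent.Zk71.D2

/-- square root -/
noncomputable def rt (z : ℂ) : ℂ := Complex.exp (Complex.log z / 2)

theorem rt_sq (z : ℂ) (hz : z ≠ 0) : rt z ^ 2 = z := by
  unfold rt
  rw [← Complex.exp_nat_mul]
  have : ((2 : ℕ) : ℂ) * (Complex.log z / 2) = Complex.log z := by push_cast; ring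
  rw [this, Complex.exp_log hz]

theorem rt_ne (z : ℂ) : rt z ≠ 0 := Complex.exp_ne_zero _

theorem rt_norm (z : ℂ) (hz : z ≠ 0) : ‖rt z‖ ^ 2 = ‖z‖ := by
  rw [← norm_pow, rt_sq z hz]

theorem rt_re (z : ℂ) (hz : z ∈ Complex.slitPlane) : 0 < (rt z).re := by
  unfold rt
  rw [Complex.exp_re]
  refine mul_pos (Real.exp_pos _) (Real.cos_pos_of_mem_Ioo ?_)
  have h1 : (Complex.log z / 2).im = Complex.arg z / 2 := by
    have : Complex.log z / 2 = Complex.log z * ((1 / 2 : ℝ) : ℂ) := by push_cast; ring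
    rw [this, Complex.im_mul_ofReal, Complex.log_im]
    ring
  rw [h1]
  have h2 := Complex.neg_pi_lt_arg z
  have h3 := Complex.arg_le_pi z
  have h4 : Complex.arg z ≠ Real.pi := (Complex.mem_slitPlane_iff_arg.1 hz).1
  have h5 : Complex.arg z < Real.pi := lt_of_le_of_ne h3 h4
  constructor <;> linarith

theorem rt_im (z : ℂ) (hz : z ≠ 0) : 2 * (rt z).re * (rt z).im = z.im := by
  have h1 := congrArg Complex.im (rt_sq z hz)
  rw [sq, Complex.mul_im] at h1
  linarith

theorem rt_re2 (z : ℂ) (hz : z ≠ 0) : (rt z).re ^ 2 - (rt z).im ^ 2 = z.re := by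
  have h1 := congrArg Complex.re (rt_sq z hz)
  rw [sq, Complex.mul_re] at h1
  linarith

theorem rt_deriv (z : ℂ) (hz : z ∈ Complex.slitPlane) : HasDerivAt rt (1 / (2 * rt z)) z := by
  have h0 : z ≠ 0 := Complex.slitPlane_ne_zero hz
  have h1 := ((Complex.hasDerivAt_log hz).div_const 2).cexp
  refine h1.congr_deriv ?_
  have h2 := rt_sq z h0
  have h3 := rt_ne z
  change rt z * (z⁻¹ / 2) = 1 / (2 * rt z)
  nth_rewrite 2 [← h2]
  field_simp

section
variable (w : ℂ)

/-- `cos θ(k)` -/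
noncomputable def CC (k : ℝ) : ℂ := (4 - w) / 2 - (Real.cos k : ℂ)

noncomputable def xi (k : ℝ) : ℂ := rt (1 - CC w k)
noncomputable def ch (k : ℝ) : ℂ := rt (1 + CC w k)

/-- `sin θ(k)` -/
noncomputable def SS (k : ℝ) : ℂ := xi w k * ch w k

/-- `exp (i θ(k))` -/
noncomputable def ze (k : ℝ) : ℂ := CC w k + Complex.I * SS w k

variable {w}
variable (hw : 0 < w.im)

theorem CC_im (k : ℝ) : (CC w k).im = -(w.im / 2) := by
  unfold CC
  have : (4 - w) / 2 = (4 - w) * ((1 / 2 : ℝ) : ℂ) := by push_cast; ring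
  rw [this, Complex.sub_im, Complex.im_mul_ofReal, Complex.ofReal_im, Complex.sub_im]
  simp
  ring

theorem CC_re (k : ℝ) : (CC w k).re = (4 - w.re) / 2 - Real.cos k := by
  unfold CC
  have : (4 - w) / 2 = (4 - w) * ((1 / 2 : ℝ) : ℂ) := by push_cast; ring
  rw [this, Complex.sub_re, Complex.re_mul_ofReal, Complex.ofReal_re, Complex.sub_re]
  simp
  ring

include hw

theorem one_sub_im (k : ℝ) : (1 - CC w k).im = w.im / 2 := by
  rw [Complex.sub_im, CC_im]; simp

theorem one_add_im (k : ℝ) : (1 + CC w k).im = -(w.im / 2) := by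
  rw [Complex.add_im, CC_im]; simp

theorem one_sub_slit (k : ℝ) : 1 - CC w k ∈ Complex.slitPlane := by
  rw [Complex.mem_slitPlane_iff]
  right
  rw [one_sub_im hw]
  positivity

theorem one_add_slit (k : ℝ) : 1 + CC w k ∈ Complex.slitPlane := by
  rw [Complex.mem_slitPlane_iff]
  right
  rw [one_add_im hw]
  have : 0 < w.im / 2 := by positivity
  linarith

theorem xi_sq (k : ℝ) : xi w k ^ 2 = 1 - CC w k :=
  rt_sq _ (Complex.slitPlane_ne_zero (one_sub_slit hw k))

theorem ch_sq (k : ℝ) : ch w k ^ 2 = 1 + CC w k :=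
  rt_sq _ (Complex.slitPlane_ne_zero (one_add_slit hw k))

theorem SS_sq (k : ℝ) : SS w k ^ 2 = 1 - CC w k ^ 2 := by
  unfold SS
  rw [mul_pow, xi_sq hw, ch_sq hw]
  ring

theorem SS_ne (k : ℝ) : SS w k ≠ 0 := mul_ne_zero (rt_ne _) (rt_ne _)

theorem xi_re (k : ℝ) : 0 < (xi w k).re := rt_re _ (one_sub_slit hw k)
theorem ch_re (k : ℝ) : 0 < (ch w k).re := rt_re _ (one_add_slit hw k)

theorem xi_im (k : ℝ) : 0 < (xi w k).im := by
  have h1 := rt_im (1 - CC w k) (Complex.slitPlane_ne_zero (one_sub_slit hw k))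
  rw [one_sub_im hw] at h1
  have h2 := xi_re hw k
  change 0 < (rt (1 - CC w k)).re at h2
  change 0 < (rt (1 - CC w k)).im
  by_contra h3
  have h4 : (rt (1 - CC w k)).re * (rt (1 - CC w k)).im ≤ 0 :=
    mul_nonpos_of_nonneg_of_nonpos h2.le (not_lt.1 h3)
  linarith

theorem ch_im (k : ℝ) : (ch w k).im < 0 := by
  have h1 := rt_im (1 + CC w k) (Complex.slitPlane_ne_zero (one_add_slit hw k))
  rw [one_add_im hw] at h1
  have h2 := ch_re hw k
  change 0 < (rt (1 + CC w k)).re at h2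
  change (rt (1 + CC w k)).im < 0
  by_contra h3
  have h4 : 0 ≤ (rt (1 + CC w k)).re * (rt (1 + CC w k)).im := mul_nonneg h2.le (not_lt.1 h3)
  linarith

theorem SS_re (k : ℝ) : 0 < (SS w k).re := by
  unfold SS
  rw [Complex.mul_re]
  have h1 := xi_re hw k
  have h2 := ch_re hw k
  have h3 := xi_im hw k
  have h4 := ch_im hw k
  nlinarith [mul_pos h1 h2, mul_pos h3 (neg_pos.2 h4)]

theorem ze_mul (k : ℝ) : ze w k * (CC w k - Complex.I * SS w k) = 1 := by
  unfold ze
  have h1 := SS_sq hw k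
  have h2 := Complex.I_sq
  linear_combination (-(SS w k ^ 2)) * h2 + h1

theorem ze_ne (k : ℝ) : ze w k ≠ 0 := left_ne_zero_of_mul (by rw [ze_mul hw k]; exact one_ne_zero)

theorem ze_inv (k : ℝ) : (ze w k)⁻¹ = CC w k - Complex.I * SS w k :=
  inv_eq_of_mul_eq_one_right (ze_mul hw k)

theorem ze_quad (k : ℝ) : ze w k ^ 2 + 1 = 2 * CC w k * ze w k := by
  unfold ze
  have h1 := SS_sq hw k
  have h2 := Complex.I_sq
  linear_combination (SS w k ^ 2) * h2 - h1

/-- strict contraction -/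
theorem ze_lt (k : ℝ) : ‖ze w k‖ < 1 := by
  have hne := ze_ne hw k
  have hn : 0 < ‖ze w k‖ := norm_pos_iff.2 hne
  set a := ze w k with ha
  have hinv := ze_inv hw k
  rw [← ha] at hinv
  have e1 : a + a⁻¹ = 2 * CC w k := by rw [hinv, ha]; unfold ze; ring
  have e2 : Complex.I * (a⁻¹ - a) = 2 * SS w k := by
    rw [hinv, ha]; unfold ze
    have h2 := Complex.I_sq
    linear_combination (-2 * SS w k) * h2
  have i1 : a⁻¹.im = -a.im / ‖a‖ ^ 2 := by
    rw [Complex.inv_im, Complex.normSq_eq_norm_sq]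
  have i2 : (a + a⁻¹).im = -w.im := by
    rw [e1]
    have : (2 : ℂ) * CC w k = ((2 : ℝ) : ℂ) * CC w k := by norm_num
    rw [this, Complex.im_ofReal_mul, CC_im]
    ring
  have i3 : 0 < (Complex.I * (a⁻¹ - a)).re := by
    rw [e2]
    have : (2 : ℂ) * SS w k = ((2 : ℝ) : ℂ) * SS w k := by norm_num
    rw [this, Complex.re_ofReal_mul]
    have := SS_re hw k
    linarith
  rw [Complex.add_im, i1] at i2
  have i4 : (Complex.I * (a⁻¹ - a)).re = -(a⁻¹ - a).im := by
    rw [Complex.mul_re]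
    simp
  rw [i4, Complex.sub_im, i1] at i3
  have hsq : 0 < ‖a‖ ^ 2 := by positivity
  have i5 : 0 < a.im := by
    have h1 : 0 < a.im * (1 / ‖a‖ ^ 2 + 1) := by
      have : a.im * (1 / ‖a‖ ^ 2 + 1) = -(-a.im / ‖a‖ ^ 2 - a.im) := by ring
      rw [this]; exact i3
    have h2 : 0 < 1 / ‖a‖ ^ 2 + 1 := by positivity
    by_contra h3
    have := mul_nonpos_of_nonpos_of_nonneg (not_lt.1 h3) h2.le
    linarith
  have i6 : a.im * (1 - 1 / ‖a‖ ^ 2) < 0 := by
    have : a.im * (1 - 1 / ‖a‖ ^ 2) = a.im + -a.im / ‖a‖ ^ 2 := by ring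
    rw [this]
    linarith
  have i7 : 1 - 1 / ‖a‖ ^ 2 < 0 := by
    by_contra h
    have := mul_nonneg i5.le (not_lt.1 h)
    linarith
  have i8 : 1 < 1 / ‖a‖ ^ 2 := by linarith
  rw [lt_div_iff₀ hsq, one_mul] at i8
  by_contra h
  have h1 : 1 ≤ ‖a‖ := not_lt.1 h
  have h2 : 1 ≤ ‖a‖ ^ 2 := one_le_pow₀ h1
  linarith

/-! derivatives -/

theorem CC_deriv (k : ℝ) : HasDerivAt (CC w) (Real.sin k : ℂ) k := by
  unfold CC
  have h1 : HasDerivAt (fun k : ℝ => (Real.cos k : ℂ)) ((-Real.sin k : ℝ) : ℂ) k :=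
    (Real.hasDerivAt_cos k).ofReal_comp
  have h2 := h1.const_sub ((4 - w) / 2)
  refine h2.congr_deriv ?_
  push_cast
  ring

theorem xi_deriv (k : ℝ) : HasDerivAt (xi w) (-(Real.sin k : ℂ) / (2 * xi w k)) k := by
  have h1 := (CC_deriv hw k).const_sub 1
  have h2 := (rt_deriv _ (one_sub_slit hw k)).comp_of_eq k h1 rfl
  refine h2.congr_deriv ?_
  unfold xi
  ring

theorem ch_deriv (k : ℝ) : HasDerivAt (ch w) ((Real.sin k : ℂ) / (2 * ch w k)) k := by
  have h1 := (CC_deriv hw k).const_add 1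
  have h2 := (rt_deriv _ (one_add_slit hw k)).comp_of_eq k h1 rfl
  refine h2.congr_deriv ?_
  unfold ch
  ring

theorem SS_deriv (k : ℝ) : HasDerivAt (SS w) (-(CC w k * Real.sin k) / SS w k) k := by
  have h1 := (xi_deriv hw k).mul (ch_deriv hw k)
  refine h1.congr_deriv ?_
  have hx := rt_ne (1 - CC w k)
  have hc := rt_ne (1 + CC w k)
  have hx2 := xi_sq hw k
  have hc2 := ch_sq hw k
  unfold SS
  change (xi w k) ≠ 0 at hx
  change (ch w k) ≠ 0 at hc
  field_simp
  have : CC w k = (ch w k ^ 2 - xi w k ^ 2) / 2 := by rw [hx2, hc2]; ring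
  rw [this]
  ring

theorem ze_deriv (k : ℝ) : HasDerivAt (ze w) (-(Complex.I * Real.sin k / SS w k) * ze w k) k := by
  have h1 := (CC_deriv hw k).add ((SS_deriv hw k).const_mul Complex.I)
  refine h1.congr_deriv ?_
  have hS := SS_ne hw k
  unfold ze
  have h2 := Complex.I_sq
  field_simp
  linear_combination (Real.sin k * SS w k : ℂ) * h2

theorem SS_cont : Continuous (SS w) :=
  continuous_iff_continuousAt.mpr fun k => (SS_deriv hw k).continuousAt

theorem ze_cont : Continuous (ze w) :=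
  continuous_iff_continuousAt.mpr fun k => (ze_deriv hw k).continuousAt

theorem CC_cont : Continuous (CC w) :=
  continuous_iff_continuousAt.mpr fun k => (CC_deriv hw k).continuousAt

/-- the phase of the Green function -/
theorem cph (n : ℕ) (x : ℝ) : CPh
    (fun k : ℝ => Complex.exp (Complex.I * (x * k : ℝ)) * ze w k ^ n)
    (fun k : ℝ => (x : ℂ) - n * (Real.sin k / SS w k))
    (fun k : ℝ => -(n * ((4 - w) / 2 * (1 - CC w k * Real.cos k) / SS w k ^ 3))) := by
  refine ⟨fun k => ?_, fun k => ?_, ?_⟩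
  · have h0 : HasDerivAt (fun k : ℝ => Complex.I * ((x * k : ℝ) : ℂ)) (Complex.I * x) k := by
      have h1 : HasDerivAt (fun k : ℝ => ((x * k : ℝ) : ℂ)) ((x : ℝ) : ℂ) k := by
        have := ((hasDerivAt_id k).const_mul x).ofReal_comp
        simpa using this
      exact h1.const_mul Complex.I
    have h1 := h0.cexp.mul ((ze_deriv hw k).pow n)
    refine h1.congr_deriv ?_
    rcases n with _ | n
    · simp
      ring
    · have e1 : ze w k ^ (n + 1) = ze w k ^ n * ze w k := pow_succ _ _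
      rw [Pi.pow_apply, e1, Nat.add_sub_cancel]
      push_cast
      ring
  · have h1 : HasDerivAt (fun k : ℝ => (Real.sin k : ℂ)) (Real.cos k : ℂ) k :=
      (Real.hasDerivAt_sin k).ofReal_comp
    have h2 := (((h1.div (SS_deriv hw k) (SS_ne hw k)).const_mul (n : ℂ)).const_sub (x : ℂ))
    refine h2.congr_deriv ?_
    have hS := SS_ne hw k
    have hS2 := SS_sq hw k
    have hsc : (Real.sin k : ℂ) ^ 2 = 1 - (Real.cos k : ℂ) ^ 2 := by
      have := Real.sin_sq_add_cos_sq k
      have h3 : Real.sin k ^ 2 = 1 - Real.cos k ^ 2 := by linarith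
      exact_mod_cast congrArg (fun r : ℝ => (r : ℂ)) h3
    have hmu : (4 - w) / 2 = CC w k + Real.cos k := by unfold CC; ring
    rw [hmu]
    have e1 : ((Real.cos k : ℂ) * SS w k - (Real.sin k : ℂ) * (-(CC w k * Real.sin k) / SS w k)) /
        SS w k ^ 2 = ((Real.cos k : ℂ) * SS w k ^ 2 + CC w k * (Real.sin k : ℂ) ^ 2) /
        SS w k ^ 3 := by
      field_simp
      ring
    rw [e1, hS2, hsc]
    ring
  · have h3 : ∀ k, SS w k ^ 3 ≠ 0 := fun k => pow_ne_zero 3 (SS_ne hw k)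
    have hcC := CC_cont hw
    have hcS := SS_cont hw
    have hc : Continuous fun k : ℝ => (Real.cos k : ℂ) := by fun_prop
    exact (continuous_const.mul ((continuous_const.mul (continuous_const.sub (hcC.mul hc))).div
      (hcS.pow 3) h3)).neg

end

end Pool.Agent.Zk71.D2
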