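import Mathlib

/-! The second derivative test for complex phases. -/

set_option autoImplicit false
set_option linter.unusedSectionVars false

open scoped BigOperators Topology
open MeasureTheory Filter Set

namespace Pool.Agent.Zk71.D2

/-- `F = exp (i φ)` with `φ' = v`, `φ'' = w` -/
structure CPh (F v w : ℝ → ℂ) : Prop where
  dF : ∀ t, HasDerivAt F (Complex.I * v t * F t) t
  dv : ∀ t, HasDerivAt v (w t) t
  cw : Continuous w

variable {F v w : ℝ → ℂ}

theorem CPh.cF (h : CPh F v w) : Continuous F :=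
  continuous_iff_continuousAt.mpr fun t => (h.dF t).continuousAt

theorem CPh.cv (h : CPh F v w) : Continuous v :=
  continuous_iff_continuousAt.mpr fun t => (h.dv t).continuousAt

theorem CPh.ii (h : CPh F v w) (x y : ℝ) : IntervalIntegrable F volume x y :=
  h.cF.intervalIntegrable x y

theorem re_le (κ z : ℂ) (hκ : ‖κ‖ = 1) : |(κ * z).re| ≤ ‖z‖ := by
  refine (Complex.abs_re_le_norm _).trans ?_
  rw [norm_mul, hκ, one_mul]

/-- first derivative test -/
theorem cfirst (h : CPh F v w) {x y δ K : ℝ} {κ : ℂ} (hκ : ‖κ‖ = 1) (hxy : x ≤ y) (hδ : 0 < δ)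
    (hK : 0 ≤ K) (hF : ∀ t ∈ Icc x y, ‖F t‖ ≤ 1)
    (hw0 : ∀ t ∈ Icc x y, 0 ≤ (κ * w t).re)
    (hw : ∀ t ∈ Icc x y, ‖w t‖ ≤ K * (κ * w t).re)
    (hv : (∀ t ∈ Icc x y, δ ≤ (κ * v t).re) ∨ (∀ t ∈ Icc x y, (κ * v t).re ≤ -δ)) :
    ‖∫ t in x..y, F t‖ ≤ (2 + K) / δ := by
  set ψ : ℝ → ℝ := fun t => (κ * v t).re with hψ
  have hψd : ∀ t, HasDerivAt ψ (κ * w t).re t := by
    intro t
    have h1 := ((h.dv t).const_mul κ)
    have h2 := (Complex.reCLM.hasFDerivAt.comp_hasDerivAt t h1)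
    exact h2
  have habs : ∀ t ∈ Icc x y, δ ≤ |ψ t| := by
    intro t ht
    rcases hv with hv | hv
    · exact (hv t ht).trans (le_abs_self _)
    · have := hv t ht
      have h2 := neg_abs_le (ψ t)
      exact le_trans (by linarith) (neg_le_abs (ψ t))
  have hvn : ∀ t ∈ Icc x y, |ψ t| ≤ ‖v t‖ := fun t _ => re_le κ (v t) hκ
  have hv0 : ∀ t ∈ Icc x y, v t ≠ 0 := by
    intro t ht h0
    have h1 := (habs t ht).trans (hvn t ht)
    rw [h0, norm_zero] at h1
    linarith
  have hψ0 : ∀ t ∈ Icc x y, ψ t ≠ 0 := by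
    intro t ht h0
    have h1 := habs t ht
    rw [h0, abs_zero] at h1
    linarith
  have hu : Set.uIcc x y = Icc x y := Set.uIcc_of_le hxy
  -- integration by parts
  have hD : ∀ t ∈ Set.uIcc x y, HasDerivAt (fun t => F t / (Complex.I * v t))
      (F t + Complex.I * F t * w t / v t ^ 2) t := by
    intro t ht
    rw [hu] at ht
    have h1 := (h.dF t).div ((h.dv t).const_mul Complex.I)
      (mul_ne_zero Complex.I_ne_zero (hv0 t ht))
    refine h1.congr_deriv ?_
    have h2 := hv0 t ht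
    field_simp
    linear_combination (-(F t * w t)) * Complex.I_sq
  have hcont : ContinuousOn (fun t => Complex.I * F t * w t / v t ^ 2) (Set.uIcc x y) := by
    rw [hu]
    refine ContinuousOn.div ?_ ?_ ?_
    · exact ((continuous_const.mul h.cF).mul h.cw).continuousOn
    · exact (h.cv.pow 2).continuousOn
    · intro t ht
      exact pow_ne_zero 2 (hv0 t ht)
  have hi2 : IntervalIntegrable (fun t => Complex.I * F t * w t / v t ^ 2) volume x y :=
    hcont.intervalIntegrable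
  have hFTC := intervalIntegral.integral_eq_sub_of_hasDerivAt hD ((h.ii x y).add hi2)
  rw [intervalIntegral.integral_add (h.ii x y) hi2] at hFTC
  have e1 : ∫ t in x..y, F t = (F y / (Complex.I * v y) - F x / (Complex.I * v x)) -
      ∫ t in x..y, Complex.I * F t * w t / v t ^ 2 := by
    rw [← hFTC]
    ring
  rw [e1]
  have hxm : x ∈ Icc x y := ⟨le_rfl, hxy⟩
  have hym : y ∈ Icc x y := ⟨hxy, le_rfl⟩
  have hb : ∀ t ∈ Icc x y, ‖F t / (Complex.I * v t)‖ ≤ 1 / δ := by
    intro t ht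
    rw [norm_div, norm_mul, Complex.norm_I, one_mul]
    exact div_le_div₀ zero_le_one (hF t ht) hδ ((habs t ht).trans (hvn t ht))
  -- the remaining integral
  have hψc : Continuous ψ := continuous_iff_continuousAt.mpr fun t => (hψd t).continuousAt
  have hcw : Continuous fun t => (κ * w t).re :=
    Complex.continuous_re.comp (continuous_const.mul h.cw)
  have hci : ContinuousOn (fun t => (κ * w t).re / ψ t ^ 2) (Set.uIcc x y) := by
    rw [hu]
    exact hcw.continuousOn.div (hψc.pow 2).continuousOn fun t ht => pow_ne_zero 2 (hψ0 t ht)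
  have hi3 : IntervalIntegrable (fun t => (κ * w t).re / ψ t ^ 2) volume x y :=
    hci.intervalIntegrable
  have hD2 : ∀ t ∈ Set.uIcc x y, HasDerivAt (fun t => -(ψ t)⁻¹) ((κ * w t).re / ψ t ^ 2) t := by
    intro t ht
    rw [hu] at ht
    refine ((hψd t).inv (hψ0 t ht)).neg.congr_deriv ?_
    ring
  have hF2 := intervalIntegral.integral_eq_sub_of_hasDerivAt hD2 hi3
  have h3 : ‖∫ t in x..y, Complex.I * F t * w t / v t ^ 2‖ ≤
      ∫ t in x..y, K * ((κ * w t).re / ψ t ^ 2) := by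
    refine intervalIntegral.norm_integral_le_of_norm_le hxy ?_ (hi3.const_mul K)
    refine Eventually.of_forall fun t ht => ?_
    have ht' : t ∈ Icc x y := ⟨ht.1.le, ht.2⟩
    rw [norm_div, norm_mul, norm_mul, Complex.norm_I, one_mul, norm_pow]
    have h4 : ‖F t‖ * ‖w t‖ ≤ 1 * (K * (κ * w t).re) :=
      mul_le_mul (hF t ht') (hw t ht') (norm_nonneg _) zero_le_one
    rw [one_mul] at h4
    have h5 : ψ t ^ 2 ≤ ‖v t‖ ^ 2 := by
      rw [← sq_abs]
      exact pow_le_pow_left₀ (abs_nonneg _) (hvn t ht') 2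
    have h6 : 0 < ψ t ^ 2 := by
      have := hψ0 t ht'
      positivity
    rw [← mul_div_assoc]
    exact div_le_div₀ (mul_nonneg hK (hw0 t ht')) h4 h6 h5
  rw [intervalIntegral.integral_const_mul, hF2] at h3
  have h7 : -(ψ y)⁻¹ - -(ψ x)⁻¹ ≤ 1 / δ := by
    rcases hv with hv | hv
    · have k1 : 0 < ψ y := lt_of_lt_of_le hδ (hv y hym)
      have k2 : (ψ x)⁻¹ ≤ 1 / δ := by
        rw [one_div]
        exact inv_anti₀ hδ (hv x hxm)
      have k3 : 0 < (ψ y)⁻¹ := inv_pos.2 k1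
      linarith
    · have k1 : ψ x < 0 := lt_of_le_of_lt (hv x hxm) (by linarith)
      have k2 : -(ψ y)⁻¹ ≤ 1 / δ := by
        rw [one_div, ← inv_neg]
        exact inv_anti₀ hδ (by have := hv y hym; linarith)
      have k3 : (ψ x)⁻¹ < 0 := inv_lt_zero.2 k1
      linarith
  refine (norm_sub_le _ _).trans ?_
  have h8 := norm_sub_le (F y / (Complex.I * v y)) (F x / (Complex.I * v x))
  have h9 := mul_le_mul_of_nonneg_left h7 hK
  have h10 := hb x hxm
  have h11 := hb y hym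
  have h12 : (2 + K) / δ = 1 / δ + 1 / δ + K * (1 / δ) := by ring
  linarith

theorem clen (_h : CPh F v w) {x y : ℝ} (hxy : x ≤ y) (hF : ∀ t ∈ Icc x y, ‖F t‖ ≤ 1) :
    ‖∫ t in x..y, F t‖ ≤ y - x := by
  have h1 := intervalIntegral.norm_integral_le_of_norm_le_const (a := x) (b := y) (f := F) (C := 1)
    (fun t ht => by
      rw [Set.uIoc_of_le hxy] at ht
      exact hF t ⟨ht.1.le, ht.2⟩)
  rw [one_mul, abs_of_nonneg (by linarith)] at h1
  exact h1

theorem csplit (h : CPh F v w) (x m y : ℝ) :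
    ‖∫ t in x..y, F t‖ ≤ ‖∫ t in x..m, F t‖ + ‖∫ t in m..y, F t‖ := by
  rw [← intervalIntegral.integral_add_adjacent_intervals (h.ii x m) (h.ii m y)]
  exact norm_add_le _ _

/-- second derivative test -/
theorem csecond (h : CPh F v w) {x y c K : ℝ} {κ : ℂ} (hκ : ‖κ‖ = 1) (hxy : x ≤ y) (hc : 0 < c)
    (hK : 0 ≤ K) (hF : ∀ t ∈ Icc x y, ‖F t‖ ≤ 1)
    (hwc : ∀ t ∈ Icc x y, c ≤ (κ * w t).re)
    (hw : ∀ t ∈ Icc x y, ‖w t‖ ≤ K * (κ * w t).re) :
    ‖∫ t in x..y, F t‖ ≤ 2 * (3 + K) / Real.sqrt c := by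
  have hsc : 0 < Real.sqrt c := Real.sqrt_pos.2 hc
  have hsq : Real.sqrt c * Real.sqrt c = c := Real.mul_self_sqrt hc.le
  set ρ : ℝ := 1 / Real.sqrt c with hρ
  have hρ0 : 0 < ρ := by positivity
  have hcρ : c * ρ = Real.sqrt c := by
    rw [hρ]
    field_simp
    nlinarith
  set ψ : ℝ → ℝ := fun t => (κ * v t).re with hψ
  have hψd : ∀ t, HasDerivAt ψ (κ * w t).re t := by
    intro t
    have h1 := ((h.dv t).const_mul κ)
    exact (Complex.reCLM.hasFDerivAt.comp_hasDerivAt t h1)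
  have hψc : Continuous ψ := continuous_iff_continuousAt.mpr fun t => (hψd t).continuousAt
  have hw0 : ∀ t ∈ Icc x y, 0 ≤ (κ * w t).re := fun t ht => hc.le.trans (hwc t ht)
  -- growth of ψ
  have hgr : ∀ s ∈ Icc x y, ∀ t ∈ Icc x y, s ≤ t → c * (t - s) ≤ ψ t - ψ s := by
    intro s hs t ht hst
    rcases hst.eq_or_lt with h1 | h1
    · rw [h1, sub_self, sub_self, mul_zero]
    · obtain ⟨r, hr, hr2⟩ := exists_hasDerivAt_eq_slope ψ (fun t => (κ * w t).re) h1
        hψc.continuousOn (fun r _ => hψd r)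
      have h2 := hwc r ⟨hs.1.trans hr.1.le, hr.2.le.trans ht.2⟩
      rw [hr2, le_div_iff₀ (by linarith)] at h2
      exact h2
  -- nonnegative part
  have pos : ∀ a b : ℝ, x ≤ a → a ≤ b → b ≤ y → 0 ≤ ψ a →
      ‖∫ t in a..b, F t‖ ≤ (3 + K) / Real.sqrt c := by
    intro a b hxa hab hby hψa
    set m := min b (a + ρ) with hm
    have ham : a ≤ m := le_min hab (by linarith)
    have hmb : m ≤ b := min_le_left _ _
    have e1 : ‖∫ t in a..m, F t‖ ≤ ρ := (clen h ham fun t ht =>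
      hF t ⟨hxa.trans ht.1, ht.2.trans (hmb.trans hby)⟩).trans (by
        have := min_le_right b (a + ρ)
        linarith)
    have e2 : ‖∫ t in m..b, F t‖ ≤ (2 + K) / Real.sqrt c := by
      rcases le_or_gt b (a + ρ) with h3 | h3
      · have : m = b := min_eq_left h3
        rw [this, intervalIntegral.integral_same, norm_zero]
        positivity
      · have hma : m = a + ρ := min_eq_right h3.le
        refine cfirst h hκ hmb hsc hK (fun t ht => hF t ⟨(hxa.trans ham).trans ht.1, ht.2.trans hby⟩)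
          (fun t ht => hw0 t ⟨(hxa.trans ham).trans ht.1, ht.2.trans hby⟩)
          (fun t ht => hw t ⟨(hxa.trans ham).trans ht.1, ht.2.trans hby⟩) (Or.inl ?_)
        intro t ht
        have h4 := hgr a ⟨hxa, hab.trans hby⟩ t ⟨(hxa.trans ham).trans ht.1, ht.2.trans hby⟩
          (ham.trans ht.1)
        have h5 : ρ ≤ t - a := by linarith [ht.1]
        have h6 := mul_le_mul_of_nonneg_left h5 hc.le
        rw [hcρ] at h6
        change Real.sqrt c ≤ ψ t
        linarith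
    refine (csplit h a m b).trans ((add_le_add e1 e2).trans (le_of_eq ?_))
    rw [hρ]
    ring
  have neg : ∀ a b : ℝ, x ≤ a → a ≤ b → b ≤ y → ψ b ≤ 0 →
      ‖∫ t in a..b, F t‖ ≤ (3 + K) / Real.sqrt c := by
    intro a b hxa hab hby hψb
    set m := max a (b - ρ) with hm
    have ham : a ≤ m := le_max_left _ _
    have hmb : m ≤ b := max_le hab (by linarith)
    have e1 : ‖∫ t in m..b, F t‖ ≤ ρ := (clen h hmb fun t ht =>
      hF t ⟨(hxa.trans ham).trans ht.1, ht.2.trans hby⟩).trans (by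
        have := le_max_right a (b - ρ)
        linarith)
    have e2 : ‖∫ t in a..m, F t‖ ≤ (2 + K) / Real.sqrt c := by
      rcases le_or_gt (b - ρ) a with h3 | h3
      · have : m = a := max_eq_left h3
        rw [this, intervalIntegral.integral_same, norm_zero]
        positivity
      · have hma : m = b - ρ := max_eq_right h3.le
        refine cfirst h hκ ham hsc hK (fun t ht => hF t ⟨hxa.trans ht.1, ht.2.trans (hmb.trans hby)⟩)
          (fun t ht => hw0 t ⟨hxa.trans ht.1, ht.2.trans (hmb.trans hby)⟩)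
          (fun t ht => hw t ⟨hxa.trans ht.1, ht.2.trans (hmb.trans hby)⟩) (Or.inr ?_)
        intro t ht
        have h4 := hgr t ⟨hxa.trans ht.1, ht.2.trans (hmb.trans hby)⟩ b ⟨hxa.trans hab, hby⟩
          (ht.2.trans hmb)
        have h5 : ρ ≤ b - t := by linarith [ht.2]
        have h6 := mul_le_mul_of_nonneg_left h5 hc.le
        rw [hcρ] at h6
        change ψ t ≤ -Real.sqrt c
        linarith
    refine (csplit h a m b).trans ((add_le_add e2 e1).trans (le_of_eq ?_))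
    rw [hρ]
    ring
  have htwo : 2 * (3 + K) / Real.sqrt c = (3 + K) / Real.sqrt c + (3 + K) / Real.sqrt c := by ring
  have hnn : 0 ≤ (3 + K) / Real.sqrt c := by positivity
  rw [htwo]
  by_cases h1 : ψ x ≤ 0 ∧ 0 ≤ ψ y
  · obtain ⟨t0, ht0, hv0⟩ := intermediate_value_Icc hxy hψc.continuousOn
      (show (0 : ℝ) ∈ Icc (ψ x) (ψ y) from h1)
    have g1 := neg x t0 le_rfl ht0.1 ht0.2 hv0.le
    have g2 := pos t0 y ht0.1 ht0.2 le_rfl hv0.ge
    exact (csplit h x t0 y).trans (add_le_add g1 g2)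
  · by_cases h2 : 0 ≤ ψ x
    · have := pos x y le_rfl hxy le_rfl h2
      linarith
    · have h3 : ψ y ≤ 0 := by
        by_contra h4
        exact h1 ⟨(not_le.1 h2).le, (not_le.1 h4).le⟩
      have := neg x y le_rfl hxy le_rfl h3
      linarith

/-- second derivative test with an amplitude -/
theorem camp (h : CPh F v w) {x y c K M0 M1 : ℝ} {κ : ℂ} (hκ : ‖κ‖ = 1) (hxy : x ≤ y) (hc : 0 < c)
    (hK : 0 ≤ K) (hF : ∀ t ∈ Icc x y, ‖F t‖ ≤ 1)
    (hwc : ∀ t ∈ Icc x y, c ≤ (κ * w t).re)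
    (hw : ∀ t ∈ Icc x y, ‖w t‖ ≤ K * (κ * w t).re) (A A' : ℝ → ℂ)
    (hA : ∀ t ∈ Icc x y, HasDerivAt A (A' t) t) (hA' : ContinuousOn A' (Icc x y))
    (hM0 : ∀ t ∈ Icc x y, ‖A t‖ ≤ M0) (hM1 : ∀ t ∈ Icc x y, ‖A' t‖ ≤ M1) :
    ‖∫ t in x..y, A t * F t‖ ≤ (M0 + (y - x) * M1) * (2 * (3 + K) / Real.sqrt c) := by
  set Φ : ℝ → ℂ := fun t => ∫ s in x..t, F s with hΦ
  have hΦd : ∀ t, HasDerivAt Φ (F t) t := fun t =>
    intervalIntegral.integral_hasDerivAt_right (h.ii x t)
      (h.cF.stronglyMeasurableAtFilter _ _) h.cF.continuousAt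
  have hu : Set.uIcc x y = Icc x y := Set.uIcc_of_le hxy
  have hΦb : ∀ t ∈ Icc x y, ‖Φ t‖ ≤ 2 * (3 + K) / Real.sqrt c := by
    intro t ht
    exact csecond h hκ ht.1 hc hK (fun r hr => hF r ⟨hr.1, hr.2.trans ht.2⟩)
      (fun r hr => hwc r ⟨hr.1, hr.2.trans ht.2⟩) (fun r hr => hw r ⟨hr.1, hr.2.trans ht.2⟩)
  have hnn : 0 ≤ 2 * (3 + K) / Real.sqrt c := by positivity
  have hΦc : Continuous Φ := continuous_iff_continuousAt.mpr fun t => (hΦd t).continuousAt
  have hAc : ContinuousOn A (Icc x y) := fun t ht => (hA t ht).continuousAt.continuousWithinAt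
  have hi1 : IntervalIntegrable A' volume x y := by
    refine ContinuousOn.intervalIntegrable ?_
    rw [hu]
    exact hA'
  have hparts := intervalIntegral.integral_mul_deriv_eq_deriv_mul (u := A) (v := Φ) (u' := A')
    (v' := F) (a := x) (b := y) (fun t ht => hA t (hu ▸ ht)) (fun t _ => hΦd t) hi1 (h.ii x y)
  rw [hparts]
  have hx0 : Φ x = 0 := by simp [hΦ]
  rw [hx0, mul_zero, sub_zero]
  refine (norm_sub_le _ _).trans ?_
  have hym : y ∈ Icc x y := ⟨hxy, le_rfl⟩
  have h1 : ‖A y * Φ y‖ ≤ M0 * (2 * (3 + K) / Real.sqrt c) := by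
    rw [norm_mul]
    exact mul_le_mul (hM0 y hym) (hΦb y hym) (norm_nonneg _)
      ((norm_nonneg _).trans (hM0 y hym))
  have h2 : ‖∫ t in x..y, A' t * Φ t‖ ≤ (M1 * (2 * (3 + K) / Real.sqrt c)) * |y - x| := by
    refine intervalIntegral.norm_integral_le_of_norm_le_const fun t ht => ?_
    rw [Set.uIoc_of_le hxy] at ht
    have ht' : t ∈ Icc x y := ⟨ht.1.le, ht.2⟩
    rw [norm_mul]
    exact mul_le_mul (hM1 t ht') (hΦb t ht') (norm_nonneg _)
      ((norm_nonneg _).trans (hM1 t ht'))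
  rw [abs_of_nonneg (by linarith)] at h2
  refine (add_le_add h1 h2).trans (le_of_eq ?_)
  ring

end Pool.Agent.Zk71.D2
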