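import Pool.Agent.Zk71.D2.FinB
import Pool.Agent.Zk71.DR.Drude

/-! The second moment of the averaged squared Green function in two dimensions. -/

set_option autoImplicit false
set_option linter.unusedSectionVars false

open scoped BigOperators Topology ENNReal
open MeasureTheory Filter

namespace Pool.Agent.Zk71.D2

open Pool.Agent.Zk11.QD Pool.Agent.Zk71.DR

set_option maxHeartbeats 1000000 in
/-- the second moment, for normalized laws -/
theorem drude2_j (E1 E2 : ℝ) (hE12 : E1 ≤ E2) (hO : Ok E1 E2) (b : ℝ)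
    (κ : ℝ) (hκ0 : 0 < κ) (hκ1 : κ < 1 / 5) (j : Fin 2) (ε : ℝ) (hε : 0 < ε) :
    ∃ δ : ℝ, 0 < δ ∧ ∀ (μ : Measure ℝ) [IsProbabilityMeasure μ], (∀ᵐ s ∂μ, |s| ≤ b) →
      ∫ s, s ∂μ = 0 → ∫ s, s ^ 2 ∂μ = 1 → ∀ E E' : ℝ, E1 ≤ E → E ≤ E2 → |E' - E| ≤ δ →
      ∀ lam η : ℝ, 0 < lam → lam < δ → lam ^ (2 + κ) ≤ η → η ≤ δ * lam ^ 2 →
      ∀ G : (Zd 2 → ℝ) → Zd 2 → ℂ,
        (∀ᵐ ω ∂(PZ 2 μ), IsG lam ω ((E' : ℂ) + η * Complex.I) (G ω)) →
        Summable (fun y : Zd 2 => (y j : ℝ) ^ 2 * ∫ ω, ‖G ω y‖ ^ 2 ∂(PZ 2 μ)) ∧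
        |lam ^ 2 * η ^ 2 * ∑' y : Zd 2, (y j : ℝ) ^ 2 * ∫ ω, ‖G ω y‖ ^ 2 ∂(PZ 2 μ) -
          (h2 E).im / (2 * (g2 E).im)| ≤ ε := by
  have hθ0 : 0 < th κ := by unfold th; linarith
  obtain ⟨δ1, hδ1, h1⟩ := fin2_diff E1 E2 hE12 hO b κ hκ0 hκ1 (Pi.single j 1) (ε / 16)
    (by positivity)
  obtain ⟨δ2, hδ2, hq2⟩ := fin2_diff E1 E2 hE12 hO b κ hκ0 hκ1 (Pi.single j 2) (ε / 16)
    (by positivity)
  obtain ⟨δ3, hδ3, hδ31, h3⟩ := tail_small (512 * (2 : ℝ) ^ 2) (1 / (8 * 2)) (th κ) (ε / 16)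
    (by positivity) (by positivity) hθ0 (by positivity)
  refine ⟨min (min δ1 δ2) δ3, lt_min (lt_min hδ1 hδ2) hδ3, ?_⟩
  intro μ _ hb hm1 hm2 E E' hEa hEb hEE lam η hl0 hl1 hη0 hη1 G hG
  have k1 : min (min δ1 δ2) δ3 ≤ δ1 := (min_le_left _ _).trans (min_le_left _ _)
  have k2 : min (min δ1 δ2) δ3 ≤ δ2 := (min_le_left _ _).trans (min_le_right _ _)
  have k3 : min (min δ1 δ2) δ3 ≤ δ3 := min_le_right _ _
  have hd1 := h1 μ hb hm1 hm2 E E' hEa hEb (hEE.trans k1) lam η hl0 (hl1.trans_le k1) hη0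
    (hη1.trans (mul_le_mul_of_nonneg_right k1 (by positivity))) G hG
  have hd2 := hq2 μ hb hm1 hm2 E E' hEa hEb (hEE.trans k2) lam η hl0 (hl1.trans_le k2) hη0
    (hη1.trans (mul_le_mul_of_nonneg_right k2 (by positivity))) G hG
  have ht := h3 lam hl0 (hl1.trans_le k3)
  have hlam1 : lam ≤ 1 := (hl1.trans_le (k3.trans hδ31)).le
  have hη : 0 < η := lt_of_lt_of_le (Real.rpow_pos_of_pos hl0 _) hη0
  have hηle : η ≤ 1 := by
    have : lam ^ 2 ≤ 1 := pow_le_one₀ hl0.le hlam1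
    have h4 := (hη1.trans (mul_le_mul_of_nonneg_right (k3.trans hδ31) (by positivity)))
    linarith
  have hz : 0 < ((E' : ℂ) + η * Complex.I).im := by simpa using hη
  have hzi : ((E' : ℂ) + η * Complex.I).im = η := by simp
  set m : Zd 2 → ℝ := fun y => ∫ ω, ‖G ω y‖ ^ 2 ∂(PZ 2 μ) with hm
  have hm0 : ∀ y, 0 ≤ m y := fun y => integral_nonneg fun _ => by positivity
  have hms : Summable m := G_summable μ lam _ hz G hG
  set a : ℝ := η / (8 * 2) with ha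
  have ha0 : 0 < a := by positivity
  have ha8 : 8 * ((2 : ℕ) : ℝ) * a = η := by rw [ha]; push_cast; field_simp
  have ha1 : a ≤ 1 := by
    rw [ha, div_le_one (by positivity)]
    linarith
  have hK : ∀ F : Finset (Zd 2), ∑ y ∈ F, Real.exp (2 * a * |(y j : ℝ)|) * m y ≤ 4 / η ^ 2 := by
    intro F
    have := ct_avg μ lam _ hz G hG j a ha0.le ha1 (by rw [hzi, ha8]) F
    rw [hzi] at this
    exact this
  set r : ℝ := lam ^ (κ / 2 + th κ) with hr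
  have hr0 : 0 < r := Real.rpow_pos_of_pos hl0 _
  have hsη : 0 < Real.sqrt η := Real.sqrt_pos.2 hη
  set p : ℝ := lam * Real.sqrt η * r with hp
  have hp0 : 0 < p := by positivity
  have hp2 : p ^ 2 = lam ^ 2 * η * r ^ 2 := by
    rw [hp, mul_pow, mul_pow, Real.sq_sqrt hη.le]
  obtain ⟨hsum, hlow, hup⟩ := sec_mom m hm0 hms j a (4 / η ^ 2) ha0 hK p hp0
  refine ⟨hsum, ?_⟩
  set S : ℝ := ∑' y : Zd 2, (y j : ℝ) ^ 2 * m y with hS
  -- the two differences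
  have w1 := vc_re m hm0 hms j p
  have w2 := vc_re m hm0 hms j (2 * p)
  set W1 : ℝ := ∑' y : Zd 2, vc (p * y j) * m y with hW1
  set W2 : ℝ := ∑' y : Zd 2, vc (2 * p * y j) * m y with hW2
  set c0 : ℝ := (h2 E).im / (4 * (g2 E).im) with hc0
  have t1 : tq2 E (Pi.single j 1) = c0 := by
    unfold tq2
    rw [Finset.sum_eq_single j]
    · rw [Pi.single_eq_same, hc0]; ring
    · intro i _ hi
      rw [Pi.single_eq_of_ne hi]; norm_num
    · intro h; exact absurd (Finset.mem_univ _) h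
  have t2 : tq2 E (Pi.single j 2) = 4 * c0 := by
    unfold tq2
    rw [Finset.sum_eq_single j]
    · rw [Pi.single_eq_same, hc0]; ring
    · intro i _ hi
      rw [Pi.single_eq_of_ne hi]; norm_num
    · intro h; exact absurd (Finset.mem_univ _) h
  have ph : ∀ (q : ℝ) (y : Zd 2), ∑ i, lam * Real.sqrt η * (r * (Pi.single j q : Fin 2 → ℝ) i) *
      y i = q * p * y j := by
    intro q y
    rw [Finset.sum_eq_single j]
    · rw [Pi.single_eq_same, hp]; ring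
    · intro i _ hi
      rw [Pi.single_eq_of_ne hi]; ring
    · intro h; exact absurd (Finset.mem_univ _) h
  simp only [ph] at hd1 hd2
  rw [t1] at hd1
  rw [t2] at hd2
  simp only [one_mul] at hd1
  -- real parts
  have hr2 : 0 < r ^ 2 := by positivity
  have rp : ∀ (A B : ℂ) (t w : ℝ), w = 2 * (A - B).re →
      ‖((η : ℂ) * A - (η : ℂ) * B) / ((r ^ 2 : ℝ) : ℂ) - ((t : ℝ) : ℂ)‖ ≤ ε / 16 →
      |η * w / r ^ 2 - 2 * t| ≤ ε / 8 := by
    intro A B t w hw hn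
    have e1 : η * w / r ^ 2 - 2 * t =
        2 * (((η : ℂ) * A - (η : ℂ) * B) / ((r ^ 2 : ℝ) : ℂ) - ((t : ℝ) : ℂ)).re := by
      rw [Complex.sub_re, Complex.div_ofReal_re, ← mul_sub, Complex.re_ofReal_mul,
        Complex.ofReal_re, hw]
      ring
    rw [e1, abs_mul, abs_of_pos (by norm_num : (0 : ℝ) < 2)]
    have := (Complex.abs_re_le_norm
      (((η : ℂ) * A - (η : ℂ) * B) / ((r ^ 2 : ℝ) : ℂ) - ((t : ℝ) : ℂ))).trans hn
    linarith
  have x1 := rp _ _ c0 W1 w1 hd1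
  have x2 := rp _ _ (4 * c0) W2 w2 hd2
  have hA : lam ^ 2 * η ^ 2 * S = η * (p ^ 2 * S) / r ^ 2 := by
    rw [hp2]
    field_simp
  have y1 : η * W1 / r ^ 2 ≤ lam ^ 2 * η ^ 2 * S := by
    rw [hA]
    gcongr
  have y2 : lam ^ 2 * η ^ 2 * S ≤ 5 * (η * W1 / r ^ 2) - η * W2 / r ^ 2 +
      8 * lam ^ 2 / a ^ 2 * Real.exp (-(a / p)) := by
    rw [hA]
    have h5 : η * (p ^ 2 * S) / r ^ 2 ≤ η * (5 * W1 - W2 +
        p ^ 2 * (2 / a ^ 2 * Real.exp (-(a / p))) * (4 / η ^ 2)) / r ^ 2 := by gcongr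
    refine h5.trans (le_of_eq ?_)
    rw [hp2]
    field_simp
    ring
  -- the tail
  have y3 : 8 * lam ^ 2 / a ^ 2 * Real.exp (-(a / p)) ≤ ε / 16 := by
    refine le_trans ?_ ht
    have e1 : 8 * lam ^ 2 / a ^ 2 = 512 * (2 : ℝ) ^ 2 * (lam ^ 2 / η ^ 2) := by
      rw [ha]
      field_simp
      norm_num
    rw [e1, mul_assoc]
    refine mul_le_mul_of_nonneg_left ?_ (by positivity)
    refine mul_le_mul ?_ ?_ (Real.exp_pos _).le (by positivity)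
    · rw [div_le_iff₀ (by positivity)]
      have h5 : (lam ^ (2 + κ)) ^ 2 ≤ η ^ 2 := pow_le_pow_left₀ (by positivity) hη0 2
      have h6 := mul_le_mul_of_nonneg_left h5 (by positivity : 0 ≤ lam ^ (-(3 : ℝ)))
      refine le_trans ?_ h6
      have e2 : lam ^ (-(3 : ℝ)) * (lam ^ (2 + κ)) ^ 2 = lam ^ (1 + 2 * κ) := by
        rw [← Real.rpow_natCast, ← Real.rpow_mul hl0.le, ← Real.rpow_add hl0]
        congr 1
        push_cast
        ring
      rw [e2, ← Real.rpow_natCast]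
      exact Real.rpow_le_rpow_of_exponent_ge hl0 hlam1 (by push_cast; linarith)
    · apply Real.exp_le_exp.2
      apply neg_le_neg
      have e3 : a / p = 1 / (8 * 2) * (Real.sqrt η / (lam * r)) := by
        rw [ha, hp]
        have : η = Real.sqrt η * Real.sqrt η := (Real.mul_self_sqrt hη.le).symm
        nth_rewrite 1 [this]
        field_simp
      rw [e3]
      refine mul_le_mul_of_nonneg_left ?_ (by positivity)
      rw [le_div_iff₀ (by positivity)]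
      have h7 : lam ^ (1 + κ / 2) ≤ Real.sqrt η := by
        apply Real.le_sqrt_of_sq_le
        refine le_trans (le_of_eq ?_) hη0
        rw [← Real.rpow_natCast, ← Real.rpow_mul hl0.le]
        congr 1
        push_cast
        ring
      refine le_trans (le_of_eq ?_) h7
      rw [hr]
      nth_rewrite 2 [← Real.rpow_one lam]
      rw [← Real.rpow_add hl0, ← Real.rpow_add hl0]
      congr 1
      ring
  have e4 : (h2 E).im / (2 * (g2 E).im) = 2 * c0 := by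
    rw [hc0]
    have hg := g2_pos E (hO.pt E hEa hEb)
    field_simp
    norm_num
  rw [e4, abs_le]
  have z1 := abs_le.1 x1
  have z2 := abs_le.1 x2
  constructor
  · linarith [z1.1]
  · linarith [z1.2, z2.1]

/-- the second moments, for normalized laws -/
theorem drude2_norm (E1 E2 : ℝ) (hE12 : E1 ≤ E2) (hO : Ok E1 E2) (b : ℝ)
    (κ : ℝ) (hκ0 : 0 < κ) (hκ1 : κ < 1 / 5) (ε : ℝ) (hε : 0 < ε) :
    ∃ δ : ℝ, 0 < δ ∧ ∀ (μ : Measure ℝ) [IsProbabilityMeasure μ], (∀ᵐ s ∂μ, |s| ≤ b) →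
      ∫ s, s ∂μ = 0 → ∫ s, s ^ 2 ∂μ = 1 → ∀ E E' : ℝ, E1 ≤ E → E ≤ E2 → |E' - E| ≤ δ →
      ∀ lam η : ℝ, 0 < lam → lam < δ → lam ^ (2 + κ) ≤ η → η ≤ δ * lam ^ 2 →
      ∀ G : (Zd 2 → ℝ) → Zd 2 → ℂ,
        (∀ᵐ ω ∂(PZ 2 μ), IsG lam ω ((E' : ℂ) + η * Complex.I) (G ω)) → ∀ j : Fin 2,
        Summable (fun y : Zd 2 => (y j : ℝ) ^ 2 * ∫ ω, ‖G ω y‖ ^ 2 ∂(PZ 2 μ)) ∧
        |lam ^ 2 * η ^ 2 * ∑' y : Zd 2, (y j : ℝ) ^ 2 * ∫ ω, ‖G ω y‖ ^ 2 ∂(PZ 2 μ) -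
          (h2 E).im / (2 * (g2 E).im)| ≤ ε := by
  choose δ hδ h using fun j : Fin 2 => drude2_j E1 E2 hE12 hO b κ hκ0 hκ1 j ε hε
  have hne : (Finset.univ : Finset (Fin 2)).Nonempty := ⟨0, Finset.mem_univ _⟩
  refine ⟨Finset.univ.inf' hne δ, (Finset.lt_inf'_iff hne).2 fun j _ => hδ j, ?_⟩
  intro μ _ hb hm1 hm2 E E' hEa hEb hEE lam η hl0 hl1 hη0 hη1 G hG j
  have k : Finset.univ.inf' hne δ ≤ δ j := Finset.inf'_le _ (Finset.mem_univ j)
  exact h j μ hb hm1 hm2 E E' hEa hEb (hEE.trans k) lam η hl0 (hl1.trans_le k) hη0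
    (hη1.trans (mul_le_mul_of_nonneg_right k (by positivity))) G hG


end Pool.Agent.Zk71.D2
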