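import Pool.Agent.Zk71.DR.Tail
import Pool.Agent.Zk11.QD.Nbd

/-! The free Green function on the torus and on the lattice, uniformly in the spectral parameter. -/

set_option autoImplicit false
set_option linter.unusedSectionVars false

open scoped BigOperators Topology
open MeasureTheory Filter

namespace Pool.Agent.Zk71.D2

open Pool.Agent.Zk11.QD Pool.Agent.Zk71.DR
open Pool.Agent.W788.MFP.Four (T e NN adj adj_neg e_comm e_add_left e_add e_zero e_neg e_neg_left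
  e_normSq sum_e NN_pos card_T e_single)

theorem kc_eq {d L : ℕ} [NeZero L] (w : ℂ) (hw : 0 < w.im) (V : T d L → ℝ) (x : T d L) :
    Hz w 0 V (kc (rv w)) x = if x = 0 then 1 else 0 := by
  rw [← Ak_apply (m := 0)]
  have h2 : ∑ y, Ak w 0 0 x y * kc (rv w) y = kc (fun k => Dn aa w 0 0 k * rv w k) (x - 0) := by
    rw [← kc_conv]
    exact Finset.sum_congr rfl fun y _ => by rw [sub_zero]; rfl
  have h3 : (fun k : T d L => Dn aa w 0 0 k * rv w k) = fun _ => 1 := by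
    funext k
    unfold Dn rv
    have h4 : ((aa k : ℝ) : ℂ) - w ≠ 0 := by
      intro h
      have h5 := congrArg Complex.im h
      simp at h5
      linarith
    rw [mul_zero, sub_zero]
    exact mul_inv_cancel₀ h4
  rw [h2, h3, kc_one, sub_zero]
  unfold vv
  simp

theorem uu_kc {d L : ℕ} [NeZero L] (w : ℂ) (hw : 0 < w.im) (V : T d L → ℝ) (x : T d L) :
    uu w 0 V x = kc (rv w) x := by
  have h1 := Hz_coercive hw (σ := 0) V (fun t => uu w 0 V t - kc (rv w) t)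
  have h2 : ∀ x, Hz w 0 V (fun t => uu w 0 V t - kc (rv w) t) x = 0 := by
    intro x
    rw [Hz_sub w 0 V (uu w 0 V) (kc (rv w)), uu_eq w hw, kc_eq w hw, sub_self]
  simp only [h2, norm_zero] at h1
  have h3 : ∑ x : T d L, ‖uu w 0 V x - kc (rv w) x‖ ^ 2 ≤ 0 := by
    have h4 : 0 < w.im ^ 2 := by positivity
    have h5 : ∑ _x : T d L, (0 : ℝ) ^ 2 = 0 := by simp
    rw [h5] at h1
    by_contra h6
    have := mul_pos h4 (not_le.1 h6)
    linarith
  have h4 := (Finset.single_le_sum (f := fun x : T d L => ‖uu w 0 V x - kc (rv w) x‖ ^ 2)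
    (fun _ _ => by positivity) (Finset.mem_univ x)).trans h3
  have h5 : ‖uu w 0 V x - kc (rv w) x‖ = 0 := by
    have := norm_nonneg (uu w 0 V x - kc (rv w) x)
    have h6 : ‖uu w 0 V x - kc (rv w) x‖ ^ 2 ≤ 0 := h4
    nlinarith
  exact sub_eq_zero.1 (norm_eq_zero.1 h5)

theorem far_mass {d : ℕ} (w : ℂ) (hw : 0 < w.im) (ω : Zd d → ℝ) (G : Zd d → ℂ)
    (hG : IsG 0 ω w G) (a : ℝ) (ha0 : 0 ≤ a) (ha1 : a ≤ 1) (ha : 8 * d * a ≤ w.im) (h : ℕ) :
    ∑' y, ‖fp h G y‖ ^ 2 ≤ d * (Real.exp (-(2 * a * h)) * (4 / w.im ^ 2)) := by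
  classical
  refine (fp_sum h G hG.sq).tsum_le_of_sum_le fun F => ?_
  have h1 : ∀ y, ‖fp h G y‖ ^ 2 ≤ ∑ j : Fin d, Real.exp (-(2 * a * h)) *
      (Real.exp (2 * a * |(y j : ℝ)|) * ‖G y‖ ^ 2) := by
    intro y
    unfold fp
    split_ifs with hf
    · obtain ⟨i, hi⟩ := hf
      refine le_trans ?_ (Finset.single_le_sum (f := fun j : Fin d => Real.exp (-(2 * a * h)) *
        (Real.exp (2 * a * |(y j : ℝ)|) * ‖G y‖ ^ 2)) (fun _ _ => by positivity)
        (Finset.mem_univ i))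
      have h2 : 1 ≤ Real.exp (-(2 * a * h)) * Real.exp (2 * a * |(y i : ℝ)|) := by
        rw [← Real.exp_add]
        apply Real.one_le_exp
        have h3 : (h : ℝ) ≤ |(y i : ℝ)| := by exact_mod_cast hi
        nlinarith
      calc ‖G y‖ ^ 2 = 1 * ‖G y‖ ^ 2 := (one_mul _).symm
        _ ≤ (Real.exp (-(2 * a * h)) * Real.exp (2 * a * |(y i : ℝ)|)) * ‖G y‖ ^ 2 := by gcongr
        _ = _ := by ring
    · rw [norm_zero]
      have : 0 ≤ ∑ j : Fin d, Real.exp (-(2 * a * h)) *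
        (Real.exp (2 * a * |(y j : ℝ)|) * ‖G y‖ ^ 2) :=
        Finset.sum_nonneg fun _ _ => by positivity
      simpa using this
  refine (Finset.sum_le_sum fun y _ => h1 y).trans ?_
  rw [Finset.sum_comm]
  have h2 : ∀ j : Fin d, ∑ y ∈ F, Real.exp (-(2 * a * h)) *
      (Real.exp (2 * a * |(y j : ℝ)|) * ‖G y‖ ^ 2) ≤
      Real.exp (-(2 * a * h)) * (4 / w.im ^ 2) := by
    intro j
    rw [← Finset.mul_sum]
    exact mul_le_mul_of_nonneg_left (ct_det 0 ω w hw G hG j a ha0 ha1 ha F) (Real.exp_pos _).le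
  refine (Finset.sum_le_sum fun j _ => h2 j).trans (le_of_eq ?_)
  rw [Finset.sum_const, Finset.card_univ, Fintype.card_fin, nsmul_eq_mul]

/-- uniform closeness -/
theorem close_unif (d : ℕ) (hd : 1 ≤ d) (η θ : ℝ) (hη : 0 < η) (hθ : 0 < θ) :
    ∀ᶠ h : ℕ in atTop, ∀ w : ℂ, η ≤ w.im → ∀ (ω : Zd d → ℝ) (G : Zd d → ℂ), IsG 0 ω w G →
      ∑ x : T d (2 * h + 1), ‖G (lift x) - kc (rv w) x‖ ^ 2 ≤ θ := by
  have hd0 : (0 : ℝ) < d := by exact_mod_cast hd
  set a : ℝ := min η 1 / (8 * d) with ha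
  have hm : 0 < min η 1 := lt_min hη one_pos
  have ha0 : 0 < a := by positivity
  have ha1 : a ≤ 1 := by
    rw [ha, div_le_one (by positivity)]
    have h1 := min_le_right η 1
    have h2 : (1 : ℝ) ≤ d := by exact_mod_cast hd
    linarith
  have ha8 : 8 * d * a = min η 1 := by
    rw [ha]
    field_simp
  have hlim : Tendsto (fun h : ℕ => 16 * (d : ℝ) ^ 2 / η ^ 2 *
      (d * (Real.exp (-(2 * a * h)) * (4 / η ^ 2)))) atTop (𝓝 0) := by
    have h1 : Tendsto (fun h : ℕ => Real.exp (-(2 * a * h))) atTop (𝓝 0) := by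
      refine Real.tendsto_exp_neg_atTop_nhds_zero.comp ?_
      exact (tendsto_natCast_atTop_atTop).const_mul_atTop (by positivity)
    have h2 := ((h1.mul_const (4 / η ^ 2)).const_mul (d : ℝ)).const_mul (16 * (d : ℝ) ^ 2 / η ^ 2)
    simpa using h2
  filter_upwards [hlim.eventually_le_const hθ] with h hh w hw ω G hG
  have hw0 : 0 < w.im := hη.trans_le hw
  have h1 := close 0 ω w hw0 G hG h
  simp only [uu_kc w hw0] at h1
  have h2 := far_mass w hw0 ω G hG a ha0.le ha1 (by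
    rw [ha8]
    exact (min_le_left _ _).trans hw) h
  refine h1.trans (le_trans ?_ hh)
  have h3 : 1 / w.im ^ 2 ≤ 1 / η ^ 2 := one_div_le_one_div_of_le (by positivity)
    (pow_le_pow_left₀ hη.le hw 2)
  have h4 : 16 * (d : ℝ) ^ 2 / w.im ^ 2 ≤ 16 * (d : ℝ) ^ 2 / η ^ 2 :=
    div_le_div_of_nonneg_left (by positivity) (by positivity) (pow_le_pow_left₀ hη.le hw 2)
  have h5 : 4 / w.im ^ 2 ≤ 4 / η ^ 2 :=
    div_le_div_of_nonneg_left (by positivity) (by positivity) (pow_le_pow_left₀ hη.le hw 2)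
  have h6 : ∑' y, ‖fp h G y‖ ^ 2 ≤ d * (Real.exp (-(2 * a * h)) * (4 / η ^ 2)) := by
    refine h2.trans ?_
    gcongr
  have h7 : 0 ≤ ∑' y, ‖fp h G y‖ ^ 2 := tsum_nonneg fun _ => by positivity
  exact mul_le_mul h4 h6 h7 (by positivity)

end Pool.Agent.Zk71.D2
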