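import Pool.Agent.Zk71.D2.Gl
import Pool.Agent.Zk71.DR.SeqD

/-! Differences of the correlation function in two dimensions. -/

set_option autoImplicit false
set_option linter.unusedSectionVars false

open scoped BigOperators Topology ENNReal
open MeasureTheory Filter

namespace Pool.Agent.Zk71.D2

open Pool.Agent.Zk11.QD Pool.Agent.Zk71.DR
open Pool.Agent.W788.MFP.Four (T e NN adj adj_neg e_comm e_add_left e_add e_zero e_neg e_neg_left
  e_normSq sum_e NN_pos card_T e_single)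

set_option maxHeartbeats 4000000 in
/-- **differences of the correlation function**, uniformly in the energy and the law. -/
theorem fin2_diff (E1 E2 : ℝ) (hE12 : E1 ≤ E2) (hO : Ok E1 E2) (b : ℝ)
    (κ : ℝ) (hκ0 : 0 < κ) (hκ1 : κ < 1 / 5) (P : Fin 2 → ℝ) (ε : ℝ) (hε : 0 < ε) :
    ∃ δ : ℝ, 0 < δ ∧ ∀ (μ : Measure ℝ) [IsProbabilityMeasure μ], (∀ᵐ s ∂μ, |s| ≤ b) →
      ∫ s, s ∂μ = 0 → ∫ s, s ^ 2 ∂μ = 1 → ∀ E E' : ℝ, E1 ≤ E → E ≤ E2 → |E' - E| ≤ δ →
      ∀ lam η : ℝ, 0 < lam → lam < δ → lam ^ (2 + κ) ≤ η → η ≤ δ * lam ^ 2 →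
      ∀ G : (Zd 2 → ℝ) → Zd 2 → ℂ,
        (∀ᵐ ω ∂(PZ 2 μ), IsG lam ω ((E' : ℂ) + η * Complex.I) (G ω)) →
        ‖((η : ℂ) * ∑' y : Zd 2, ((∫ ω, ‖G ω y‖ ^ 2 ∂(PZ 2 μ) : ℝ) : ℂ) -
          (η : ℂ) * ∑' y : Zd 2, Complex.exp (((∑ j, lam * Real.sqrt η *
          (lam ^ (κ / 2 + th κ) * P j) * y j : ℝ) : ℂ) *
          Complex.I) * ((∫ ω, ‖G ω y‖ ^ 2 ∂(PZ 2 μ) : ℝ) : ℂ)) /
          (((lam ^ (κ / 2 + th κ)) ^ 2 : ℝ) : ℂ) - ((tq2 E P : ℝ) : ℂ)‖ ≤ ε := by
  by_contra hcon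
  push Not at hcon
  have hθ0 : 0 < th κ := by unfold th; linarith
  have hex0 : 0 < κ / 2 + th κ := by linarith
  obtain ⟨rb, C0, hbv⟩ := bv2 E1 E2 hE12 hO
  obtain ⟨C5, hC50, hC5⟩ := hbv.n4
  have hrb0 := hbv.r0
  have hrb1 := hbv.r1
  -- constants
  have hC00 : 0 ≤ C0 := hbv.C0
  set Bm : ℝ := C0 + 1 with hBm
  have hBm1 : 1 ≤ Bm := by linarith
  set b' : ℝ := max b 1 with hb'
  have hb'1 : 1 ≤ b' := le_max_right _ _
  set c : ℝ := b' * (Bm + 1) with hc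
  have hbc : b' ≤ c := by nlinarith
  have hc1 : 1 ≤ c := hb'1.trans hbc
  have hc0 : 0 < c := by linarith
  set δ0 : ℝ := min (1 / (200 * c ^ 3)) (rb / 8) with hδ0
  have hδ00 : 0 < δ0 := lt_min (by positivity) (by positivity)
  have hδ0a : δ0 ≤ 1 / (200 * c ^ 3) := min_le_left _ _
  have hδ0b : δ0 ≤ rb / 8 := min_le_right _ _
  have hδ01 : δ0 ≤ 1 := by linarith
  have hseq := fun n : ℕ => hcon (δ0 / (n + 1)) (by positivity)
  choose μ0 hμ0 hb0 hm10 hm20 En0 En0' hEa0 hEb0 hEE0 σ0 η0 hσ00 hσ10 hηκ0 hησ0 G0 hG0 herr0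
    using hseq
  -- a convergent subsequence
  obtain ⟨E, hEm, φ, hφ1, hElim⟩ := (isCompact_Icc (a := E1) (b := E2)).tendsto_subseq
    (fun n => ⟨hEa0 n, hEb0 n⟩ : ∀ n, En0 n ∈ Set.Icc E1 E2)
  have hφn : ∀ n, n ≤ φ n := fun n => hφ1.le_apply
  have hg := g2_pos E (hO.pt E hEm.1 hEm.2)
  have hh0 := (h2_pos E (hO.pt E hEm.1 hEm.2)).le
  have hδφ : ∀ n : ℕ, δ0 / ((φ n : ℝ) + 1) ≤ δ0 / ((n : ℝ) + 1) := fun n => by
    have : (n : ℝ) ≤ φ n := by exact_mod_cast hφn n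
    gcongr
  set μ : ℕ → Measure ℝ := fun n => μ0 (φ n) with hμ
  have hμp : ∀ n, IsProbabilityMeasure (μ n) := fun n => hμ0 (φ n)
  set En : ℕ → ℝ := fun n => En0 (φ n) with hEn
  set En' : ℕ → ℝ := fun n => En0' (φ n) with hEn'
  set σ : ℕ → ℝ := fun n => σ0 (φ n) with hσd
  set η : ℕ → ℝ := fun n => η0 (φ n) with hηd
  set G : ℕ → (Zd 2 → ℝ) → Zd 2 → ℂ := fun n => G0 (φ n) with hGd
  have hbb : ∀ n, ∀ᵐ s ∂(μ n), |s| ≤ b' := fun n =>
    (hb0 (φ n)).mono fun s hs => hs.trans (le_max_left _ _)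
  have hσ0 : ∀ n, 0 < σ n := fun n => hσ00 (φ n)
  have hσ1 : ∀ n : ℕ, σ n < δ0 / ((n : ℝ) + 1) := fun n => lt_of_lt_of_le (hσ10 (φ n)) (hδφ n)
  have hηκ : ∀ n, σ n ^ (2 + κ) ≤ η n := fun n => hηκ0 (φ n)
  have hησ : ∀ n : ℕ, η n ≤ δ0 / ((n : ℝ) + 1) * σ n ^ 2 := fun n =>
    (hησ0 (φ n)).trans (mul_le_mul_of_nonneg_right (hδφ n) (by positivity))
  have hEE : ∀ n : ℕ, |En' n - En n| ≤ δ0 / ((n : ℝ) + 1) := fun n => (hEE0 (φ n)).trans (hδφ n)
  have hEl : Tendsto En atTop (𝓝 E) := hElim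
  have hnp : ∀ n : ℕ, (0 : ℝ) < (n : ℝ) + 1 := fun n => by positivity
  have hη0 : ∀ n, 0 < η n := fun n =>
    lt_of_lt_of_le (Real.rpow_pos_of_pos (hσ0 n) _) (hηκ n)
  have hδn : ∀ n : ℕ, δ0 / ((n : ℝ) + 1) ≤ δ0 := fun n => by
    rw [div_le_iff₀ (hnp n)]
    have : (0 : ℝ) ≤ n := Nat.cast_nonneg n
    nlinarith
  have hσδ : ∀ n, σ n ≤ δ0 := fun n => (hσ1 n).le.trans (hδn n)
  have hσ1' : ∀ n, σ n ≤ 1 := fun n => (hσδ n).trans hδ01
  have hη1 : ∀ n, η n ≤ 1 := by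
    intro n
    have h1 : σ n ^ 2 ≤ 1 := pow_le_one₀ (hσ0 n).le (hσ1' n)
    calc η n ≤ δ0 / (n + 1) * σ n ^ 2 := hησ n
      _ ≤ 1 * 1 := mul_le_mul ((hδn n).trans hδ01) h1 (by positivity) (by norm_num)
      _ = 1 := one_mul 1
  set z : ℕ → ℂ := fun n => (En' n : ℂ) + η n * Complex.I with hz
  have hzim : ∀ n, (z n).im = η n := fun n => by simp [hz]
  -- the small momentum
  set r : ℕ → ℝ := fun n => σ n ^ (κ / 2 + th κ) with hr
  have hr0 : ∀ n, 0 < r n := fun n => Real.rpow_pos_of_pos (hσ0 n) _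
  have hr1 : ∀ n, r n ≤ 1 := fun n => Real.rpow_le_one (hσ0 n).le (hσ1' n) hex0.le
  have hrsq : ∀ n, r n ^ 2 ≤ r n := fun n => by
    have := hr0 n
    have := hr1 n
    nlinarith
  -- the tori
  choose h ha hn5 hmom htr htr0 using fun n : ℕ => pick4 hbv C5 hC5 (σ n) (η n) (En' n)
    (r n ^ 2 * (1 / ((n : ℝ) + 1))) (hσ0 n) (hη0 n)
    (by have := hr0 n; positivity) (μ n) (fun j => r n * P j) (G n) (hG0 (φ n))
  have hacc : ∀ n : ℕ, r n ^ 2 * (1 / ((n : ℝ) + 1)) ≤ 1 / ((n : ℝ) + 1) := fun n => by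
    have h1 : 0 < 1 / ((n : ℝ) + 1) := by positivity
    have h2 : r n ^ 2 ≤ 1 := (hrsq n).trans (hr1 n)
    nlinarith
  choose m hm0 hmeq using fun n : ℕ => mde_exists (aa (d := 2) (L := 2 * h n + 1)) (z n)
    (by rw [hzim]; exact hη0 n) (σ n)
  have hMD : ∀ n, MD 2 (2 * h n + 1) (z n) (σ n) (m n) := fun n =>
    ⟨by rw [hzim]; exact hη0 n, hm0 n, hmeq n⟩
  have hwim : ∀ n, η n ≤ (z n + (σ n : ℂ) ^ 2 * m n).im := by
    intro n
    rw [w_im]
    unfold ss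
    rw [hzim]
    have := hm0 n
    have : 0 ≤ σ n ^ 2 * (m n).im := by positivity
    linarith
  have hmlap : ∀ n, m n = Lap (GaL 2 (2 * h n + 1)) (z n + (σ n : ℂ) ^ 2 * m n) := fun n =>
    m_lap (hMD n)
  have hmd : ∀ n, ‖m n - Lap (GG 2) (z n + (σ n : ℂ) ^ 2 * m n)‖ ≤ 1 / ((n : ℝ) + 1) := by
    intro n
    have h1 := (ha n _ (hwim n)).1
    rw [← hmlap n] at h1
    exact h1.trans (hacc n)
  have hone : ∀ n : ℕ, 1 / ((n : ℝ) + 1) ≤ 1 := fun n => by
    rw [div_le_one (hnp n)]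
    have : (0 : ℝ) ≤ n := Nat.cast_nonneg n
    linarith
  have hσm : ∀ n, ‖(σ n : ℂ) ^ 2 * m n‖ ≤ σ n := by
    intro n
    have h1 := m_apriori (hMD n) (hσ0 n)
    rw [norm_mul, norm_pow, Complex.norm_real, Real.norm_eq_abs, sq_abs]
    have h2' := hσ0 n
    calc σ n ^ 2 * ‖m n‖ ≤ σ n ^ 2 * (1 / σ n) := by gcongr
      _ = σ n := by field_simp
  have hwR : ∀ n, z n + (σ n : ℂ) ^ 2 * m n ∈ Rg E1 E2 rb := by
    intro n
    have h1 := hσm n
    have h2' := (Complex.abs_re_le_norm _).trans h1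
    have h3 := (Complex.abs_im_le_norm _).trans h1
    have h4 := abs_le.1 h2'
    have h5 := abs_le.1 h3
    have h6 := hσδ n
    have h7 : η n ≤ δ0 := by
      have h8 : σ n ^ 2 ≤ 1 := pow_le_one₀ (hσ0 n).le (hσ1' n)
      calc η n ≤ δ0 / (n + 1) * σ n ^ 2 := hησ n
        _ ≤ δ0 * 1 := mul_le_mul (hδn n) h8 (by positivity) hδ00.le
        _ = δ0 := mul_one δ0
    have h8 := abs_le.1 ((hEE n).trans (hδn n))
    have h9 : (z n).re = En' n := by simp [hz]
    have ha1 : E1 ≤ En n := hEa0 (φ n)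
    have ha2 : En n ≤ E2 := hEb0 (φ n)
    refine ⟨(hη0 n).trans_le (hwim n), ?_, ?_, ?_⟩
    · rw [Complex.add_im, hzim]
      linarith [h5.2]
    · rw [Complex.add_re, h9]
      linarith [h4.1, h8.1]
    · rw [Complex.add_re, h9]
      linarith [h4.2, h8.2]
  have hmB : ∀ n, ‖m n‖ ≤ Bm := by
    intro n
    have h1 := hbv.bd (z n + (σ n : ℂ) ^ 2 * m n) (hwR n)
    have e1 : m n = (m n - Lap (GG 2) (z n + (σ n : ℂ) ^ 2 * m n)) +
      Lap (GG 2) (z n + (σ n : ℂ) ^ 2 * m n) := by ring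
    rw [e1]
    refine (norm_add_le _ _).trans ?_
    have := (hmd n).trans (hone n)
    rw [hBm]
    linarith
  -- limits
  have hinv : Tendsto (fun n : ℕ => 1 / ((n : ℝ) + 1)) atTop (𝓝 0) :=
    tendsto_one_div_add_atTop_nhds_zero_nat
  have hδl : Tendsto (fun n : ℕ => δ0 / ((n : ℝ) + 1)) atTop (𝓝 0) := by
    have := hinv.const_mul δ0
    rw [mul_zero] at this
    refine this.congr fun n => ?_
    ring
  have hσl : Tendsto σ atTop (𝓝 0) :=
    squeeze_zero (fun n => (hσ0 n).le) (fun n => (hσ1 n).le) hδl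
  have hrl : Tendsto r atTop (𝓝 0) := by
    have h2 := (Real.continuousAt_rpow_const 0 (κ / 2 + th κ) (Or.inr hex0.le)).tendsto.comp hσl
    rw [Real.zero_rpow hex0.ne'] at h2
    exact h2
  have hE'l : Tendsto En' atTop (𝓝 E) := by
    have h1 : Tendsto (fun n => En' n - En n) atTop (𝓝 0) := by
      rw [tendsto_zero_iff_norm_tendsto_zero]
      exact squeeze_zero (fun _ => norm_nonneg _) (fun n => hEE n) hδl
    have h2 := h1.add hEl
    rw [zero_add] at h2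
    refine h2.congr fun n => ?_
    ring
  have hxl : Tendsto (fun n => (z n).im / σ n ^ 2) atTop (𝓝 0) := by
    refine squeeze_zero (fun n => ?_) (fun n => ?_) hδl
    · rw [hzim]
      have := hη0 n
      positivity
    · rw [hzim, div_le_iff₀ (by have := hσ0 n; positivity)]
      exact hησ n
  have hηl : Tendsto η atTop (𝓝 0) := by
    have h1 := hxl.mul (hσl.pow 2)
    norm_num at h1
    refine h1.congr fun n => ?_
    have := hσ0 n
    rw [hzim]
    field_simp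
  have hyl : Tendsto (fun n => σ n ^ 3 / (z n).im) atTop (𝓝 0) := by
    have h1 : Tendsto (fun n => σ n ^ (1 - κ)) atTop (𝓝 0) := by
      have h2 := (Real.continuousAt_rpow_const 0 (1 - κ) (Or.inr (by linarith))).tendsto.comp hσl
      rw [Real.zero_rpow (by linarith)] at h2
      exact h2
    refine squeeze_zero (fun n => ?_) (fun n => ?_) h1
    · rw [hzim]
      have := hη0 n
      have := hσ0 n
      positivity
    · rw [hzim, div_le_iff₀ (hη0 n)]
      have h3 := mul_le_mul_of_nonneg_left (hηκ n)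
        (Real.rpow_pos_of_pos (hσ0 n) (1 - κ)).le
      refine le_trans (le_of_eq ?_) h3
      rw [← Real.rpow_add (hσ0 n), ← Real.rpow_natCast]
      congr 1
      push_cast
      ring
  have hwl : Tendsto (fun n => z n + (σ n : ℂ) ^ 2 * m n) atTop (𝓝[{w : ℂ | 0 < w.im}] (E : ℂ)) := by
    rw [tendsto_nhdsWithin_iff]
    constructor
    · rw [tendsto_iff_norm_sub_tendsto_zero]
      have h1 : Tendsto (fun n => |En' n - E| + (η n + σ n ^ 2 * Bm)) atTop (𝓝 0) := by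
        have h0 : Tendsto (fun n => |En' n - E|) atTop (𝓝 0) := by
          have := (tendsto_iff_norm_sub_tendsto_zero.1 hE'l)
          exact this
        have := h0.add (hηl.add ((hσl.pow 2).mul_const Bm))
        norm_num at this
        exact this
      refine squeeze_zero (fun _ => norm_nonneg _) (fun n => ?_) h1
      have e1 : z n + (σ n : ℂ) ^ 2 * m n - E = ((En' n - E : ℝ) : ℂ) +
          (η n * Complex.I + (σ n : ℂ) ^ 2 * m n) := by
        simp only [hz]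
        push_cast
        ring
      rw [e1]
      refine (norm_add_le _ _).trans ?_
      rw [Complex.norm_real, Real.norm_eq_abs]
      refine add_le_add le_rfl ?_
      refine (norm_add_le _ _).trans ?_
      rw [norm_mul, Complex.norm_I, mul_one, Complex.norm_real, Real.norm_eq_abs,
        abs_of_pos (hη0 n), norm_mul, norm_pow, Complex.norm_real, Real.norm_eq_abs, sq_abs]
      have := hmB n
      gcongr
    · refine Eventually.of_forall fun n => ?_
      exact (hη0 n).trans_le (hwim n)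
  have hml : Tendsto m atTop (𝓝 (g2 E)) := by
    have h1 := (hbv.lg E hEm).comp hwl
    have h2 : Tendsto (fun n => m n - Lap (GG 2) (z n + (σ n : ℂ) ^ 2 * m n)) atTop (𝓝 0) := by
      rw [tendsto_zero_iff_norm_tendsto_zero]
      exact squeeze_zero (fun _ => norm_nonneg _) hmd hinv
    have h3 := h2.add h1
    rw [zero_add] at h3
    refine h3.congr fun n => ?_
    simp
  have hQl : ∀ j, Tendsto (fun n => Qv 2 (2 * h n + 1) (z n) (σ n) (m n) j) atTop
      (𝓝 (h2 E).im) := by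
    intro j
    have h1 := (hbv.lh E hEm).comp hwl
    have h2 : Tendsto (fun n => Lap (HaL 2 (2 * h n + 1)) (z n + (σ n : ℂ) ^ 2 * m n) -
        Lap (HH 2) (z n + (σ n : ℂ) ^ 2 * m n)) atTop (𝓝 0) := by
      rw [tendsto_zero_iff_norm_tendsto_zero]
      exact squeeze_zero (fun _ => norm_nonneg _)
        (fun n => (ha n _ (hwim n)).2.trans (hacc n)) hinv
    have h3 := h2.add h1
    rw [zero_add] at h3
    have h4 := (Complex.continuous_im.tendsto _).comp h3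
    refine h4.congr fun n => ?_
    rw [Q_lap (hMD n) j]
    simp
  -- the site functions
  have hsite := fun n : ℕ => site_aux (μ n) b' c (σ n) (m n) hb'1 hbc
    (by
      have := hmB n
      rw [hc]
      nlinarith [norm_nonneg (m n)])
    (by
      have := hmB n
      rw [hc]
      nlinarith [norm_nonneg (m n)])
    (hσ0 n)
    (by
      have h1 := (hσδ n).trans hδ0a
      rw [le_div_iff₀ (by positivity)] at h1
      linarith) (hbb n) (hm10 (φ n)) (hm20 (φ n))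
  choose τ hh hS using hsite
  -- momenta
  have htl : Tendsto (fun n => σ n * Real.sqrt (η n) * r n) atTop (𝓝 0) := by
    have := (hσl.mul ((Real.continuous_sqrt.tendsto _).comp hηl)).mul hrl
    rw [Real.sqrt_zero, mul_zero] at this
    exact this
  have ht00 : ∀ n, 0 < σ n * Real.sqrt (η n) := fun n =>
    mul_pos (hσ0 n) (Real.sqrt_pos.2 (hη0 n))
  have ht0 : ∀ n, 0 < σ n * Real.sqrt (η n) * r n := fun n => mul_pos (ht00 n) (hr0 n)
  have htsq : ∀ n, σ n ^ 2 * (z n).im * r n ^ 2 = (σ n * Real.sqrt (η n) * r n) ^ 2 := by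
    intro n
    rw [mul_pow, mul_pow, Real.sq_sqrt (hη0 n).le, hzim]
  have hmo := fun j : Fin 2 => mom (fun n => σ n * Real.sqrt (η n) * r n)
    (fun n => an (2 * h n + 1) (σ n * Real.sqrt (η n) * (r n * P j)))
    (fun n : ℕ => 1 / ((n : ℝ) + 1)) (P j) ht0
    htl hinv (fun n => by
      have h1 := (an_close (2 * h n + 1) (by omega) (σ n * Real.sqrt (η n) * (r n * P j))).trans
        (hmom n)
      have h2 : an (2 * h n + 1) (σ n * Real.sqrt (η n) * (r n * P j)) -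
          σ n * Real.sqrt (η n) * r n * P j =
          an (2 * h n + 1) (σ n * Real.sqrt (η n) * (r n * P j)) -
          σ n * Real.sqrt (η n) * (r n * P j) := by ring
      rw [h2]
      refine h1.trans ?_
      have h3 : 0 < 1 / ((n : ℝ) + 1) := by positivity
      calc σ n * Real.sqrt (η n) * (r n ^ 2 * (1 / ((n : ℝ) + 1))) ≤
            σ n * Real.sqrt (η n) * (r n * (1 / ((n : ℝ) + 1))) :=
          mul_le_mul_of_nonneg_left (mul_le_mul_of_nonneg_right (hrsq n) h3.le) (ht00 n).le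
        _ = _ := by ring)
  set p : (n : ℕ) → T 2 (2 * h n + 1) := fun n =>
    pm (2 * h n + 1) (fun j => σ n * Real.sqrt (η n) * (r n * P j)) with hp
  have hq1 : ∀ j, Tendsto (fun n => si (p n j) ^ 2 / (σ n ^ 2 * (z n).im * r n ^ 2)) atTop
      (𝓝 (P j ^ 2)) := by
    intro j
    refine (hmo j).1.congr fun n => ?_
    simp only [hp]
    rw [si_pm, htsq]
  have hq2 : Tendsto (fun n => pp (p n) / (σ n ^ 2 * (z n).im * r n ^ 2)) atTop
      (𝓝 (∑ j, P j ^ 2)) := by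
    have h1 := tendsto_finsetSum (Finset.univ : Finset (Fin 2)) fun j _ => (hmo j).2
    refine h1.congr fun n => ?_
    simp only [hp]
    rw [pp_pm, htsq, Finset.sum_div]
  have hLH : LH (d := 2) (fun n => 2 * h n + 1) z σ τ m p (g2 E) (h2 E).im (100 * c ^ 3)
      (fun _ => 0) :=
    { md := hMD
      σ0 := hσ0
      σl := hσl
      xl := hxl
      yl := hyl
      ml := hml
      gi := hg
      Ql := hQl
      H0 := hh0
      τl := fun n => (hS n).τσ
      p1 := by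
        intro j
        have h1 := (hq1 j).mul (hrl.pow 2)
        have e0 : P j ^ 2 * 0 ^ 2 = 0 ^ 2 := by norm_num
        rw [e0] at h1
        refine h1.congr fun n => ?_
        have := hr0 n
        have := hσ0 n
        have := hη0 n
        rw [hzim]
        field_simp
      p2 := by
        have h1 := hq2.mul (hrl.pow 2)
        have e0 : (∑ j, P j ^ 2) * 0 ^ 2 = ∑ _j : Fin 2, (0 : ℝ) ^ 2 := by simp
        rw [e0] at h1
        refine h1.congr fun n => ?_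
        have := hr0 n
        have := hσ0 n
        have := hη0 n
        rw [hzim]
        field_simp }
  have hLR : LR (d := 2) (fun n => 2 * h n + 1) z σ τ m p (g2 E) (h2 E).im (100 * c ^ 3)
      P r :=
    { lh := hLH
      r0 := hr0
      rr := hrl
      q1 := hq1
      q2 := hq2 }
  -- the fourth moment
  have hN4 : ∀ n, N4 2 (2 * h n + 1) (z n) (σ n) (m n) ≤
      C5 * (1 + Real.log (1 / (z n).im)) ^ 3 := by
    intro n
    have h1 := hn5 n _ (hwR n) (hwim n)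
    have h2' : N4 2 (2 * h n + 1) (z n) (σ n) (m n) =
        ∑ x : T 2 (2 * h n + 1), ‖kc (rv (z n + (σ n : ℂ) ^ 2 * m n)) x‖ ^ 4 := by
      unfold N4 rv
      rw [Mh_w]
    rw [h2']
    refine h1.trans ?_
    rw [hzim]
    have hw0 : 0 < (z n + (σ n : ℂ) ^ 2 * m n).im := (hwR n).1
    have hw1 : (z n + (σ n : ℂ) ^ 2 * m n).im ≤ 1 := (hwR n).2.1.trans hrb1
    have h3 : 0 ≤ Real.log (1 / (z n + (σ n : ℂ) ^ 2 * m n).im) := Real.log_nonneg (by
      rw [le_div_iff₀ hw0]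
      linarith)
    have h4 : Real.log (1 / (z n + (σ n : ℂ) ^ 2 * m n).im) ≤ Real.log (1 / η n) :=
      Real.log_le_log (by positivity) (one_div_le_one_div_of_le (hη0 n) (hwim n))
    refine mul_le_mul_of_nonneg_left ?_ hC50
    calc (1 + Real.log (1 / (z n + (σ n : ℂ) ^ 2 * m n).im)) ^ 2 ≤
          (1 + Real.log (1 / η n)) ^ 2 := pow_le_pow_left₀ (by linarith) (by linarith) 2
      _ ≤ (1 + Real.log (1 / η n)) ^ 3 := pow_le_pow_right₀ (by linarith) (by norm_num)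
  have hfin := seq_diff hLR (by positivity) μ hh hS κ hκ0 hκ1
    (fun n => by rw [hzim]; exact hηκ n) (fun n => rfl) C5 hC50 hN4
    (fun n => uu (z n) (σ n)) (fun n x => uu_meas (z n) (σ n) x)
    (fun n V x => uu_eq (z n) (by rw [hzim]; exact hη0 n) (σ n) V x)
  -- conclusion
  have htg : Tendsto (fun n => ((tq2 (En n) P : ℝ) : ℂ)) atTop (𝓝 ((tq2 E P : ℝ) : ℂ)) :=
    (Complex.continuous_ofReal.tendsto _).comp (tq2_lim hO E hEm P En (fun n => ⟨hEa0 (φ n), hEb0 (φ n)⟩) hEl)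
  have h7 := (Metric.tendsto_nhds.1 hfin) (ε / 4) (by positivity)
  have h7' := (Metric.tendsto_nhds.1 htg) (ε / 4) (by positivity)
  have h8 := hinv.eventually_lt_const (show 0 < ε / 4 by positivity)
  obtain ⟨n, h9, h9', h10⟩ := (h7.and (h7'.and h8)).exists
  have h11 := herr0 (φ n)
  have h12 := htr n
  have h12' := htr0 n
  rw [dist_eq_norm, hzim] at h9
  rw [dist_eq_norm, norm_sub_rev] at h9'
  have hr2 : 0 < r n ^ 2 := by have := hr0 n; positivity
  -- abbreviations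
  have h9a : ‖((η n : ℂ) * ∑ x : T 2 (2 * h n + 1), e (0 : T 2 (2 * h n + 1)) x *
        ((∫ V, ‖uu (z n) (σ n) V x‖ ^ 2 ∂(PL (T 2 (2 * h n + 1)) (μ n)) : ℝ) : ℂ) -
        (η n : ℂ) * ∑ x : T 2 (2 * h n + 1), e (p n) x *
        ((∫ V, ‖uu (z n) (σ n) V x‖ ^ 2 ∂(PL (T 2 (2 * h n + 1)) (μ n)) : ℝ) : ℂ)) /
        ((r n ^ 2 : ℝ) : ℂ) - ((tq2 E P : ℝ) : ℂ)‖ < ε / 4 := h9
  have h16 : ε < ‖((η n : ℂ) * ∑' y : Zd 2, ((∫ ω, ‖G n ω y‖ ^ 2 ∂(PZ 2 (μ n)) : ℝ) : ℂ) -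
        (η n : ℂ) * ∑' y : Zd 2, Complex.exp (((∑ j, σ n * Real.sqrt (η n) * (r n * P j) * y j :
      ℝ) : ℂ) * Complex.I) * ((∫ ω, ‖G n ω y‖ ^ 2 ∂(PZ 2 (μ n)) : ℝ) : ℂ)) /
        ((r n ^ 2 : ℝ) : ℂ) - ((tq2 (En n) P : ℝ) : ℂ)‖ := h11
  have gen : ∀ (A A' D D' t t' ρ : ℂ) (x : ℝ), 0 < x → ‖ρ‖ = x → ‖A' - A‖ ≤ x * (1 / ((n : ℝ) + 1)) →
      ‖D' - D‖ ≤ x * (1 / ((n : ℝ) + 1)) → ‖(A' - D') / ρ - t‖ < ε / 4 → ‖t - t'‖ < ε / 4 →
      ‖(A - D) / ρ - t'‖ ≤ ε := by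
    intro A A' D D' t t' ρ x hx hρ hA hD h1 h2
    have hρ0 : ρ ≠ 0 := by
      intro h0
      rw [h0, norm_zero] at hρ
      linarith
    have e1 : (A - D) / ρ - t' = ((A' - D') / ρ - t) + (t - t') +
        (-(A' - A) / ρ + (D' - D) / ρ) := by
      field_simp
      ring
    rw [e1]
    refine (norm_add_le _ _).trans ?_
    have h3 := norm_add_le ((A' - D') / ρ - t) (t - t')
    have h4 := norm_add_le (-(A' - A) / ρ) ((D' - D) / ρ)
    have h5 : ‖-(A' - A) / ρ‖ ≤ 1 / ((n : ℝ) + 1) := by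
      rw [norm_div, norm_neg, hρ, div_le_iff₀ hx, mul_comm]
      exact hA
    have h6 : ‖(D' - D) / ρ‖ ≤ 1 / ((n : ℝ) + 1) := by
      rw [norm_div, hρ, div_le_iff₀ hx, mul_comm]
      exact hD
    linarith
  have hfin2 := gen _ _ _ _ _ _ ((r n ^ 2 : ℝ) : ℂ) (r n ^ 2) hr2
    (by rw [Complex.norm_real, Real.norm_eq_abs, abs_of_pos hr2]) h12' h12 h9a h9'
  linarith


end Pool.Agent.Zk71.D2
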