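import Pool.Agent.Zk71.D2.Bw
import Pool.Agent.Zk71.DR.FinD

/-! Global boundary value functions in two dimensions and the limiting profiles. -/

set_option autoImplicit false
set_option linter.unusedSectionVars false

open scoped BigOperators Topology ENNReal
open MeasureTheory Filter Set

namespace Pool.Agent.Zk71.D2

open Pool.Agent.Zk11.QD Pool.Agent.Zk71.DR
open Pool.Agent.W788.MFP.Four (T e NN adj adj_neg e_comm e_add_left e_add e_zero e_neg e_neg_left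
  e_normSq sum_e NN_pos card_T e_single)

/-- the boundary value of the free Green function at the origin -/
noncomputable def g2 (E : ℝ) : ℂ :=
  if E < 4 then bg (E : ℂ) else -(starRingEnd ℂ) (bg ((8 - E : ℝ) : ℂ))

/-- the boundary value of the velocity weighted resolvent -/
noncomputable def h2 (E : ℝ) : ℂ :=
  if E < 4 then bh (E : ℂ) else -(starRingEnd ℂ) (bh ((8 - E : ℝ) : ℂ))

/-- a compact interval of energies away from the thresholds `0, 4, 8` -/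
def Ok (E1 E2 : ℝ) : Prop := (0 < E1 ∧ E2 < 4) ∨ (4 < E1 ∧ E2 < 8)

theorem BV.congr {E1 E2 : ℝ} {g h g' h' : ℝ → ℂ} {r C : ℝ} (hb : BV E1 E2 g h r C)
    (hg : ∀ E ∈ Icc E1 E2, g' E = g E) (hh : ∀ E ∈ Icc E1 E2, h' E = h E) :
    BV E1 E2 g' h' r C := by
  refine ⟨hb.r0, hb.r1, hb.C0, hb.bd, fun E hE => ?_, fun E hE => ?_, ?_, ?_, hb.pd⟩
  · rw [hg E hE]; exact hb.lg E hE
  · rw [hh E hE]; exact hb.lh E hE
  · exact hb.cg.congr hg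
  · exact hb.ch.congr hh

theorem bv2 (E1 E2 : ℝ) (h12 : E1 ≤ E2) (hO : Ok E1 E2) : ∃ r C : ℝ, BV E1 E2 g2 h2 r C := by
  rcases hO with ⟨h1, h2'⟩ | ⟨h1, h2'⟩
  · obtain ⟨r, C, hb⟩ := bv_low E1 E2 h1 h12 h2'
    refine ⟨r, C, hb.congr (fun E hE => ?_) (fun E hE => ?_)⟩
    · exact if_pos (lt_of_le_of_lt hE.2 h2')
    · exact if_pos (lt_of_le_of_lt hE.2 h2')
  · obtain ⟨r, C, hb⟩ := bv_low (8 - E2) (8 - E1) (by linarith) (by linarith) (by linarith)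
    have hb' := hb.refl
    have e1 : 8 - (8 - E1) = E1 := by ring
    have e2 : 8 - (8 - E2) = E2 := by ring
    rw [e1, e2] at hb'
    refine ⟨r, C, hb'.congr (fun E hE => ?_) (fun E hE => ?_)⟩
    · exact if_neg (not_lt.2 (h1.le.trans hE.1))
    · exact if_neg (not_lt.2 (h1.le.trans hE.1))

theorem Ok.pos {E1 E2 : ℝ} (h : Ok E1 E2) : 0 < E1 := by
  rcases h with ⟨h1, -⟩ | ⟨h1, -⟩ <;> linarith

theorem Ok.lt8 {E1 E2 : ℝ} (h : Ok E1 E2) : E2 < 8 := by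
  rcases h with ⟨-, h1⟩ | ⟨-, h1⟩ <;> linarith

theorem Ok.pt {E1 E2 : ℝ} (h : Ok E1 E2) (E : ℝ) (h1 : E1 ≤ E) (h2 : E ≤ E2) : Ok E E := by
  rcases h with ⟨h3, h4⟩ | ⟨h3, h4⟩
  · exact Or.inl ⟨by linarith, by linarith⟩
  · exact Or.inr ⟨by linarith, by linarith⟩

theorem g2_pos (E : ℝ) (h : Ok E E) : 0 < (g2 E).im := by
  obtain ⟨r, C, hb⟩ := bv2 E E le_rfl h
  exact hb.g_pos E ⟨le_rfl, le_rfl⟩ h.pos h.lt8

theorem h2_pos (E : ℝ) (h : Ok E E) : 0 < (h2 E).im := by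
  obtain ⟨r, C, hb⟩ := bv2 E E le_rfl h
  exact hb.h_pos E ⟨le_rfl, le_rfl⟩ h.pos h.lt8

theorem g2_po (E : ℝ) (h : Ok E E) :
    Tendsto (fun δ : ℝ => ∫ k in cube 2, po δ (ek k - E)) (𝓝[>] 0) (𝓝 (g2 E).im) := by
  obtain ⟨r, C, hb⟩ := bv2 E E le_rfl h
  exact hb.g_po E ⟨le_rfl, le_rfl⟩

theorem h2_po (i0 : Fin 2) (E : ℝ) (h : Ok E E) :
    Tendsto (fun δ : ℝ => ∫ k in cube 2, 4 * Real.sin (2 * Real.pi * k i0) ^ 2 * po δ (ek k - E))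
      (𝓝[>] 0) (𝓝 (h2 E).im) := by
  obtain ⟨r, C, hb⟩ := bv2 E E le_rfl h
  exact hb.h_po i0 E ⟨le_rfl, le_rfl⟩

/-- the limiting profile -/
noncomputable def tg2 (E : ℝ) (P : Fin 2 → ℝ) : ℝ :=
  (g2 E).im / (1 + (h2 E).im / (4 * (g2 E).im ^ 2) * ∑ j, P j ^ 2)

/-- the limit of the differences -/
noncomputable def tq2 (E : ℝ) (P : Fin 2 → ℝ) : ℝ :=
  (h2 E).im / (4 * (g2 E).im) * ∑ j, P j ^ 2

theorem cont_lim {E1 E2 : ℝ} {f : ℝ → ℂ} (hf : ContinuousOn f (Icc E1 E2)) (E : ℝ)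
    (hE : E ∈ Icc E1 E2) (En : ℕ → ℝ) (hn : ∀ n, En n ∈ Icc E1 E2)
    (hl : Tendsto En atTop (𝓝 E)) : Tendsto (fun n => (f (En n)).im) atTop (𝓝 (f E).im) := by
  have h1 : Tendsto En atTop (𝓝[Icc E1 E2] E) :=
    tendsto_nhdsWithin_iff.2 ⟨hl, Eventually.of_forall hn⟩
  exact (Complex.continuous_im.tendsto _).comp ((hf E hE).tendsto.comp h1)

theorem tg2_lim {E1 E2 : ℝ} (hO : Ok E1 E2) (E : ℝ) (hE : E ∈ Icc E1 E2) (P : Fin 2 → ℝ)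
    (En : ℕ → ℝ) (Pn : ℕ → Fin 2 → ℝ) (hn : ∀ n, En n ∈ Icc E1 E2)
    (hl : Tendsto En atTop (𝓝 E)) (hP : Tendsto Pn atTop (𝓝 P)) :
    Tendsto (fun n => tg2 (En n) (Pn n)) atTop (𝓝 (tg2 E P)) := by
  obtain ⟨r, C, hb⟩ := bv2 E1 E2 (hE.1.trans hE.2) hO
  have hg := g2_pos E (hO.pt E hE.1 hE.2)
  have hh := h2_pos E (hO.pt E hE.1 hE.2)
  unfold tg2
  have h1 := cont_lim hb.cg E hE En hn hl
  have h2' := cont_lim hb.ch E hE En hn hl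
  have h3 : Tendsto (fun n => ∑ j, Pn n j ^ 2) atTop (𝓝 (∑ j, P j ^ 2)) :=
    tendsto_finsetSum _ fun j _ => ((tendsto_pi_nhds.1 hP) j).pow 2
  have hW : 0 ≤ ∑ j, P j ^ 2 := Finset.sum_nonneg fun _ _ => by positivity
  refine h1.div (tendsto_const_nhds.add ((h2'.div ((h1.pow 2).const_mul 4) ?_).mul h3)) ?_
  · positivity
  · positivity

theorem tq2_lim {E1 E2 : ℝ} (hO : Ok E1 E2) (E : ℝ) (hE : E ∈ Icc E1 E2) (P : Fin 2 → ℝ)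
    (En : ℕ → ℝ) (hn : ∀ n, En n ∈ Icc E1 E2) (hl : Tendsto En atTop (𝓝 E)) :
    Tendsto (fun n => tq2 (En n) P) atTop (𝓝 (tq2 E P)) := by
  obtain ⟨r, C, hb⟩ := bv2 E1 E2 (hE.1.trans hE.2) hO
  have hg := g2_pos E (hO.pt E hE.1 hE.2)
  unfold tq2
  have h1 := cont_lim hb.cg E hE En hn hl
  have h2' := cont_lim hb.ch E hE En hn hl
  exact (h2'.div (h1.const_mul 4) (by positivity)).mul_const _

/-- the choice of the size of the torus -/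
theorem pick4 {E1 E2 : ℝ} {gB hB : ℝ → ℂ} {r C : ℝ} (hbv : BV E1 E2 gB hB r C) (C4 : ℝ)
    (hC4 : ∀ η : ℝ, 0 < η → ∀ᶠ L : ℕ in atTop, ∀ w ∈ Rg E1 E2 r,
      η ≤ w.im → ∑ x : T 2 (2 * L + 1), ‖kc (rv w) x‖ ^ 4 ≤
        C4 * (1 + Real.log (1 / w.im)) ^ 2) (σ η E θ0 : ℝ) (hσ : 0 < σ) (hη : 0 < η)
    (hθ0 : 0 < θ0)
    (μ : Measure ℝ) [IsProbabilityMeasure μ] (P : Fin 2 → ℝ)
    (G : (Zd 2 → ℝ) → Zd 2 → ℂ) (hG : ∀ᵐ ω ∂(PZ 2 μ), IsG σ ω ((E : ℂ) + η * Complex.I) (G ω)) :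
    ∃ h : ℕ, (∀ w : ℂ, η ≤ w.im → ‖Lap (GaL 2 (2 * h + 1)) w - Lap (GG 2) w‖ ≤ θ0 ∧
      ‖Lap (HaL 2 (2 * h + 1)) w - Lap (HH 2) w‖ ≤ θ0) ∧
      (∀ w ∈ Rg E1 E2 r, η ≤ w.im → ∑ x : T 2 (2 * h + 1), ‖kc (rv w) x‖ ^ 4 ≤
        C4 * (1 + Real.log (1 / w.im)) ^ 2) ∧
      2 * Real.pi / ((2 * h + 1 : ℕ) : ℝ) ≤ σ * Real.sqrt η * θ0 ∧
      ‖(η : ℂ) * ∑ x : T 2 (2 * h + 1), e (pm (2 * h + 1) fun j => σ * Real.sqrt η * P j) x *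
        ((∫ V, ‖uu ((E : ℂ) + η * Complex.I) σ V x‖ ^ 2 ∂(PL (T 2 (2 * h + 1)) μ) : ℝ) : ℂ) -
        (η : ℂ) * ∑' y : Zd 2, Complex.exp (((∑ j, σ * Real.sqrt η * P j * y j : ℝ) : ℂ) *
          Complex.I) * ((∫ ω, ‖G ω y‖ ^ 2 ∂(PZ 2 μ) : ℝ) : ℂ)‖ ≤ θ0 ∧
      ‖(η : ℂ) * ∑ x : T 2 (2 * h + 1), e (0 : T 2 (2 * h + 1)) x *
        ((∫ V, ‖uu ((E : ℂ) + η * Complex.I) σ V x‖ ^ 2 ∂(PL (T 2 (2 * h + 1)) μ) : ℝ) : ℂ) -
        (η : ℂ) * ∑' y : Zd 2, ((∫ ω, ‖G ω y‖ ^ 2 ∂(PZ 2 μ) : ℝ) : ℂ)‖ ≤ θ0 := by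
  have hz : 0 < ((E : ℂ) + η * Complex.I).im := by simpa using hη
  have h1 := lap_odd (d := 2) η hη θ0 hθ0
  have h2' := hC4 η hη
  have h4 := odd_top.eventually_ge_atTop (2 * Real.pi / (σ * Real.sqrt η * θ0))
  have h5 := ((transfer μ σ _ hz G hG (fun j => σ * Real.sqrt η * P j)).const_mul (η : ℂ))
  have h6 := (Metric.tendsto_nhds.1 h5) θ0 hθ0
  have h7 := ((transfer μ σ _ hz G hG (fun _ => 0)).const_mul (η : ℂ))
  simp only [pm_zero, zero_mul, Finset.sum_const_zero, Complex.ofReal_zero, Complex.exp_zero,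
    one_mul] at h7
  have h8 := (Metric.tendsto_nhds.1 h7) θ0 hθ0
  obtain ⟨h, g1, g2, g4, g6, g8⟩ :=
    (h1.and (h2'.and (h4.and (h6.and h8)))).exists
  refine ⟨h, g1, g2, ?_, ?_, ?_⟩
  · have hs : 0 < σ * Real.sqrt η * θ0 := by
      have := Real.sqrt_pos.2 hη
      positivity
    have hL : (0 : ℝ) < ((2 * h + 1 : ℕ) : ℝ) := by
      exact_mod_cast (by omega : 0 < 2 * h + 1)
    rw [div_le_iff₀ hs] at g4
    rw [div_le_iff₀ hL, mul_comm (σ * Real.sqrt η * θ0)]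
    exact g4
  · rw [dist_eq_norm] at g6
    exact g6.le
  · rw [dist_eq_norm] at g8
    exact g8.le

/-- the a priori bound -/
theorem m_apriori {d L : ℕ} [NeZero L] {z : ℂ} {σ : ℝ} {m : ℂ} (h : MD d L z σ m) (hσ : 0 < σ) :
    ‖m‖ ≤ 1 / σ := by
  have hs := ss_pos h
  have h1 := sq_sum h
  have h2' := parseval_sq (Mh z σ m : T d L → ℂ)
  rw [h1] at h2'
  have h3 := Finset.single_le_sum (f := fun x : T d L => ‖kc (Mh z σ m) x‖ ^ 2)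
    (fun _ _ => by positivity) (Finset.mem_univ 0)
  rw [h2'] at h3
  have h4 : kc (Mh z σ m) (0 : T d L) = m := by
    have := Mk_diag h 0
    unfold Mk at this
    rwa [sub_self] at this
  simp only [h4] at h3
  have h5 : m.im / ss z σ m ≤ (1 / σ) ^ 2 := by
    rw [div_le_iff₀ hs]
    unfold ss
    have e1 : (1 / σ) ^ 2 * (z.im + σ ^ 2 * m.im) = (1 / σ) ^ 2 * z.im + m.im := by
      field_simp
    rw [e1]
    have := h.zim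
    have : 0 ≤ (1 / σ) ^ 2 * z.im := by positivity
    linarith
  exact le_of_sq_le_sq (h3.trans h5) (by positivity)

end Pool.Agent.Zk71.D2
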