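import Pool.Agent.Zk71.D2.Curve
import Pool.Agent.Zk11.QD.Zp

/-! The free Green function in two dimensions. -/

set_option autoImplicit false
set_option linter.unusedSectionVars false

open scoped BigOperators Topology
open MeasureTheory Filter Set

namespace Pool.Agent.Zk71.D2

open Pool.Agent.Zk11.QD

/-- the exponential -/
noncomputable def em (m : ℤ) (k : ℝ) : ℂ := Complex.exp (Complex.I * ((m * k : ℝ) : ℂ))

theorem em_cont (m : ℤ) : Continuous (em m) := by
  unfold em
  fun_prop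

theorem em_norm (m : ℤ) (k : ℝ) : ‖em m k‖ = 1 := by
  unfold em
  rw [mul_comm, Complex.norm_exp_ofReal_mul_I]

theorem em_add (m : ℤ) (k : ℝ) : em (m + 1) k + em (m - 1) k = 2 * Real.cos k * em m k := by
  unfold em
  have h1 : Complex.I * (((m + 1 : ℤ) * k : ℝ) : ℂ) = Complex.I * ((m * k : ℝ) : ℂ) +
      (k : ℂ) * Complex.I := by push_cast; ring
  have h2 : Complex.I * (((m - 1 : ℤ) * k : ℝ) : ℂ) = Complex.I * ((m * k : ℝ) : ℂ) +
      -(k : ℂ) * Complex.I := by push_cast; ring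
  rw [h1, h2, Complex.exp_add, Complex.exp_add, ← mul_add, Complex.ofReal_cos, Complex.two_cos]
  ring

theorem em_int (m : ℤ) : (1 / (2 * Real.pi) : ℝ) * ∫ k in (-Real.pi)..Real.pi, em m k =
    if m = 0 then (1 : ℂ) else 0 := by
  have hpi := Real.pi_pos
  by_cases hm : m = 0
  · rw [if_pos hm, hm]
    unfold em
    simp
    have : (Real.pi : ℂ) ≠ 0 := by exact_mod_cast hpi.ne'
    field_simp
    ring
  · rw [if_neg hm]
    have hc : Complex.I * (m : ℂ) ≠ 0 := mul_ne_zero Complex.I_ne_zero (by exact_mod_cast hm)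
    have h1 : ∀ k : ℝ, em m k = Complex.exp (Complex.I * (m : ℂ) * k) := by
      intro k
      unfold em
      congr 1
      push_cast
      ring
    simp only [h1]
    rw [integral_exp_mul_complex hc]
    have h2 : Complex.exp (Complex.I * (m : ℂ) * (Real.pi : ℝ)) =
        Complex.exp (Complex.I * (m : ℂ) * ((-Real.pi : ℝ) : ℂ)) := by
      have h3 : Complex.I * (m : ℂ) * (Real.pi : ℝ) =
          Complex.I * (m : ℂ) * ((-Real.pi : ℝ) : ℂ) + (m : ℂ) * (2 * Real.pi * Complex.I) := by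
        push_cast
        ring
      rw [h3]
      exact Complex.exp_periodic.int_mul m _
    rw [h2]
    simp

section
variable {w : ℂ} (hw : 0 < w.im)

/-- the one-dimensional kernel -/
noncomputable def gk (w : ℂ) (n : ℕ) (k : ℝ) : ℂ := ze w k ^ n * (Complex.I / (2 * SS w k))

/-- the free Green function -/
noncomputable def Gc (w : ℂ) (m : ℤ) (n : ℕ) : ℂ :=
  (1 / (2 * Real.pi) : ℝ) * ∫ k in (-Real.pi)..Real.pi, em m k * gk w n k

noncomputable def Gf (w : ℂ) (x : Zd 2) : ℂ := Gc w (x 0) (x 1).natAbs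

include hw

theorem gk_cont (n : ℕ) : Continuous (gk w n) := by
  unfold gk
  have h1 := ze_cont hw
  have h2 := SS_cont hw
  exact (h1.pow n).mul (continuous_const.div (continuous_const.mul h2) fun k =>
    mul_ne_zero two_ne_zero (SS_ne hw k))

theorem ik_int (m : ℤ) (n : ℕ) : IntervalIntegrable (fun k => em m k * gk w n k) volume
    (-Real.pi) Real.pi := ((em_cont m).mul (gk_cont hw n)).intervalIntegrable _ _

theorem gk_rec (n : ℕ) (k : ℝ) :
    (4 - w - 2 * Real.cos k) * gk w (n + 1) k - gk w (n + 2) k - gk w n k = 0 := by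
  unfold gk
  have h1 := ze_quad hw k
  have hmu : 4 - w - 2 * (Real.cos k : ℂ) = 2 * CC w k := by unfold CC; ring
  rw [hmu]
  linear_combination (-(ze w k ^ n * (Complex.I / (2 * SS w k)))) * h1

theorem gk_zero (k : ℝ) :
    (4 - w - 2 * Real.cos k) * gk w 0 k - gk w 1 k - gk w 1 k = 1 := by
  unfold gk
  have hmu : 4 - w - 2 * (Real.cos k : ℂ) = 2 * CC w k := by unfold CC; ring
  have hS := SS_ne hw k
  rw [hmu]
  unfold ze
  have h2 := Complex.I_sq
  field_simp
  linear_combination (-2 * (SS w k)) * h2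

theorem Gc_comb (m : ℤ) (n n' n'' : ℕ) :
    (4 - w) * Gc w m n - Gc w (m + 1) n - Gc w (m - 1) n - Gc w m n' - Gc w m n'' =
    (1 / (2 * Real.pi) : ℝ) * ∫ k in (-Real.pi)..Real.pi, em m k *
      ((4 - w - 2 * Real.cos k) * gk w n k - gk w n' k - gk w n'' k) := by
  unfold Gc
  have h0 := ik_int hw m n
  have h1 := ik_int hw (m + 1) n
  have h2 := ik_int hw (m - 1) n
  have h3 := ik_int hw m n'
  have h4 := ik_int hw m n''
  have e1 : ∀ k : ℝ, em m k * ((4 - w - 2 * Real.cos k) * gk w n k - gk w n' k - gk w n'' k) =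
      (((4 - w) * (em m k * gk w n k) - em (m + 1) k * gk w n k) - em (m - 1) k * gk w n k -
        em m k * gk w n' k) - em m k * gk w n'' k := by
    intro k
    have h5 := em_add m k
    linear_combination (gk w n k) * h5
  simp only [e1]
  rw [intervalIntegral.integral_sub (((h0.const_mul _).sub h1).sub h2 |>.sub h3) h4,
    intervalIntegral.integral_sub (((h0.const_mul _).sub h1).sub h2) h3,
    intervalIntegral.integral_sub ((h0.const_mul _).sub h1) h2,
    intervalIntegral.integral_sub (h0.const_mul _) h1, intervalIntegral.integral_const_mul]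
  ring

theorem Gf_eq (ω : Zd 2 → ℝ) (x : Zd 2) :
    HZ 0 ω (Gf w) x - w * Gf w x = if x = 0 then 1 else 0 := by
  have key : HZ 0 ω (Gf w) x - w * Gf w x = (4 - w) * Gc w (x 0) (x 1).natAbs -
      Gc w (x 0 + 1) (x 1).natAbs - Gc w (x 0 - 1) (x 1).natAbs -
      Gc w (x 0) (x 1 + 1).natAbs - Gc w (x 0) (x 1 - 1).natAbs := by
    unfold HZ Gf
    rw [Fin.sum_univ_two]
    simp only [Pi.add_apply, Pi.sub_apply, Pi.single_eq_same, zero_mul, Complex.ofReal_zero]
    have a1 : (Pi.single (0 : Fin 2) (1 : ℤ) : Fin 2 → ℤ) 1 = 0 := by simp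
    have a2 : (Pi.single (1 : Fin 2) (1 : ℤ) : Fin 2 → ℤ) 0 = 0 := by simp
    rw [a1, a2]
    simp only [add_zero, sub_zero]
    ring
  rw [key, Gc_comb hw]
  have hx0 : x = 0 ↔ x 0 = 0 ∧ x 1 = 0 := by
    constructor
    · intro h
      rw [h]
      simp
    · rintro ⟨h1, h2⟩
      funext i
      fin_cases i
      · exact h1
      · exact h2
  by_cases h1 : x 1 = 0
  · have e0 : (x 1).natAbs = 0 := by rw [h1]; rfl
    have e1 : (x 1 + 1).natAbs = 1 := by rw [h1]; rfl
    have e2 : (x 1 - 1).natAbs = 1 := by rw [h1]; rfl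
    rw [e0, e1, e2]
    simp only [gk_zero hw, mul_one]
    rw [em_int]
    simp only [hx0, h1, and_true]
  · have hx : ¬ (x = 0) := fun h => h1 (hx0.1 h).2
    rw [if_neg hx]
    obtain ⟨n, hn⟩ : ∃ n : ℕ, (x 1).natAbs = n + 1 :=
      Nat.exists_eq_succ_of_ne_zero (Int.natAbs_ne_zero.2 h1)
    rw [hn]
    have hcase : ((x 1 + 1).natAbs = n + 2 ∧ (x 1 - 1).natAbs = n) ∨
        ((x 1 + 1).natAbs = n ∧ (x 1 - 1).natAbs = n + 2) := by omega
    rcases hcase with ⟨h2, h3⟩ | ⟨h2, h3⟩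
    · rw [h2, h3]
      simp only [gk_rec hw, mul_zero, intervalIntegral.integral_zero]
    · rw [h2, h3]
      have : ∀ k : ℝ, (4 - w - 2 * Real.cos k) * gk w (n + 1) k - gk w n k - gk w (n + 2) k = 0 := by
        intro k
        have := gk_rec hw n k
        linear_combination this
      simp only [this, mul_zero, intervalIntegral.integral_zero]

theorem Gc_fourier (m : ℤ) (n : ℕ) :
    Gc w m n = fourierCoeffOn (a := -Real.pi) (b := Real.pi) (by have := Real.pi_pos; linarith)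
      (gk w n) (-m) := by
  rw [fourierCoeffOn_eq_integral]
  unfold Gc
  have hpi := Real.pi_pos
  have e1 : (1 / (Real.pi - -Real.pi) : ℝ) = 1 / (2 * Real.pi) := by ring
  rw [e1, Complex.real_smul]
  congr 1
  refine intervalIntegral.integral_congr fun k _ => ?_
  simp only [neg_neg]
  rw [fourier_coe_apply, smul_eq_mul]
  congr 1
  unfold em
  congr 1
  have : ((Real.pi - -Real.pi : ℝ) : ℂ) = 2 * Real.pi := by push_cast; ring
  rw [this]
  have hpc : (Real.pi : ℂ) ≠ 0 := by exact_mod_cast hpi.ne'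
  push_cast
  field_simp

theorem gk_bound : ∃ ρ M : ℝ, 0 ≤ ρ ∧ ρ < 1 ∧ 0 ≤ M ∧ ∀ (n : ℕ), ∀ k ∈ Icc (-Real.pi) Real.pi,
    ‖gk w n k‖ ≤ M * ρ ^ n := by
  have hpi := Real.pi_pos
  have hne : (Icc (-Real.pi) Real.pi).Nonempty := ⟨0, by constructor <;> linarith⟩
  obtain ⟨k0, hk0, h1⟩ := isCompact_Icc.exists_isMaxOn hne (ze_cont hw).norm.continuousOn
  have hcS : Continuous fun k => Complex.I / (2 * SS w k) :=
    continuous_const.div (continuous_const.mul (SS_cont hw)) fun k =>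
      mul_ne_zero two_ne_zero (SS_ne hw k)
  obtain ⟨k1, hk1, h2⟩ := isCompact_Icc.exists_isMaxOn hne hcS.norm.continuousOn
  refine ⟨‖ze w k0‖, ‖Complex.I / (2 * SS w k1)‖, norm_nonneg _, ze_lt hw k0, norm_nonneg _, ?_⟩
  intro n k hk
  unfold gk
  rw [norm_mul, norm_pow, mul_comm]
  exact mul_le_mul (h2 hk) (pow_le_pow_left₀ (norm_nonneg _) (h1 hk) n) (by positivity)
    (norm_nonneg _)

theorem Gf_sq : Summable fun x : Zd 2 => ‖Gf w x‖ ^ 2 := by
  have hpi := Real.pi_pos
  obtain ⟨ρ, M, hρ0, hρ1, hM, hb⟩ := gk_bound hw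
  have hab : (-Real.pi) < Real.pi := by linarith
  have hL2 : ∀ n : ℕ, MemLp (gk w n) 2 (volume.restrict (Ioc (-Real.pi) Real.pi)) := by
    intro n
    refine MemLp.of_bound (gk_cont hw n).aestronglyMeasurable (M * ρ ^ n) ?_
    filter_upwards [ae_restrict_mem measurableSet_Ioc] with k hk
    exact hb n k ⟨hk.1.le, hk.2⟩
  have hS : ∀ n : ℕ, HasSum (fun m : ℤ => ‖Gc w m n‖ ^ 2)
      ((Real.pi - -Real.pi)⁻¹ • ∫ k in (-Real.pi)..Real.pi, ‖gk w n k‖ ^ 2) := by
    intro n
    have h1 := hasSum_sq_fourierCoeffOn hab (hL2 n)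
    have h2 := (Equiv.neg ℤ).hasSum_iff.2 h1
    refine h2.congr_fun ?_ |> fun h => h
    intro m
    simp only [Function.comp_apply, Equiv.neg_apply]
    rw [Gc_fourier hw]
  have hval : ∀ n : ℕ, ∑' m : ℤ, ‖Gc w m n‖ ^ 2 ≤ M ^ 2 * (ρ ^ 2) ^ n := by
    intro n
    rw [(hS n).tsum_eq, smul_eq_mul]
    have hci : IntervalIntegrable (fun k => ‖gk w n k‖ ^ 2) volume (-Real.pi) Real.pi :=
      ((gk_cont hw n).norm.pow 2).intervalIntegrable _ _
    have h1 : ∫ k in (-Real.pi)..Real.pi, ‖gk w n k‖ ^ 2 ≤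
        ∫ _k in (-Real.pi)..Real.pi, (M * ρ ^ n) ^ 2 := by
      refine intervalIntegral.integral_mono_on hab.le hci intervalIntegrable_const ?_
      intro k hk
      exact pow_le_pow_left₀ (norm_nonneg _) (hb n k hk) 2
    rw [intervalIntegral.integral_const, smul_eq_mul] at h1
    have h2 : 0 < Real.pi - -Real.pi := by linarith
    have h3 := mul_le_mul_of_nonneg_left h1 (inv_pos.2 h2).le
    refine h3.trans (le_of_eq ?_)
    rw [← mul_assoc, inv_mul_cancel₀ h2.ne', one_mul, mul_pow, ← pow_mul, ← pow_mul, mul_comm 2 n]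
  -- reorder
  set e : Zd 2 ≃ ℤ × ℤ := (finTwoArrowEquiv ℤ).trans (Equiv.prodComm ℤ ℤ) with he
  have h1 : (fun x : Zd 2 => ‖Gf w x‖ ^ 2) = (fun q : ℤ × ℤ => ‖Gc w q.2 q.1.natAbs‖ ^ 2) ∘ e := by
    funext x
    rfl
  rw [h1, e.summable_iff, summable_prod_of_nonneg (fun _ => by positivity)]
  refine ⟨fun a => (hS a.natAbs).summable, ?_⟩
  have hr0 : 0 ≤ ρ ^ 2 := by positivity
  have hr1 : ρ ^ 2 < 1 := by nlinarith
  refine Summable.of_nonneg_of_le (fun a => tsum_nonneg fun _ => by positivity)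
    (fun a => hval a.natAbs) ?_
  refine Summable.mul_left _ ?_
  refine Summable.of_nat_of_neg ?_ ?_
  · simpa using summable_geometric_of_lt_one hr0 hr1
  · simpa using summable_geometric_of_lt_one hr0 hr1

theorem Gf_isG (ω : Zd 2 → ℝ) : IsG 0 ω w (Gf w) := ⟨Gf_sq hw, Gf_eq hw ω⟩

end

end Pool.Agent.Zk71.D2
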