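import Pool.Agent.Zk71.D2.Bv
import Pool.Agent.Zk11.QD.Fin

/-! The boundary values of the Laplace transforms in two dimensions. -/

set_option autoImplicit false
set_option linter.unusedSectionVars false

open scoped BigOperators Topology
open MeasureTheory Filter Set

namespace Pool.Agent.Zk71.D2

open Pool.Agent.Zk11.QD Pool.Agent.Zk71.DR
open Pool.Agent.W788.MFP.Four (T e NN adj adj_neg e_comm e_add_left e_add e_zero e_neg e_neg_left
  e_normSq sum_e NN_pos card_T e_single)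

section
variable {d : ℕ}

theorem kc0 {L : ℕ} [NeZero L] (w : ℂ) (hw : 0 < w.im) :
    kc (rv w) (0 : T d L) = Lap (GaL d L) w := by
  rw [← avg_aa w hw]
  unfold kc rv
  simp only [e_zero, mul_one]

theorem kc2 {L : ℕ} [NeZero L] (w : ℂ) (hw : 0 < w.im) (i : Fin d) :
    2 * kc (rv w) (0 : T d L) - kc (rv w) (Pi.single i 1 + Pi.single i 1 : T d L) -
      kc (rv w) (-(Pi.single i 1 + Pi.single i 1) : T d L) = Lap (HaL d L) w := by
  rw [← avg_si i w hw]
  unfold kc rv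
  have h1 : ∀ k : T d L, ((4 * si (k i) ^ 2 : ℝ) : ℂ) * (((aa k : ℝ) : ℂ) - w)⁻¹ =
      2 * ((((aa k : ℝ) : ℂ) - w)⁻¹ * e k 0) -
      (((aa k : ℝ) : ℂ) - w)⁻¹ * e k (Pi.single i 1 + Pi.single i 1) -
      (((aa k : ℝ) : ℂ) - w)⁻¹ * e k (-(Pi.single i 1 + Pi.single i 1)) := by
    intro k
    rw [e_neg, e_zero, e_add, e_single, map_mul]
    have h2 : (ZMod.stdAddChar (k i) : ℂ) = (co (k i) : ℂ) + (si (k i) : ℂ) * Complex.I := by
      unfold co si
      exact (Complex.re_add_im _).symm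
    rw [h2]
    have h3 : (starRingEnd ℂ) ((co (k i) : ℂ) + (si (k i) : ℂ) * Complex.I) =
        (co (k i) : ℂ) - (si (k i) : ℂ) * Complex.I := by
      rw [map_add, map_mul, Complex.conj_ofReal, Complex.conj_ofReal, Complex.conj_I]
      ring
    rw [h3]
    have h4 : (co (k i) : ℂ) ^ 2 + (si (k i) : ℂ) ^ 2 = 1 := by
      exact_mod_cast co_si (k i)
    have h5 := Complex.I_sq
    push_cast
    linear_combination (2 * (((aa k : ℝ) : ℂ) - w)⁻¹) * h4 +
      (2 * (((aa k : ℝ) : ℂ) - w)⁻¹ * (si (k i) : ℂ) ^ 2) * h5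
  rw [Finset.sum_congr rfl fun k _ => h1 k, Finset.sum_sub_distrib, Finset.sum_sub_distrib,
    ← Finset.mul_sum]
  ring

theorem lap_t (w : ℂ) (hw : 0 < w.im) :
    Tendsto (fun h : ℕ => Lap (GaL d (2 * h + 1)) w) atTop (𝓝 (Lap (GG d) w)) ∧
    Tendsto (fun h : ℕ => Lap (HaL d (2 * h + 1)) w) atTop (𝓝 (Lap (HH d) w)) := by
  constructor
  · rw [Metric.tendsto_nhds]
    intro ε hε
    filter_upwards [lap_odd (d := d) w.im hw (ε / 2) (by positivity)] with h hh
    rw [dist_eq_norm]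
    exact lt_of_le_of_lt (hh w le_rfl).1 (by linarith)
  · rw [Metric.tendsto_nhds]
    intro ε hε
    filter_upwards [lap_odd (d := d) w.im hw (ε / 2) (by positivity)] with h hh
    rw [dist_eq_norm]
    exact lt_of_le_of_lt (hh w le_rfl).2 (by linarith)

theorem lapG (w : ℂ) (hw : 0 < w.im) (ω : Zd d → ℝ) (G : Zd d → ℂ) (hG : IsG 0 ω w G) :
    Lap (GG d) w = G 0 := by
  have h1 := pt_lim 0 ω w hw G hG 0
  simp only [uu_kc w hw, pr_zero, kc0 w hw] at h1
  exact tendsto_nhds_unique (lap_t w hw).1 h1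

theorem lapH (i : Fin d) (w : ℂ) (hw : 0 < w.im) (ω : Zd d → ℝ) (G : Zd d → ℂ)
    (hG : IsG 0 ω w G) :
    Lap (HH d) w = 2 * G 0 - G (Pi.single i 1 + Pi.single i 1) -
      G (-(Pi.single i 1 + Pi.single i 1)) := by
  have h0 := pt_lim 0 ω w hw G hG 0
  have h1 := pt_lim 0 ω w hw G hG (Pi.single i 1 + Pi.single i 1)
  have h2 := pt_lim 0 ω w hw G hG (-(Pi.single i 1 + Pi.single i 1))
  have e2 : ∀ h : ℕ, pr (2 * h + 1) (-(Pi.single i 1 + Pi.single i 1) : Zd d) =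
      -(Pi.single i 1 + Pi.single i 1) := by
    intro h
    have h3 := pr_sub (L := 2 * h + 1) (0 : Zd d) (Pi.single i 1 + Pi.single i 1)
    rw [zero_sub, pr_zero, zero_sub, pr_add, pr_single] at h3
    exact h3
  simp only [uu_kc w hw, pr_zero, pr_add, pr_single, e2] at h0 h1 h2
  have h3 := ((h0.const_mul 2).sub h1).sub h2
  simp only [kc2 w hw i] at h3
  exact tendsto_nhds_unique (lap_t w hw).2 h3

end

/-- the weight of the velocity -/
noncomputable def f4 (k : ℝ) : ℂ := ((4 * Real.sin k ^ 2 : ℝ) : ℂ)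
noncomputable def f4' (k : ℝ) : ℂ := ((8 * Real.sin k * Real.cos k : ℝ) : ℂ)

theorem f4_deriv (k : ℝ) : HasDerivAt f4 (f4' k) k := by
  have h1 := (((Real.hasDerivAt_sin k).pow 2).const_mul 4).ofReal_comp
  refine h1.congr_deriv ?_
  unfold f4'
  congr 1
  simp
  ring

theorem f4'_cont : Continuous f4' := by
  unfold f4'
  fun_prop

theorem f4_cont : Continuous f4 := by
  unfold f4
  fun_prop

/-- boundary value functions -/
noncomputable def bg (w : ℂ) : ℂ := bvf (fun _ => 1) (fun _ => 0) w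
noncomputable def bh (w : ℂ) : ℂ := bvf f4 f4' w

theorem em_zero (k : ℝ) : em 0 k = 1 := by
  unfold em
  simp

theorem lap_bg (w : ℂ) (hw : 0 < w.im) (hne : w * (4 - w) ≠ 0) : Lap (GG 2) w = bg w := by
  rw [lapG w hw (fun _ => 0) (Gf w) (Gf_isG hw _)]
  unfold bg
  rw [← bvf_eq w hw hne (fun _ => 1) (fun _ => 0) (fun k => hasDerivAt_const k 1)
    continuous_const]
  change Gc w 0 0 = _
  unfold Gc
  simp only [em_zero]

theorem f4_em (k : ℝ) : f4 k = 2 * em 0 k - em 2 k - em (-2) k := by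
  have h1 := em_add 1 k
  have h2 := em_add 0 k
  have h3 := em_add (-1) k
  have e1 : (1 : ℤ) + 1 = 2 := by norm_num
  have e2 : (1 : ℤ) - 1 = 0 := by norm_num
  have e3 : (0 : ℤ) + 1 = 1 := by norm_num
  have e4 : (0 : ℤ) - 1 = -1 := by norm_num
  have e5 : (-1 : ℤ) + 1 = 0 := by norm_num
  have e6 : (-1 : ℤ) - 1 = -2 := by norm_num
  rw [e1, e2] at h1
  rw [e3, e4] at h2
  rw [e5, e6] at h3
  rw [em_zero] at h1 h2 h3
  rw [em_zero]
  have h4 : (Real.sin k : ℂ) ^ 2 + (Real.cos k : ℂ) ^ 2 = 1 := by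
    exact_mod_cast Real.sin_sq_add_cos_sq k
  unfold f4
  push_cast
  rw [← Complex.ofReal_sin]
  linear_combination (2 * (Real.cos k : ℂ)) * h2 + h1 + h3 + 4 * h4

theorem lap_bh (w : ℂ) (hw : 0 < w.im) (hne : w * (4 - w) ≠ 0) : Lap (HH 2) w = bh w := by
  rw [lapH 0 w hw (fun _ => 0) (Gf w) (Gf_isG hw _)]
  unfold bh
  rw [← bvf_eq w hw hne f4 f4' f4_deriv f4'_cont]
  have e0 : Gf w 0 = Gc w 0 0 := rfl
  have e1 : Gf w (Pi.single 0 1 + Pi.single 0 1) = Gc w 2 0 := by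
    unfold Gf
    simp
  have e2 : Gf w (-(Pi.single 0 1 + Pi.single 0 1)) = Gc w (-2) 0 := by
    unfold Gf
    simp
  rw [e0, e1, e2]
  unfold Gc
  have h0 := ik_int hw 0 0
  have h1 := ik_int hw 2 0
  have h2 := ik_int hw (-2) 0
  have h3 : ∀ k, f4 k * gk w 0 k = (2 * (em 0 k * gk w 0 k) - em 2 k * gk w 0 k) -
      em (-2) k * gk w 0 k := by
    intro k
    rw [f4_em]
    ring
  simp only [h3]
  rw [intervalIntegral.integral_sub ((h0.const_mul 2).sub h1) h2,
    intervalIntegral.integral_sub (h0.const_mul 2) h1, intervalIntegral.integral_const_mul]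
  ring

end Pool.Agent.Zk71.D2
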