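import Pool.Agent.Zk71.D2.Pt
import Pool.Agent.Zk71.D2.Far
import Mathlib.NumberTheory.Harmonic.Bounds

/-! The fourth moment of the free Green function in two dimensions. -/

set_option autoImplicit false
set_option linter.unusedSectionVars false

open scoped BigOperators Topology
open MeasureTheory Filter Set

namespace Pool.Agent.Zk71.D2

open Pool.Agent.Zk11.QD Pool.Agent.Zk71.DR
open Pool.Agent.W788.MFP.Four (T e NN adj adj_neg e_comm e_add_left e_add e_zero e_neg e_neg_left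
  e_normSq sum_e NN_pos card_T e_single)

/-- exchange of the coordinates -/
def sw (x : Zd 2) : Zd 2 := ![x 1, x 0]

theorem sw_sw (x : Zd 2) : sw (sw x) = x := by
  funext i
  fin_cases i <;> rfl

theorem sw_inj : Function.Injective sw := fun x y h => by
  rw [← sw_sw x, h, sw_sw]

theorem sw_zero (x : Zd 2) : sw x = 0 ↔ x = 0 := by
  constructor
  · intro h
    rw [← sw_sw x, h]
    funext i
    fin_cases i <;> rfl
  · intro h
    rw [h]
    funext i
    fin_cases i <;> rfl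

theorem sw_a0 (x : Zd 2) : sw (x + Pi.single 0 1) = sw x + Pi.single 1 1 := by
  funext i
  fin_cases i <;> simp [sw]

theorem sw_a1 (x : Zd 2) : sw (x + Pi.single 1 1) = sw x + Pi.single 0 1 := by
  funext i
  fin_cases i <;> simp [sw]

theorem sw_s0 (x : Zd 2) : sw (x - Pi.single 0 1) = sw x - Pi.single 1 1 := by
  funext i
  fin_cases i <;> simp [sw]

theorem sw_s1 (x : Zd 2) : sw (x - Pi.single 1 1) = sw x - Pi.single 0 1 := by
  funext i
  fin_cases i <;> simp [sw]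

theorem swap_isG (w : ℂ) (ω : Zd 2 → ℝ) (G : Zd 2 → ℂ) (hG : IsG 0 ω w G) :
    IsG 0 ω w (fun x => G (sw x)) := by
  refine ⟨hG.sq.comp_injective sw_inj, fun x => ?_⟩
  have h1 := hG.eq (sw x)
  have h2 : (if sw x = 0 then (1 : ℂ) else 0) = if x = 0 then 1 else 0 := by
    simp only [sw_zero]
  rw [← h2, ← h1]
  unfold HZ
  rw [Fin.sum_univ_two, Fin.sum_univ_two]
  simp only [sw_a0, sw_a1, sw_s0, sw_s1, zero_mul, Complex.ofReal_zero]
  ring

/-- the sign of a point -/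
noncomputable def sg (x : Zd 2) : ℂ := (-1 : ℂ) ^ (x 0 + x 1)

theorem sg_norm (x : Zd 2) : ‖sg x‖ = 1 := by
  unfold sg
  rw [norm_zpow, norm_neg, norm_one, one_zpow]

theorem sg_a (x : Zd 2) (i : Fin 2) : sg (x + Pi.single i 1) = -sg x := by
  have h : (x + Pi.single i 1 : Zd 2) 0 + (x + Pi.single i 1 : Zd 2) 1 = (x 0 + x 1) + 1 := by
    fin_cases i
    · simp
      ring
    · simp
      ring
  unfold sg
  rw [h, zpow_add₀ (by norm_num), zpow_one]
  ring

theorem sg_s (x : Zd 2) (i : Fin 2) : sg (x - Pi.single i 1) = -sg x := by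
  have h := sg_a (x - Pi.single i 1) i
  rw [sub_add_cancel] at h
  rw [h, neg_neg]

theorem sg_zero : sg 0 = 1 := by
  unfold sg
  simp

theorem gauge_isG (w w' : ℂ) (hw : w = 8 - (starRingEnd ℂ) w') (ω : Zd 2 → ℝ) (G : Zd 2 → ℂ)
    (hG : IsG 0 ω w' G) : IsG 0 ω w (fun x => -(sg x * (starRingEnd ℂ) (G x))) := by
  refine ⟨?_, fun x => ?_⟩
  · refine hG.sq.congr fun x => ?_
    rw [norm_neg, norm_mul, sg_norm, one_mul, RCLike.norm_conj]
  · have h1 := congrArg (starRingEnd ℂ) (hG.eq x)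
    have h2 : (starRingEnd ℂ) (if x = 0 then (1 : ℂ) else 0) = sg x * (if x = 0 then 1 else 0) := by
      split_ifs with h
      · rw [h, sg_zero]
        simp
      · simp
    have h3 : (if x = 0 then (1 : ℂ) else 0) = (starRingEnd ℂ) (if x = 0 then (1 : ℂ) else 0) := by
      split_ifs <;> simp
    have h4 : sg x * (starRingEnd ℂ) (if x = 0 then (1 : ℂ) else 0) =
        (if x = 0 then (1 : ℂ) else 0) := by
      split_ifs with h
      · rw [h, sg_zero]
        simp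
      · simp
    rw [← h4, ← h1]
    unfold HZ
    rw [Fin.sum_univ_two, Fin.sum_univ_two, hw]
    simp only [sg_a, sg_s, map_sub, map_add, map_neg, map_mul, zero_mul, Complex.ofReal_zero,
      map_zero]
    ring

/-- the size of a point -/
def nx (x : Zd 2) : ℕ := max (x 0).natAbs (x 1).natAbs

theorem nx_pos (x : Zd 2) (hx : x ≠ 0) : 1 ≤ nx x := by
  unfold nx
  by_contra h
  apply hx
  have h1 : (x 0).natAbs ≤ 0 := by
    have := le_max_left (x 0).natAbs (x 1).natAbs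
    omega
  have h2 : (x 1).natAbs ≤ 0 := by
    have := le_max_right (x 0).natAbs (x 1).natAbs
    omega
  funext i
  fin_cases i
  · exact Int.natAbs_eq_zero.1 (Nat.le_zero.1 h1)
  · exact Int.natAbs_eq_zero.1 (Nat.le_zero.1 h2)

/-- pointwise decay of the free Green function -/
theorem Gf_bound (μ1 μ2 : ℝ) (hp1 : 0 < μ1) (hp12 : μ1 ≤ μ2) (hp2 : μ2 < 2) : ∃ C : ℝ, 0 ≤ C ∧
    ∀ w : ℂ, Adm w μ1 μ2 → ∀ x : Zd 2, x ≠ 0 → ‖Gf w x‖ ^ 2 ≤ C / nx x := by
  obtain ⟨C, hC, h⟩ := Gc_bound μ1 μ2 hp1 hp12 hp2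
  refine ⟨C ^ 2, by positivity, ?_⟩
  intro w hA x hx
  have hw := hA.im0
  have key : ∀ y : Zd 2, y ≠ 0 → (y 0).natAbs ≤ (y 1).natAbs → ‖Gf w y‖ ^ 2 ≤ C ^ 2 / nx y := by
    intro y hy hle
    have h1 : nx y = (y 1).natAbs := max_eq_right hle
    have h2 := nx_pos y hy
    rw [h1] at h2 ⊢
    have h3 := h w hA (y 1).natAbs h2 (y 0) (by
      have : |(y 0 : ℝ)| = ((y 0).natAbs : ℝ) := by
        rw [Nat.cast_natAbs]
        simp
      rw [this]
      exact_mod_cast hle)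
    have h4 := pow_le_pow_left₀ (norm_nonneg _) h3 2
    rw [div_pow, Real.sq_sqrt (Nat.cast_nonneg _)] at h4
    exact h4
  rcases le_total (x 0).natAbs (x 1).natAbs with h1 | h1
  · exact key x hx h1
  · have h2 := key (sw x) (fun h => hx ((sw_zero x).1 h)) h1
    have h3 : nx (sw x) = nx x := max_comm _ _
    rw [h3] at h2
    have h4 : (fun x => Gf w (sw x)) = Gf w :=
      isG_unique 0 (fun _ => 0) w hw _ _ (swap_isG w _ _ (Gf_isG hw _)) (Gf_isG hw _)
    have h5 : Gf w (sw x) = Gf w x := congrFun h4 x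
    rw [h5] at h2
    exact h2

/-- the weight of one coordinate -/
noncomputable def ph1 (a : ℤ) : ℝ := 1 / max 1 |(a : ℝ)|

theorem ph1_nonneg (a : ℤ) : 0 ≤ ph1 a := by
  unfold ph1
  positivity

theorem ph1_sum (M : ℕ) : ∑ a ∈ Finset.Icc (-(M : ℤ)) M, ph1 a = 1 + 2 * (harmonic M : ℝ) := by
  induction M with
  | zero =>
    simp [ph1]
  | succ M ih =>
    have h1 : Finset.Icc (-((M + 1 : ℕ) : ℤ)) ((M + 1 : ℕ) : ℤ) =
        insert ((M : ℤ) + 1) (insert (-((M : ℤ) + 1)) (Finset.Icc (-(M : ℤ)) M)) := by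
      ext a
      simp only [Finset.mem_Icc, Finset.mem_insert]
      push_cast
      omega
    rw [h1, Finset.sum_insert, Finset.sum_insert, ih, harmonic_succ]
    · have h2 : ∀ a : ℤ, |a| = (M : ℤ) + 1 → ph1 a = 1 / ((M : ℝ) + 1) := by
        intro a ha
        unfold ph1
        have h3 : |(a : ℝ)| = (M : ℝ) + 1 := by exact_mod_cast ha
        rw [h3, max_eq_right (by have : (0 : ℝ) ≤ M := Nat.cast_nonneg M; linarith)]
      rw [h2 _ (by rw [abs_of_nonneg (by omega)]), h2 _ (by rw [abs_neg, abs_of_nonneg (by omega)])]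
      push_cast
      ring
    · rw [Finset.mem_Icc]
      omega
    · rw [Finset.mem_insert, Finset.mem_Icc]
      omega

theorem box_sum (M : ℕ) : ∑ x ∈ Fintype.piFinset (fun _ : Fin 2 => Finset.Icc (-(M : ℤ)) M),
    ph1 (x 0) * ph1 (x 1) = (1 + 2 * (harmonic M : ℝ)) ^ 2 := by
  have h1 := Finset.prod_univ_sum (fun _ : Fin 2 => Finset.Icc (-(M : ℤ)) M)
    (fun _ a => ph1 a)
  rw [Fin.prod_univ_two, ph1_sum] at h1
  rw [sq, h1]
  refine Finset.sum_congr rfl fun x _ => ?_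
  rw [Fin.prod_univ_two]

theorem G4_sum (w : ℂ) (hw : 0 < w.im) (hw1 : w.im ≤ 1) (ω : Zd 2 → ℝ) (G : Zd 2 → ℂ)
    (hG : IsG 0 ω w G) (C : ℝ) (hC : 0 ≤ C) (hb : ∀ x : Zd 2, x ≠ 0 → ‖G x‖ ^ 2 ≤ C / nx x)
    (F : Finset (Zd 2)) :
    ∑ x ∈ F, ‖G x‖ ^ 4 ≤ ‖G 0‖ ^ 4 + C ^ 2 * (5 + 4 * Real.log (1 / w.im)) ^ 2 + 2 * C := by
  classical
  set s := w.im with hs
  set M : ℕ := ⌈1 / s ^ 2⌉₊ with hM
  have hM1 : 1 / s ^ 2 ≤ M := Nat.le_ceil _
  have hs2 : 0 < s ^ 2 := by positivity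
  have hs21 : s ^ 2 ≤ 1 := pow_le_one₀ hw.le hw1
  have hone : 1 ≤ 1 / s ^ 2 := by
    rw [le_div_iff₀ hs2]
    linarith
  have hM2 : (M : ℝ) ≤ 2 / s ^ 2 := by
    have h1 := (Nat.ceil_lt_add_one (by positivity : 0 ≤ 1 / s ^ 2)).le
    have h2 : 2 / s ^ 2 = 1 / s ^ 2 + 1 / s ^ 2 := by ring
    rw [h2]
    exact h1.trans (by linarith)
  have hM0 : (0 : ℝ) < M := lt_of_lt_of_le (by positivity) hM1
  set bx : Finset (Zd 2) := Fintype.piFinset (fun _ : Fin 2 => Finset.Icc (-(M : ℤ)) M) with hbx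
  have hpt : ∀ x : Zd 2, ‖G x‖ ^ 4 ≤ (if x = 0 then ‖G 0‖ ^ 4 else 0) +
      C ^ 2 * (if x ∈ bx then ph1 (x 0) * ph1 (x 1) else 0) + C * s ^ 2 * ‖G x‖ ^ 2 := by
    intro x
    have hp0 := ph1_nonneg (x 0)
    have hp1 := ph1_nonneg (x 1)
    by_cases hx : x = 0
    · rw [if_pos hx, hx]
      have h1 : 0 ≤ C ^ 2 * (if (0 : Zd 2) ∈ bx then ph1 ((0 : Zd 2) 0) * ph1 ((0 : Zd 2) 1)
          else 0) := by
        have := ph1_nonneg ((0 : Zd 2) 0)
        have := ph1_nonneg ((0 : Zd 2) 1)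
        split_ifs <;> positivity
      have h2 : 0 ≤ C * s ^ 2 * ‖G 0‖ ^ 2 := by positivity
      linarith
    · rw [if_neg hx, zero_add]
      have h1 := hb x hx
      have hn := nx_pos x hx
      have hn0 : (0 : ℝ) < nx x := by exact_mod_cast hn
      have e4 : ‖G x‖ ^ 4 = ‖G x‖ ^ 2 * ‖G x‖ ^ 2 := by ring
      by_cases hxb : x ∈ bx
      · rw [if_pos hxb]
        have h2 : ∀ i, max 1 |(x i : ℝ)| ≤ nx x := by
          intro i
          refine max_le (by exact_mod_cast hn) ?_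
          have h3 : |(x i : ℝ)| = ((x i).natAbs : ℝ) := by
            rw [Nat.cast_natAbs]
            simp
          rw [h3]
          have h4 : (x i).natAbs ≤ nx x := by
            unfold nx
            fin_cases i
            · exact le_max_left _ _
            · exact le_max_right _ _
          exact_mod_cast h4
        have h3 : ∀ i, 1 / (nx x : ℝ) ≤ ph1 (x i) := fun i =>
          one_div_le_one_div_of_le (lt_of_lt_of_le one_pos (le_max_left _ _)) (h2 i)
        have h4 : ‖G x‖ ^ 4 ≤ C ^ 2 * (ph1 (x 0) * ph1 (x 1)) := by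
          rw [e4]
          calc ‖G x‖ ^ 2 * ‖G x‖ ^ 2 ≤ (C / nx x) * (C / nx x) := by gcongr
            _ = C ^ 2 * ((1 / (nx x : ℝ)) * (1 / (nx x : ℝ))) := by
                field_simp
            _ ≤ C ^ 2 * (ph1 (x 0) * ph1 (x 1)) := by
                have := h3 0
                have := h3 1
                gcongr
        have h5 : 0 ≤ C * s ^ 2 * ‖G x‖ ^ 2 := by positivity
        linarith
      · rw [if_neg hxb, mul_zero, zero_add]
        have h2 : (M : ℝ) ≤ nx x := by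
          have h3 : M < nx x := by
            by_contra h4
            apply hxb
            rw [hbx, Fintype.mem_piFinset]
            intro i
            rw [Finset.mem_Icc]
            have h5 : (x i).natAbs ≤ nx x := by
              unfold nx
              fin_cases i
              · exact le_max_left _ _
              · exact le_max_right _ _
            omega
          exact_mod_cast h3.le
        have h3 : C / nx x ≤ C * s ^ 2 := by
          rw [div_le_iff₀ hn0, mul_assoc]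
          have h4 : 1 ≤ s ^ 2 * nx x := by
            have h5 : 1 / s ^ 2 ≤ nx x := hM1.trans h2
            rw [div_le_iff₀ hs2] at h5
            linarith
          nlinarith
        rw [e4]
        exact mul_le_mul_of_nonneg_right (h1.trans h3) (by positivity)
  refine (Finset.sum_le_sum fun x _ => hpt x).trans ?_
  rw [Finset.sum_add_distrib, Finset.sum_add_distrib, ← Finset.mul_sum, ← Finset.mul_sum]
  have h1 : ∑ x ∈ F, (if x = 0 then ‖G 0‖ ^ 4 else 0) ≤ ‖G 0‖ ^ 4 := by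
    rw [Finset.sum_ite_eq']
    split_ifs
    · exact le_rfl
    · positivity
  have h2 : ∑ x ∈ F, (if x ∈ bx then ph1 (x 0) * ph1 (x 1) else 0) ≤
      (5 + 4 * Real.log (1 / s)) ^ 2 := by
    rw [← Finset.sum_filter]
    have h3 : ∑ x ∈ F.filter (fun x => x ∈ bx), ph1 (x 0) * ph1 (x 1) ≤
        ∑ x ∈ bx, ph1 (x 0) * ph1 (x 1) := by
      refine Finset.sum_le_sum_of_subset_of_nonneg (fun x hx => (Finset.mem_filter.1 hx).2)
        fun x _ _ => mul_nonneg (ph1_nonneg _) (ph1_nonneg _)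
    refine h3.trans ?_
    rw [hbx, box_sum]
    have h4 := harmonic_le_one_add_log M
    have h5 : Real.log M ≤ 1 + 2 * Real.log (1 / s) := by
      have h6 := Real.log_le_log hM0 hM2
      have h7 : Real.log (2 / s ^ 2) = Real.log 2 + 2 * Real.log (1 / s) := by
        have e1 : 2 / s ^ 2 = 2 * (1 / s) ^ 2 := by
          field_simp
        rw [e1, Real.log_mul (by norm_num) (by positivity), Real.log_pow]
        push_cast
        ring
      have h8 := Real.log_two_lt_d9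
      linarith
    have h6 : (0 : ℝ) ≤ (harmonic M : ℝ) := by
      have : (0 : ℚ) ≤ harmonic M := by
        unfold harmonic
        exact Finset.sum_nonneg fun _ _ => by positivity
      exact_mod_cast this
    apply pow_le_pow_left₀ (by linarith)
    linarith
  have h3 : ∑ x ∈ F, ‖G x‖ ^ 2 ≤ 2 / s ^ 2 :=
    (hG.sq.sum_le_tsum F (fun _ _ => by positivity)).trans (isG_norm 0 ω w hw G hG)
  have h4 : C * s ^ 2 * ∑ x ∈ F, ‖G x‖ ^ 2 ≤ 2 * C := by
    calc C * s ^ 2 * ∑ x ∈ F, ‖G x‖ ^ 2 ≤ C * s ^ 2 * (2 / s ^ 2) := by gcongr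
      _ = 2 * C := by field_simp
  have h5 := mul_le_mul_of_nonneg_left h2 (sq_nonneg C)
  linarith

/-- the fourth moment on the torus -/
theorem kc4_sum (w : ℂ) (hw : 0 < w.im) (hw1 : w.im ≤ 1) (ω : Zd 2 → ℝ) (G : Zd 2 → ℂ)
    (hG : IsG 0 ω w G) (C : ℝ) (hC : 0 ≤ C) (hb : ∀ x : Zd 2, x ≠ 0 → ‖G x‖ ^ 2 ≤ C / nx x)
    (h : ℕ) (hcl : ∑ x : T 2 (2 * h + 1), ‖G (lift x) - kc (rv w) x‖ ^ 2 ≤ 1) :
    ∑ x : T 2 (2 * h + 1), ‖kc (rv w) x‖ ^ 4 ≤
      8 * (‖G 0‖ ^ 4 + C ^ 2 * (5 + 4 * Real.log (1 / w.im)) ^ 2 + 2 * C) + 8 := by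
  classical
  have h1 : ∀ x : T 2 (2 * h + 1), ‖kc (rv w) x‖ ^ 4 ≤ 8 * ‖G (lift x)‖ ^ 4 +
      8 * ‖G (lift x) - kc (rv w) x‖ ^ 2 := by
    intro x
    set a := ‖G (lift x)‖ with ha
    set b := ‖G (lift x) - kc (rv w) x‖ with hb'
    have ha0 : 0 ≤ a := norm_nonneg _
    have hb0 : 0 ≤ b := norm_nonneg _
    have h2 : ‖kc (rv w) x‖ ≤ a + b := by
      have e1 : kc (rv w) x = G (lift x) - (G (lift x) - kc (rv w) x) := by ring
      have := norm_sub_le (G (lift x)) (G (lift x) - kc (rv w) x)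
      rwa [← e1] at this
    have h3 : b ^ 2 ≤ 1 := (Finset.single_le_sum (f := fun x : T 2 (2 * h + 1) =>
      ‖G (lift x) - kc (rv w) x‖ ^ 2) (fun _ _ => by positivity) (Finset.mem_univ x)).trans hcl
    have h4 := pow_le_pow_left₀ (norm_nonneg _) h2 4
    have h5 : (a + b) ^ 4 ≤ 8 * (a ^ 4 + b ^ 4) := by
      nlinarith [sq_nonneg (a - b), sq_nonneg (a ^ 2 - b ^ 2), mul_nonneg ha0 hb0,
        sq_nonneg (a + b)]
    have h6 : b ^ 4 ≤ b ^ 2 := by nlinarith [sq_nonneg b]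
    linarith
  refine (Finset.sum_le_sum fun x _ => h1 x).trans ?_
  rw [Finset.sum_add_distrib, ← Finset.mul_sum, ← Finset.mul_sum]
  have h2 : ∑ x : T 2 (2 * h + 1), ‖G (lift x)‖ ^ 4 =
      ∑ y ∈ (Finset.univ : Finset (T 2 (2 * h + 1))).image lift, ‖G y‖ ^ 4 := by
    rw [Finset.sum_image]
    intro a _ b _ hab
    exact lift_inj hab
  have h3 := G4_sum w hw hw1 ω G hG C hC hb
    ((Finset.univ : Finset (T 2 (2 * h + 1))).image lift)
  rw [h2]
  linarith

end Pool.Agent.Zk71.D2
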