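import Pool.Agent.Zk71.D2.Sec
import Pool.Agent.Zk71.D2.Green

/-! Pointwise decay of the free Green function in two dimensions. -/

set_option autoImplicit false
set_option linter.unusedSectionVars false

open scoped BigOperators Topology
open MeasureTheory Filter Set

namespace Pool.Agent.Zk71.D2

section
variable {w : ℂ} {μ1 μ2 : ℝ}

/-- the oscillating factor -/
noncomputable def FF (w : ℂ) (n : ℕ) (x : ℝ) (k : ℝ) : ℂ :=
  Complex.exp (Complex.I * (x * k : ℝ)) * ze w k ^ n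

theorem FF_norm (n : ℕ) (x k : ℝ) : ‖FF w n x k‖ = ‖ze w k‖ ^ n := by
  unfold FF
  rw [norm_mul, norm_pow, mul_comm Complex.I, Complex.norm_exp_ofReal_mul_I, one_mul]

theorem FF_le (hw : 0 < w.im) (n : ℕ) (x k : ℝ) : ‖FF w n x k‖ ≤ 1 := by
  rw [FF_norm]
  exact pow_le_one₀ (norm_nonneg _) (ze_lt hw k).le

theorem FF_cont (hw : 0 < w.im) (n : ℕ) (x : ℝ) : Continuous (FF w n x) := (cph hw n x).cF

/-- the second derivative test on an interval where the phase stays in the sector -/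
theorem campS (h : Adm w μ1 μ2) (n : ℕ) (hn : 1 ≤ n) (x : ℝ) (u : ℂ) (hu : ‖u‖ ^ 2 = 5) {a b : ℝ}
    (hab : a ≤ b) (hsec : ∀ k ∈ Icc a b, 7 / 20 / ‖xi w k‖ ^ 3 ≤ (u / xi w k ^ 3).re)
    (A A' : ℝ → ℂ) {M0 M1 : ℝ}
    (hA : ∀ t ∈ Icc a b, HasDerivAt A (A' t) t) (hA' : ContinuousOn A' (Icc a b))
    (hM0 : ∀ t ∈ Icc a b, ‖A t‖ ≤ M0) (hM1 : ∀ t ∈ Icc a b, ‖A' t‖ ≤ M1) :
    ‖∫ t in a..b, A t * FF w n x t‖ ≤
      (M0 + (b - a) * M1) * (22 / Real.sqrt (n * (μ1 * (1 - μ2 ^ 2 / 4) / 1000))) := by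
  have hun : ‖u‖ = Real.sqrt 5 := by rw [← hu, Real.sqrt_sq (norm_nonneg _)]
  have hκ : ‖(-(u / Real.sqrt 5))‖ = 1 := by
    rw [norm_neg, norm_div, hun, Complex.norm_real, Real.norm_eq_abs,
      abs_of_nonneg (Real.sqrt_nonneg _)]
    exact div_self (by positivity)
  have hq := h.q1
  have hn0 : (0 : ℝ) < n := by exact_mod_cast hn
  have h1 := camp (cph h.im0 n x) hκ hab (c := n * (μ1 * (1 - μ2 ^ 2 / 4) / 1000)) (K := 8)
    (by positivity) (by norm_num) (fun t _ => FF_le h.im0 n x t)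
    (fun t ht => (h.sector n t u hu (hsec t ht)).1) (fun t ht => (h.sector n t u hu (hsec t ht)).2)
    A A' hA hA' hM0 hM1
  refine h1.trans (le_of_eq ?_)
  norm_num

theorem xi_sec1 (hw : 0 < w.im) (k : ℝ) (ht : 0 ≤ 1 - ((4 - w.re) / 2 - Real.cos k)) :
    7 / 20 / ‖xi w k‖ ^ 3 ≤ ((1 + 2 * Complex.I) / xi w k ^ 3).re := by
  have h1 := xi_re hw k
  have h2 := xi_im hw k
  refine sec1 _ h2.le ?_ h1
  have h3 := rt_re2 (1 - CC w k) (Complex.slitPlane_ne_zero (one_sub_slit hw k))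
  change (xi w k).re ^ 2 - (xi w k).im ^ 2 = _ at h3
  rw [Complex.sub_re, CC_re, Complex.one_re] at h3
  exact le_of_sq_le_sq (by linarith) h1.le

theorem xi_sec2 (hw : 0 < w.im) (k : ℝ) (ht : 1 - ((4 - w.re) / 2 - Real.cos k) ≤ 0) :
    7 / 20 / ‖xi w k‖ ^ 3 ≤ (-(2 + Complex.I) / xi w k ^ 3).re := by
  have h1 := xi_re hw k
  have h2 := xi_im hw k
  refine sec2 _ h1.le ?_ h2
  have h3 := rt_re2 (1 - CC w k) (Complex.slitPlane_ne_zero (one_sub_slit hw k))
  change (xi w k).re ^ 2 - (xi w k).im ^ 2 = _ at h3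
  rw [Complex.sub_re, CC_re, Complex.one_re] at h3
  exact le_of_sq_le_sq (by linarith) h2.le

theorem u1_norm : ‖(1 + 2 * Complex.I : ℂ)‖ ^ 2 = 5 := by
  rw [norm_sq']
  simp
  norm_num

theorem u2_norm : ‖(-(2 + Complex.I) : ℂ)‖ ^ 2 = 5 := by
  rw [norm_sq']
  simp
  norm_num

theorem SS_normsq (hw : 0 < w.im) (k : ℝ) : ‖SS w k‖ ^ 2 = ‖1 - CC w k‖ * ‖1 + CC w k‖ := by
  rw [← norm_pow, SS_sq hw, ← norm_mul]
  congr 1
  ring

theorem SS_low (hw : 0 < w.im) (k : ℝ) {a b : ℝ} (ha : 0 ≤ a) (hb : 0 ≤ b)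
    (h1 : a ≤ |1 - ((4 - w.re) / 2 - Real.cos k)|)
    (h2 : b ≤ |1 + ((4 - w.re) / 2 - Real.cos k)|) : a * b ≤ ‖SS w k‖ ^ 2 := by
  rw [SS_normsq hw]
  have h3 := Complex.abs_re_le_norm (1 - CC w k)
  have h4 := Complex.abs_re_le_norm (1 + CC w k)
  rw [Complex.sub_re, CC_re, Complex.one_re] at h3
  rw [Complex.add_re, CC_re, Complex.one_re] at h4
  exact mul_le_mul (h1.trans h3) (h2.trans h4) hb (norm_nonneg _)

theorem Adm.CC_norm (h : Adm w μ1 μ2) (k : ℝ) : ‖CC w k‖ ≤ 4 := by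
  have h1 := Complex.norm_le_abs_re_add_abs_im (CC w k)
  rw [CC_re, CC_im] at h1
  have h4 : |-(w.im / 2)| ≤ 1 := by
    rw [abs_neg, abs_of_pos (by have := h.im0; positivity)]
    have := h.s2
    linarith
  have h5 : |(4 - w.re) / 2 - Real.cos k| ≤ 3 := by
    have h6 := Real.cos_le_one k
    have h7 := Real.neg_one_le_cos k
    have h8 := h.l1
    have h9 := h.l2
    have h10 := h.p1
    have h11 := h.p2
    rw [abs_le]
    constructor <;> linarith
  linarith

/-- region A -/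
theorem regA (h : Adm w μ1 μ2) {δ : ℝ} (hδ : 0 < δ) (n : ℕ) (hn : 1 ≤ n) (x : ℝ) {b : ℝ}
    (hb : 0 ≤ b) (hbpi : b ≤ Real.pi)
    (ht : ∀ k ∈ Icc 0 b, δ ≤ 1 - ((4 - w.re) / 2 - Real.cos k)) :
    ‖∫ k in (0 : ℝ)..b, 1 / SS w k * FF w n x k‖ ≤
      (1 / Real.sqrt (δ * μ1) + Real.pi * (4 / Real.sqrt (δ * μ1) ^ 3)) *
        (22 / Real.sqrt (n * (μ1 * (1 - μ2 ^ 2 / 4) / 1000))) := by
  have hw := h.im0
  have hm1 := h.p1
  have hS : ∀ k ∈ Icc 0 b, Real.sqrt (δ * μ1) ≤ ‖SS w k‖ := by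
    intro k hk
    apply Real.sqrt_le_iff.2 ⟨norm_nonneg _, ?_⟩
    refine SS_low hw k hδ.le hm1.le ((ht k hk).trans (le_abs_self _)) ?_
    refine le_trans ?_ (le_abs_self _)
    have := Real.cos_le_one k
    have := h.l1
    linarith
  have hs0 : 0 < Real.sqrt (δ * μ1) := Real.sqrt_pos.2 (mul_pos hδ hm1)
  have hq : 0 ≤ 22 / Real.sqrt (n * (μ1 * (1 - μ2 ^ 2 / 4) / 1000)) := by positivity
  have h1 := campS h n hn x (1 + 2 * Complex.I) u1_norm hb
    (fun k hk => xi_sec1 hw k (hδ.le.trans (ht k hk)))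
    (fun k => 1 / SS w k) (fun k => CC w k * Real.sin k / SS w k ^ 3)
    (M0 := 1 / Real.sqrt (δ * μ1)) (M1 := 4 / Real.sqrt (δ * μ1) ^ 3)
    (fun k _ => by
      have h2 := (hasDerivAt_const k (1 : ℂ)).div (SS_deriv hw k) (SS_ne hw k)
      refine h2.congr_deriv ?_
      have := SS_ne hw k
      field_simp
      ring)
    (((CC_cont hw).mul (by fun_prop)).div ((SS_cont hw).pow 3)
      (fun k => pow_ne_zero 3 (SS_ne hw k))).continuousOn
    (fun k hk => by
      rw [norm_div, norm_one]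
      exact one_div_le_one_div_of_le hs0 (hS k hk))
    (fun k hk => by
      rw [norm_div, norm_mul, norm_pow]
      have h3 : ‖CC w k‖ * ‖(Real.sin k : ℂ)‖ ≤ 4 * 1 := by
        refine mul_le_mul (h.CC_norm k) ?_ (norm_nonneg _) (by norm_num)
        rw [Complex.norm_real, Real.norm_eq_abs]
        exact Real.abs_sin_le_one k
      rw [mul_one] at h3
      exact div_le_div₀ (by norm_num) h3 (by positivity) (pow_le_pow_left₀ hs0.le (hS k hk) 3))
  refine h1.trans (mul_le_mul_of_nonneg_right ?_ hq)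
  rw [sub_zero]
  have : b * (4 / Real.sqrt (δ * μ1) ^ 3) ≤ Real.pi * (4 / Real.sqrt (δ * μ1) ^ 3) := by gcongr
  linarith

/-- region C -/
theorem regC (h : Adm w μ1 μ2) {δ : ℝ} (hδ : 0 < δ) (hδ1 : δ ≤ 1 / 8) (n : ℕ) (hn : 1 ≤ n) (x : ℝ)
    {a : ℝ} (ha : 0 ≤ a) (hapi : a ≤ Real.pi)
    (ht : ∀ k ∈ Icc a Real.pi, 1 - ((4 - w.re) / 2 - Real.cos k) ≤ -δ) :
    ‖∫ k in a..Real.pi, 1 / SS w k * FF w n x k‖ ≤
      Real.pi / Real.sqrt (2 * δ) * (1 / Real.sqrt δ) / n := by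
  have hw := h.im0
  have hsδ : 0 < Real.sqrt δ := Real.sqrt_pos.2 hδ
  have hsδ1 : Real.sqrt δ ≤ 1 / 2 := by
    rw [Real.sqrt_le_left (by norm_num)]
    linarith
  have hsq := Real.sq_sqrt hδ.le
  have hze : ∀ k ∈ Icc a Real.pi, ‖ze w k‖ ≤ 1 - Real.sqrt δ := by
    intro k hk
    have h1 := ze_lt hw k
    have h2 := ze_quad hw k
    have h3 : 2 * (1 + δ) * ‖ze w k‖ ≤ ‖ze w k‖ ^ 2 + 1 := by
      have h4 : ‖ze w k ^ 2 + 1‖ ≤ ‖ze w k‖ ^ 2 + 1 := by
        refine (norm_add_le _ _).trans ?_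
        rw [norm_pow, norm_one]
      rw [h2, norm_mul, norm_mul] at h4
      have h5 : 1 + δ ≤ ‖CC w k‖ := by
        have h6 := Complex.abs_re_le_norm (CC w k)
        rw [CC_re] at h6
        refine le_trans ?_ (le_trans (le_abs_self _) h6)
        have := ht k hk
        linarith
      have h7 : ‖(2 : ℂ)‖ = 2 := by norm_num
      rw [h7] at h4
      refine le_trans ?_ h4
      gcongr
    set r := ‖ze w k‖ with hr
    have hr0 : 0 ≤ r := norm_nonneg _
    by_contra hcon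
    have h8 : 1 - Real.sqrt δ < r := not_le.1 hcon
    have h9 : (1 - r) ^ 2 < δ := by
      have : (1 - r) ^ 2 < Real.sqrt δ ^ 2 := by
        apply pow_lt_pow_left₀ (by linarith) (by linarith) (by norm_num)
      linarith
    nlinarith
  have hSl : ∀ k ∈ Icc a Real.pi, Real.sqrt (2 * δ) ≤ ‖SS w k‖ := by
    intro k hk
    apply Real.sqrt_le_iff.2 ⟨norm_nonneg _, ?_⟩
    rw [mul_comm]
    have h2 := ht k hk
    refine SS_low hw k hδ.le (by norm_num) ?_ ?_
    · rw [abs_of_nonpos (by linarith)]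
      linarith
    · refine le_trans ?_ (le_abs_self _)
      linarith
  have hs2 : 0 < Real.sqrt (2 * δ) := Real.sqrt_pos.2 (by positivity)
  have hn0 : (0 : ℝ) < n := by exact_mod_cast hn
  -- geometric
  have hgeo : (1 - Real.sqrt δ) ^ n ≤ 1 / Real.sqrt δ / n := by
    set ρ := 1 - Real.sqrt δ with hρ
    have hρ0 : 0 ≤ ρ := by linarith
    have hρ1 : ρ < 1 := by linarith
    have h1 : (n : ℝ) * ρ ^ n ≤ ∑ j ∈ Finset.range n, ρ ^ j := by
      have h2 : ∑ _j ∈ Finset.range n, ρ ^ n ≤ ∑ j ∈ Finset.range n, ρ ^ j := by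
        refine Finset.sum_le_sum fun j hj => ?_
        exact pow_le_pow_of_le_one hρ0 hρ1.le (Finset.mem_range.1 hj).le
      rw [Finset.sum_const, Finset.card_range, nsmul_eq_mul] at h2
      exact h2
    have h3 : ∑ j ∈ Finset.range n, ρ ^ j ≤ 1 / Real.sqrt δ := by
      rw [geom_sum_eq hρ1.ne, le_div_iff₀ hsδ]
      have h4 : ρ - 1 = -Real.sqrt δ := by rw [hρ]; ring
      rw [h4]
      have h5 : 0 ≤ ρ ^ n := pow_nonneg hρ0 n
      have h6 : (ρ ^ n - 1) / -Real.sqrt δ * Real.sqrt δ = 1 - ρ ^ n := by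
        field_simp
        ring
      rw [h6]
      linarith
    rw [le_div_iff₀ hn0]
    linarith
  have hb : ∀ k ∈ Set.uIoc a Real.pi, ‖1 / SS w k * FF w n x k‖ ≤
      1 / Real.sqrt (2 * δ) * (1 / Real.sqrt δ / n) := by
    intro k hk
    rw [uIoc_of_le hapi] at hk
    have hk' : k ∈ Icc a Real.pi := ⟨hk.1.le, hk.2⟩
    rw [norm_mul, FF_norm, norm_div, norm_one]
    have h1 : ‖ze w k‖ ^ n ≤ 1 / Real.sqrt δ / n :=
      (pow_le_pow_left₀ (norm_nonneg _) (hze k hk') n).trans hgeo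
    exact mul_le_mul (one_div_le_one_div_of_le hs2 (hSl k hk')) h1 (by positivity) (by positivity)
  refine (intervalIntegral.norm_integral_le_of_norm_le_const hb).trans ?_
  rw [abs_of_nonneg (by linarith)]
  have h1 : 1 / Real.sqrt (2 * δ) * (1 / Real.sqrt δ / n) * (Real.pi - a) ≤
      1 / Real.sqrt (2 * δ) * (1 / Real.sqrt δ / n) * Real.pi := by
    gcongr
    linarith
  refine h1.trans (le_of_eq ?_)
  ring

/-- region B -/
theorem regB (h : Adm w μ1 μ2) {s : ℝ} (hs : 0 < s) (n : ℕ) (hn : 1 ≤ n) (x : ℝ)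
    (hx : |x| ≤ n) {a m b : ℝ} (ha : 0 ≤ a) (ham : a ≤ m) (hmb : m ≤ b) (hb : b ≤ Real.pi)
    (hsin : ∀ k ∈ Icc a b, s ≤ Real.sin k)
    (ht1 : ∀ k ∈ Icc a m, 0 ≤ 1 - ((4 - w.re) / 2 - Real.cos k))
    (ht2 : ∀ k ∈ Icc m b, 1 - ((4 - w.re) / 2 - Real.cos k) ≤ 0) :
    ‖∫ k in a..b, 1 / SS w k * FF w n x k‖ ≤
      2 * ((1 / s + Real.pi * (1 / s ^ 2)) *
        (22 / Real.sqrt (n * (μ1 * (1 - μ2 ^ 2 / 4) / 1000)))) +
      (2 / s + Real.pi / s ^ 2) / n := by
  have hw := h.im0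
  have hab := ham.trans hmb
  have hn0 : (0 : ℝ) < n := by exact_mod_cast hn
  have hnc : (n : ℂ) ≠ 0 := by exact_mod_cast hn0.ne'
  have hcph := cph hw n x
  have hu : Set.uIcc a b = Icc a b := Set.uIcc_of_le hab
  have hsn : ∀ k ∈ Icc a b, (Real.sin k : ℂ) ≠ 0 := fun k hk => by
    exact_mod_cast (hs.trans_le (hsin k hk)).ne'
  have hdsin : ∀ k : ℝ, HasDerivAt (fun k : ℝ => (Real.sin k : ℂ)) (Real.cos k : ℂ) k :=
    fun k => (Real.hasDerivAt_sin k).ofReal_comp
  have hcsin : Continuous fun k : ℝ => (Real.sin k : ℂ) := by fun_prop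
  have hccos : Continuous fun k : ℝ => (Real.cos k : ℂ) := by fun_prop
  have hFc := FF_cont hw n x
  -- the primitive
  have hD : ∀ k ∈ Set.uIcc a b, HasDerivAt (fun k => FF w n x k / (Real.sin k : ℂ))
      (Complex.I * (x - n * (Real.sin k / SS w k)) * FF w n x k / (Real.sin k : ℂ) -
        FF w n x k * (Real.cos k : ℂ) / (Real.sin k : ℂ) ^ 2) k := by
    intro k hk
    rw [hu] at hk
    have h1 := (hcph.dF k).div (hdsin k) (hsn k hk)
    refine h1.congr_deriv ?_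
    have := hsn k hk
    change (Complex.I * (x - n * (Real.sin k / SS w k)) * FF w n x k * (Real.sin k : ℂ) -
      FF w n x k * (Real.cos k : ℂ)) / (Real.sin k : ℂ) ^ 2 = _
    field_simp
  have hcS := SS_cont hw
  have hi1 : IntervalIntegrable (fun k =>
      Complex.I * (x - n * (Real.sin k / SS w k)) * FF w n x k / (Real.sin k : ℂ) -
        FF w n x k * (Real.cos k : ℂ) / (Real.sin k : ℂ) ^ 2) volume a b := by
    refine ContinuousOn.intervalIntegrable ?_
    rw [hu]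
    refine ContinuousOn.sub (ContinuousOn.div ?_ hcsin.continuousOn hsn)
      (ContinuousOn.div (hFc.mul hccos).continuousOn (hcsin.pow 2).continuousOn
        fun k hk => pow_ne_zero 2 (hsn k hk))
    exact ((continuous_const.mul (continuous_const.sub (continuous_const.mul
      (hcsin.div hcS (SS_ne hw))))).mul hFc).continuousOn
  have hftc := intervalIntegral.integral_eq_sub_of_hasDerivAt hD hi1
  -- pieces
  have hA : ContinuousOn (fun k => 1 / (Real.sin k : ℂ) * FF w n x k) (Icc a b) :=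
    (continuousOn_const.div hcsin.continuousOn hsn).mul hFc.continuousOn
  have hB : ContinuousOn (fun k => FF w n x k * (Real.cos k : ℂ) / (Real.sin k : ℂ) ^ 2)
      (Icc a b) := (hFc.mul hccos).continuousOn.div (hcsin.pow 2).continuousOn
        fun k hk => pow_ne_zero 2 (hsn k hk)
  have hiA : IntervalIntegrable (fun k => 1 / (Real.sin k : ℂ) * FF w n x k) volume a b :=
    (hu.symm ▸ hA : ContinuousOn _ (Set.uIcc a b)).intervalIntegrable
  have hiB : IntervalIntegrable (fun k => FF w n x k * (Real.cos k : ℂ) / (Real.sin k : ℂ) ^ 2)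
      volume a b := (hu.symm ▸ hB : ContinuousOn _ (Set.uIcc a b)).intervalIntegrable
  have hsplit : ∫ k in a..b, 1 / SS w k * FF w n x k = (x / n : ℂ) *
      (∫ k in a..b, 1 / (Real.sin k : ℂ) * FF w n x k) + (Complex.I / n) *
      ((FF w n x b / (Real.sin b : ℂ) - FF w n x a / (Real.sin a : ℂ)) +
        ∫ k in a..b, FF w n x k * (Real.cos k : ℂ) / (Real.sin k : ℂ) ^ 2) := by
    rw [← hftc, ← intervalIntegral.integral_add hi1 hiB,
      ← intervalIntegral.integral_const_mul, ← intervalIntegral.integral_const_mul,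
      ← intervalIntegral.integral_add (hiA.const_mul _) ((hi1.add hiB).const_mul _)]
    refine intervalIntegral.integral_congr fun k hk => ?_
    rw [hu] at hk
    have h1 := hsn k hk
    have h2 := SS_ne hw k
    have h3 := Complex.I_sq
    field_simp
    linear_combination (-(FF w n x k * Real.sin k * (x * SS w k - n * Real.sin k))) * h3
  rw [hsplit]
  -- the oscillating piece
  have hosc : ∀ a' b' : ℝ, a ≤ a' → a' ≤ b' → b' ≤ b → ∀ u : ℂ, ‖u‖ ^ 2 = 5 →
      (∀ k ∈ Icc a' b', 7 / 20 / ‖xi w k‖ ^ 3 ≤ (u / xi w k ^ 3).re) →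
      ‖∫ k in a'..b', 1 / (Real.sin k : ℂ) * FF w n x k‖ ≤ (1 / s + Real.pi * (1 / s ^ 2)) *
        (22 / Real.sqrt (n * (μ1 * (1 - μ2 ^ 2 / 4) / 1000))) := by
    intro a' b' h1 h2 h3 u hu5 hsec
    have hsub : ∀ k ∈ Icc a' b', k ∈ Icc a b := fun k hk => ⟨h1.trans hk.1, hk.2.trans h3⟩
    have h4 := campS h n hn x u hu5 h2 hsec (fun k => 1 / (Real.sin k : ℂ))
      (fun k => -(Real.cos k : ℂ) / (Real.sin k : ℂ) ^ 2) (M0 := 1 / s) (M1 := 1 / s ^ 2)
      (fun k hk => by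
        have h5 := (hasDerivAt_const k (1 : ℂ)).div (hdsin k) (hsn k (hsub k hk))
        refine h5.congr_deriv ?_
        ring)
      (hccos.neg.continuousOn.div (hcsin.pow 2).continuousOn
        fun k hk => pow_ne_zero 2 (hsn k (hsub k hk)))
      (fun k hk => by
        have h5 := hsin k (hsub k hk)
        rw [norm_div, norm_one, Complex.norm_real, Real.norm_eq_abs, abs_of_pos (hs.trans_le h5)]
        exact one_div_le_one_div_of_le hs h5)
      (fun k hk => by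
        have h5 := hsin k (hsub k hk)
        rw [norm_div, norm_neg, norm_pow, Complex.norm_real, Complex.norm_real, Real.norm_eq_abs,
          Real.norm_eq_abs, abs_of_pos (hs.trans_le h5)]
        exact div_le_div₀ (by norm_num) (Real.abs_cos_le_one k) (by positivity)
          (pow_le_pow_left₀ hs.le h5 2))
    refine h4.trans (mul_le_mul_of_nonneg_right ?_ (by positivity))
    have : (b' - a') * (1 / s ^ 2) ≤ Real.pi * (1 / s ^ 2) := by
      gcongr
      linarith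
    linarith
  have h1 := hosc a m le_rfl ham hmb _ u1_norm (fun k hk => xi_sec1 hw k (ht1 k hk))
  have h2 := hosc m b ham hmb le_rfl _ u2_norm (fun k hk => xi_sec2 hw k (ht2 k hk))
  have hosc2 : ‖∫ k in a..b, 1 / (Real.sin k : ℂ) * FF w n x k‖ ≤ 2 * ((1 / s + Real.pi *
      (1 / s ^ 2)) * (22 / Real.sqrt (n * (μ1 * (1 - μ2 ^ 2 / 4) / 1000)))) := by
    have hi2 : IntervalIntegrable (fun k => 1 / (Real.sin k : ℂ) * FF w n x k) volume a m := by
      refine ContinuousOn.intervalIntegrable ?_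
      rw [Set.uIcc_of_le ham]
      exact hA.mono (Icc_subset_Icc_right hmb)
    have hi3 : IntervalIntegrable (fun k => 1 / (Real.sin k : ℂ) * FF w n x k) volume m b := by
      refine ContinuousOn.intervalIntegrable ?_
      rw [Set.uIcc_of_le hmb]
      exact hA.mono (Icc_subset_Icc_left ham)
    rw [← intervalIntegral.integral_add_adjacent_intervals hi2 hi3]
    refine (norm_add_le _ _).trans ?_
    linarith
  have hend : ∀ k ∈ Icc a b, ‖FF w n x k / (Real.sin k : ℂ)‖ ≤ 1 / s := by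
    intro k hk
    have h5 := hsin k hk
    rw [norm_div, Complex.norm_real, Real.norm_eq_abs, abs_of_pos (hs.trans_le h5)]
    exact div_le_div₀ (by norm_num) (FF_le hw n x k) hs h5
  have hB2 : ‖∫ k in a..b, FF w n x k * (Real.cos k : ℂ) / (Real.sin k : ℂ) ^ 2‖ ≤
      Real.pi / s ^ 2 := by
    have h6 : ∀ k ∈ Set.uIoc a b, ‖FF w n x k * (Real.cos k : ℂ) / (Real.sin k : ℂ) ^ 2‖ ≤ 1 / s ^ 2 := by
      intro k hk
      rw [uIoc_of_le hab] at hk
      have h5 := hsin k ⟨hk.1.le, hk.2⟩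
      rw [norm_div, norm_mul, norm_pow, Complex.norm_real, Complex.norm_real, Real.norm_eq_abs,
          Real.norm_eq_abs, abs_of_pos (hs.trans_le h5)]
      have h7 : ‖FF w n x k‖ * |Real.cos k| ≤ 1 * 1 :=
        mul_le_mul (FF_le hw n x k) (Real.abs_cos_le_one k) (abs_nonneg _) (by norm_num)
      rw [one_mul] at h7
      exact div_le_div₀ (by norm_num) h7 (by positivity) (pow_le_pow_left₀ hs.le h5 2)
    refine (intervalIntegral.norm_integral_le_of_norm_le_const h6).trans ?_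
    rw [abs_of_nonneg (by linarith)]
    have : 1 / s ^ 2 * (b - a) ≤ 1 / s ^ 2 * Real.pi := by
      gcongr
      linarith
    refine this.trans (le_of_eq ?_)
    ring
  refine (norm_add_le _ _).trans (add_le_add ?_ ?_)
  · rw [norm_mul]
    have h7 : ‖(x / n : ℂ)‖ ≤ 1 := by
      rw [norm_div, Complex.norm_real, Complex.norm_natCast, Real.norm_eq_abs]
      exact (div_le_one hn0).2 hx
    calc ‖(x / n : ℂ)‖ * ‖∫ k in a..b, 1 / (Real.sin k : ℂ) * FF w n x k‖
        ≤ 1 * ‖∫ k in a..b, 1 / (Real.sin k : ℂ) * FF w n x k‖ := by gcongr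
      _ ≤ _ := by rw [one_mul]; exact hosc2
  · rw [norm_mul, norm_div, Complex.norm_I, Complex.norm_natCast]
    have h8 := hend a ⟨le_rfl, hab⟩
    have h9 := hend b ⟨hab, le_rfl⟩
    have h10 := norm_sub_le (FF w n x b / (Real.sin b : ℂ)) (FF w n x a / (Real.sin a : ℂ))
    have h11 := norm_add_le (FF w n x b / (Real.sin b : ℂ) - FF w n x a / (Real.sin a : ℂ))
      (∫ k in a..b, FF w n x k * (Real.cos k : ℂ) / (Real.sin k : ℂ) ^ 2)
    have h12 : ‖FF w n x b / (Real.sin b : ℂ) - FF w n x a / (Real.sin a : ℂ) +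
      ∫ k in a..b, FF w n x k * (Real.cos k : ℂ) / (Real.sin k : ℂ) ^ 2‖ ≤
        2 / s + Real.pi / s ^ 2 := by
      have : 2 / s = 1 / s + 1 / s := by ring
      linarith
    calc 1 / (n : ℝ) * ‖FF w n x b / (Real.sin b : ℂ) - FF w n x a / (Real.sin a : ℂ) +
      ∫ k in a..b, FF w n x k * (Real.cos k : ℂ) / (Real.sin k : ℂ) ^ 2‖
        ≤ 1 / (n : ℝ) * (2 / s + Real.pi / s ^ 2) := by gcongr
      _ = _ := by ring

end

/-- the half-period integral -/
theorem half (μ1 μ2 : ℝ) (hp1 : 0 < μ1) (hp12 : μ1 ≤ μ2) (hp2 : μ2 < 2) : ∃ C : ℝ, 0 ≤ C ∧ ∀ w : ℂ,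
    Adm w μ1 μ2 → ∀ n : ℕ, 1 ≤ n → ∀ x : ℝ, |x| ≤ n →
    ‖∫ k in (0 : ℝ)..Real.pi, 1 / SS w k * FF w n x k‖ ≤ C / Real.sqrt n := by
  have hpi := Real.pi_pos
  set δ : ℝ := min μ1 (2 - μ2) / 8 with hδd
  have hδ : 0 < δ := by
    have : 0 < min μ1 (2 - μ2) := lt_min hp1 (by linarith)
    positivity
  have hδ1 : 8 * δ ≤ μ1 := by
    have := min_le_left μ1 (2 - μ2)
    rw [hδd]; linarith
  have hδ2 : 8 * δ ≤ 2 - μ2 := by
    have := min_le_right μ1 (2 - μ2)
    rw [hδd]; linarith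
  have hδ3 : δ ≤ 1 / 8 := by linarith
  set s : ℝ := Real.sqrt (7 * δ) with hsd
  have hs : 0 < s := Real.sqrt_pos.2 (by positivity)
  set c0 : ℝ := μ1 * (1 - μ2 ^ 2 / 4) / 1000 with hc0d
  have hc0 : 0 < c0 := by
    have : 0 < 1 - μ2 ^ 2 / 4 := by nlinarith
    rw [hc0d]; positivity
  set CA : ℝ := (1 / Real.sqrt (δ * μ1) + Real.pi * (4 / Real.sqrt (δ * μ1) ^ 3)) *
    (22 / Real.sqrt c0) with hCA
  set CB : ℝ := 2 * ((1 / s + Real.pi * (1 / s ^ 2)) * (22 / Real.sqrt c0)) +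
    (2 / s + Real.pi / s ^ 2) with hCB
  set C3 : ℝ := Real.pi / Real.sqrt (2 * δ) * (1 / Real.sqrt δ) with hC3
  refine ⟨CA + CB + C3, by positivity, ?_⟩
  intro w h n hn x hx
  have hw := h.im0
  have hl1 := h.l1
  have hl2 := h.l2
  set μ := (4 - w.re) / 2 with hμ
  set k1 := Real.arccos (μ - 1 + δ) with hk1
  set k2 := Real.arccos (μ - 1) with hk2
  set k3 := Real.arccos (μ - 1 - δ) with hk3
  have c1 : Real.cos k1 = μ - 1 + δ := Real.cos_arccos (by linarith) (by linarith)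
  have c2 : Real.cos k2 = μ - 1 := Real.cos_arccos (by linarith) (by linarith)
  have c3 : Real.cos k3 = μ - 1 - δ := Real.cos_arccos (by linarith) (by linarith)
  have k10 : 0 ≤ k1 := Real.arccos_nonneg _
  have k12 : k1 ≤ k2 := Real.arccos_le_arccos (by linarith)
  have k23 : k2 ≤ k3 := Real.arccos_le_arccos (by linarith)
  have k3p : k3 ≤ Real.pi := Real.arccos_le_pi _
  have hdec : ∀ a b : ℝ, 0 ≤ a → a ≤ b → b ≤ Real.pi → Real.cos b ≤ Real.cos a :=
    fun a b ha hab hb => Real.cos_le_cos_of_nonneg_of_le_pi ha hb hab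
  have hA := regA h hδ n hn x k10 (k12.trans (k23.trans k3p)) (fun k hk => by
    have := hdec k k1 hk.1 hk.2 (k12.trans (k23.trans k3p))
    rw [c1] at this
    rw [← hμ]
    linarith)
  have hC := regC h hδ hδ3 n hn x (k10.trans (k12.trans k23)) k3p (fun k hk => by
    have := hdec k3 k (k10.trans (k12.trans k23)) hk.1 hk.2
    rw [c3] at this
    rw [← hμ]
    linarith)
  have hB := regB h hs n hn x hx k10 k12 k23 k3p (fun k hk => by
      have e1 := hdec k1 k k10 hk.1 (hk.2.trans k3p)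
      have e2 := hdec k k3 (k10.trans hk.1) hk.2 k3p
      rw [c1] at e1
      rw [c3] at e2
      have e3 : 0 ≤ Real.sin k := Real.sin_nonneg_of_nonneg_of_le_pi (k10.trans hk.1)
        (hk.2.trans k3p)
      apply Real.sqrt_le_iff.2 ⟨e3, ?_⟩
      have e4 := Real.sin_sq_add_cos_sq k
      have e5 : Real.cos k ^ 2 ≤ (1 - 7 * δ) ^ 2 := by
        apply sq_le_sq'
        · linarith
        · linarith
      nlinarith)
    (fun k hk => by
      have := hdec k k2 (k10.trans hk.1) hk.2 (k23.trans k3p)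
      rw [c2] at this
      rw [← hμ]
      linarith)
    (fun k hk => by
      have := hdec k2 k (k10.trans k12) hk.1 (hk.2.trans k3p)
      rw [c2] at this
      rw [← hμ]
      linarith)
  have hcont : Continuous fun k => 1 / SS w k * FF w n x k :=
    (continuous_const.div (SS_cont hw) (SS_ne hw)).mul (FF_cont hw n x)
  have hsplit : ∫ k in (0 : ℝ)..Real.pi, 1 / SS w k * FF w n x k =
      (∫ k in (0 : ℝ)..k1, 1 / SS w k * FF w n x k) + (∫ k in k1..k3, 1 / SS w k * FF w n x k) +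
      ∫ k in k3..Real.pi, 1 / SS w k * FF w n x k := by
    rw [intervalIntegral.integral_add_adjacent_intervals (hcont.intervalIntegrable _ _)
      (hcont.intervalIntegrable _ _), intervalIntegral.integral_add_adjacent_intervals
      (hcont.intervalIntegrable _ _) (hcont.intervalIntegrable _ _)]
  rw [hsplit]
  have hn1 : (1 : ℝ) ≤ n := by exact_mod_cast hn
  have hn0 : (0 : ℝ) < n := by linarith
  have hsn : 0 < Real.sqrt n := Real.sqrt_pos.2 hn0
  have hsn1 : 1 / (n : ℝ) ≤ 1 / Real.sqrt n := by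
    apply one_div_le_one_div_of_le hsn
    rw [Real.sqrt_le_left (by linarith)]
    nlinarith
  have hsc : Real.sqrt (n * (μ1 * (1 - μ2 ^ 2 / 4) / 1000)) = Real.sqrt n * Real.sqrt c0 := by
    rw [← hc0d, Real.sqrt_mul hn0.le]
  rw [hsc] at hA hB
  have eA : ‖∫ k in (0 : ℝ)..k1, 1 / SS w k * FF w n x k‖ ≤ CA / Real.sqrt n := by
    refine hA.trans (le_of_eq ?_)
    rw [hCA]
    field_simp
  have eC : ‖∫ k in k3..Real.pi, 1 / SS w k * FF w n x k‖ ≤ C3 / Real.sqrt n := by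
    refine hC.trans ?_
    rw [div_eq_mul_one_div, div_eq_mul_one_div C3]
    exact mul_le_mul_of_nonneg_left hsn1 (by positivity)
  have eB : ‖∫ k in k1..k3, 1 / SS w k * FF w n x k‖ ≤ CB / Real.sqrt n := by
    refine hB.trans ?_
    have eCB : CB / Real.sqrt n = 2 * ((1 / s + Real.pi * (1 / s ^ 2)) *
        (22 / (Real.sqrt n * Real.sqrt c0))) + (2 / s + Real.pi / s ^ 2) * (1 / Real.sqrt n) := by
      rw [hCB]
      field_simp
    rw [eCB, div_eq_mul_one_div (2 / s + Real.pi / s ^ 2) (n : ℝ)]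
    exact add_le_add le_rfl (mul_le_mul_of_nonneg_left hsn1 (by positivity))
  have e1 := norm_add_le ((∫ k in (0 : ℝ)..k1, 1 / SS w k * FF w n x k) +
    (∫ k in k1..k3, 1 / SS w k * FF w n x k)) (∫ k in k3..Real.pi, 1 / SS w k * FF w n x k)
  have e2 := norm_add_le (∫ k in (0 : ℝ)..k1, 1 / SS w k * FF w n x k)
    (∫ k in k1..k3, 1 / SS w k * FF w n x k)
  have e3 : (CA + CB + C3) / Real.sqrt n = CA / Real.sqrt n + CB / Real.sqrt n +
    C3 / Real.sqrt n := by ring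
  rw [e3]
  linarith

theorem SS_even (w : ℂ) (k : ℝ) : SS w (-k) = SS w k := by
  unfold SS xi ch CC
  rw [Real.cos_neg]

theorem ze_even (w : ℂ) (k : ℝ) : ze w (-k) = ze w k := by
  unfold ze
  rw [SS_even]
  unfold CC
  rw [Real.cos_neg]

/-- pointwise decay -/
theorem Gc_bound (μ1 μ2 : ℝ) (hp1 : 0 < μ1) (hp12 : μ1 ≤ μ2) (hp2 : μ2 < 2) : ∃ C : ℝ, 0 ≤ C ∧
    ∀ w : ℂ, Adm w μ1 μ2 → ∀ n : ℕ, 1 ≤ n → ∀ m : ℤ, |(m : ℝ)| ≤ n →
    ‖Gc w m n‖ ≤ C / Real.sqrt n := by
  obtain ⟨C, hC, hh⟩ := half μ1 μ2 hp1 hp12 hp2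
  refine ⟨C, hC, ?_⟩
  intro w h n hn m hm
  have hw := h.im0
  have hpi := Real.pi_pos
  have h1 := hh w h n hn m hm
  have h2 := hh w h n hn (-m) (by rwa [abs_neg])
  have e0 : ∀ k, em m k * gk w n k = Complex.I / 2 * (1 / SS w k * FF w n m k) := by
    intro k
    unfold em gk FF
    have := SS_ne hw k
    field_simp
  have hcont : ∀ x : ℝ, Continuous fun k => 1 / SS w k * FF w n x k := fun x =>
    (continuous_const.div (SS_cont hw) (SS_ne hw)).mul (FF_cont hw n x)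
  have e1 : ∫ k in (-Real.pi)..Real.pi, em m k * gk w n k = Complex.I / 2 *
      ((∫ k in (0 : ℝ)..Real.pi, 1 / SS w k * FF w n (-m) k) +
        ∫ k in (0 : ℝ)..Real.pi, 1 / SS w k * FF w n m k) := by
    simp only [e0]
    rw [intervalIntegral.integral_const_mul,
      ← intervalIntegral.integral_add_adjacent_intervals (b := 0)
        ((hcont _).intervalIntegrable _ _) ((hcont _).intervalIntegrable _ _)]
    congr 2
    have h3 := intervalIntegral.integral_comp_neg (a := 0) (b := Real.pi)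
      (fun k => 1 / SS w k * FF w n m k)
    rw [neg_zero] at h3
    rw [← h3]
    refine intervalIntegral.integral_congr fun k _ => ?_
    simp only [SS_even]
    congr 1
    unfold FF
    rw [ze_even]
    congr 3
    push_cast
    ring
  unfold Gc
  rw [e1, norm_mul, norm_mul, norm_div, Complex.norm_I, Complex.norm_real, Real.norm_eq_abs,
    abs_of_pos (by positivity)]
  have h7 : ‖(2 : ℂ)‖ = 2 := by norm_num
  rw [h7]
  have h8 := norm_add_le (∫ k in (0 : ℝ)..Real.pi, 1 / SS w k * FF w n (-m) k)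
    (∫ k in (0 : ℝ)..Real.pi, 1 / SS w k * FF w n m k)
  have h9 : ‖(∫ k in (0 : ℝ)..Real.pi, 1 / SS w k * FF w n (-m) k) +
    (∫ k in (0 : ℝ)..Real.pi, 1 / SS w k * FF w n m k)‖ ≤ 2 * (C / Real.sqrt n) := by linarith
  have h10 : 1 / (2 * Real.pi) ≤ 1 := by
    rw [div_le_one (by positivity)]
    have := Real.pi_gt_three
    linarith
  have h11 : 0 ≤ C / Real.sqrt n := by positivity
  calc 1 / (2 * Real.pi) * (1 / 2 * _) ≤ 1 * (1 / 2 * (2 * (C / Real.sqrt n))) := by gcongr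
    _ = _ := by ring

end Pool.Agent.Zk71.D2
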