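import Pool.Agent.Zk71.D2.Curve

/-! The second derivative of the phase lies in a sector. -/

set_option autoImplicit false
set_option linter.unusedSectionVars false

open scoped BigOperators Topology
open MeasureTheory Filter Set

namespace Pool.Agent.Zk71.D2

theorem cube_re (ξ u : ℂ) (hξ : ξ ≠ 0) :
    (u / ξ ^ 3).re = (u * (starRingEnd ℂ) ξ ^ 3).re / (‖ξ‖ ^ 2) ^ 3 := by
  have hn : ‖ξ‖ ≠ 0 := norm_ne_zero_iff.2 hξ
  have h1 : ξ * (starRingEnd ℂ) ξ = ((‖ξ‖ ^ 2 : ℝ) : ℂ) := by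
    rw [Complex.mul_conj, Complex.normSq_eq_norm_sq]
  have h2 : u / ξ ^ 3 = (u * (starRingEnd ℂ) ξ ^ 3) / (((‖ξ‖ ^ 2) ^ 3 : ℝ) : ℂ) := by
    have h3 : (((‖ξ‖ ^ 2) ^ 3 : ℝ) : ℂ) = ξ ^ 3 * (starRingEnd ℂ) ξ ^ 3 := by
      rw [Complex.ofReal_pow, ← h1]
      ring
    have h4 : (starRingEnd ℂ) ξ ≠ 0 := (map_ne_zero _).2 hξ
    rw [h3]
    field_simp
  rw [h2, Complex.div_ofReal_re]

theorem norm_sq' (ξ : ℂ) : ‖ξ‖ ^ 2 = ξ.re ^ 2 + ξ.im ^ 2 := by
  rw [← Complex.normSq_eq_norm_sq, Complex.normSq_apply]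
  ring

theorem cube_lower (ξ : ℂ) (a : ℝ) (ha : 0 < a) (hξ : ξ ≠ 0) (h : ‖ξ‖ ^ 2 ≤ 2 * a ^ 2) :
    7 / 20 / ‖ξ‖ ^ 3 ≤ a ^ 3 / (‖ξ‖ ^ 2) ^ 3 := by
  have hn : 0 < ‖ξ‖ := norm_pos_iff.2 hξ
  have h1 : (‖ξ‖ ^ 3) ^ 2 ≤ (20 / 7 * a ^ 3) ^ 2 := by
    have h2 := pow_le_pow_left₀ (by positivity) h 3
    have h3 : 0 < a ^ 6 := by positivity
    nlinarith
  have h2 : ‖ξ‖ ^ 3 ≤ 20 / 7 * a ^ 3 := le_of_sq_le_sq h1 (by positivity) |> fun h => h
  rw [div_le_div_iff₀ (by positivity) (by positivity)]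
  have h3 : 0 < ‖ξ‖ ^ 3 := by positivity
  calc 7 / 20 * (‖ξ‖ ^ 2) ^ 3 = 7 / 20 * ‖ξ‖ ^ 3 * ‖ξ‖ ^ 3 := by ring
    _ ≤ 7 / 20 * (20 / 7 * a ^ 3) * ‖ξ‖ ^ 3 := by gcongr
    _ = _ := by ring

theorem sec1 (ξ : ℂ) (hb : 0 ≤ ξ.im) (hba : ξ.im ≤ ξ.re) (ha : 0 < ξ.re) :
    7 / 20 / ‖ξ‖ ^ 3 ≤ ((1 + 2 * Complex.I) / ξ ^ 3).re := by
  have hξ : ξ ≠ 0 := fun h => by rw [h, Complex.zero_re] at ha; exact lt_irrefl _ ha
  rw [cube_re ξ _ hξ]
  refine (cube_lower ξ ξ.re ha hξ ?_).trans ?_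
  · rw [norm_sq']
    nlinarith
  · apply div_le_div_of_nonneg_right _ (by positivity)
    have e1 : ((1 + 2 * Complex.I) * (starRingEnd ℂ) ξ ^ 3).re =
        ξ.re ^ 3 + 6 * ξ.re ^ 2 * ξ.im - 3 * ξ.re * ξ.im ^ 2 - 2 * ξ.im ^ 3 := by
      simp [pow_succ, Complex.mul_re, Complex.mul_im]
      ring
    rw [e1]
    nlinarith [mul_nonneg (mul_nonneg ha.le hb) (sub_nonneg.2 hba), mul_nonneg (mul_nonneg hb hb)
      (sub_nonneg.2 hba), mul_nonneg (mul_nonneg ha.le ha.le) hb]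

theorem sec2 (ξ : ℂ) (ha : 0 ≤ ξ.re) (hab : ξ.re ≤ ξ.im) (hb : 0 < ξ.im) :
    7 / 20 / ‖ξ‖ ^ 3 ≤ (-(2 + Complex.I) / ξ ^ 3).re := by
  have hξ : ξ ≠ 0 := fun h => by rw [h, Complex.zero_im] at hb; exact lt_irrefl _ hb
  rw [cube_re ξ _ hξ]
  refine (cube_lower ξ ξ.im hb hξ ?_).trans ?_
  · rw [norm_sq']
    nlinarith
  · apply div_le_div_of_nonneg_right _ (by positivity)
    have e1 : (-(2 + Complex.I) * (starRingEnd ℂ) ξ ^ 3).re =
        ξ.im ^ 3 + 6 * ξ.im ^ 2 * ξ.re - 3 * ξ.im * ξ.re ^ 2 - 2 * ξ.re ^ 3 := by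
      simp [pow_succ, Complex.mul_re, Complex.mul_im]
      ring
    rw [e1]
    nlinarith [mul_nonneg (mul_nonneg hb.le ha) (sub_nonneg.2 hab), mul_nonneg (mul_nonneg ha ha)
      (sub_nonneg.2 hab), mul_nonneg (mul_nonneg hb.le hb.le) ha]

theorem small_cube (e : ℝ) (he : |e| ≤ 1 / 1000) :
    ‖(1 + Complex.I * e) ^ 3 - 1‖ ≤ 1 / 250 := by
  have h1 : ‖(Complex.I * (e : ℂ))‖ ≤ 1 / 1000 := by
    rw [norm_mul, Complex.norm_I, one_mul, Complex.norm_real]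
    exact he
  generalize Complex.I * (e : ℂ) = x at h1 ⊢
  have h2 : (1 + x) ^ 3 - 1 = 3 * x + 3 * x ^ 2 + x ^ 3 := by ring
  rw [h2]
  refine (norm_add_le _ _).trans ?_
  have h3 := norm_add_le (3 * x) (3 * x ^ 2)
  have h31 : ‖3 * x‖ = ‖(3 : ℂ)‖ * ‖x‖ := norm_mul _ _
  have h32 : ‖3 * x ^ 2‖ = ‖(3 : ℂ)‖ * ‖x‖ ^ 2 := by rw [norm_mul, norm_pow]
  rw [h31, h32] at h3
  rw [norm_pow]
  have h4 : ‖(3 : ℂ)‖ = 3 := by norm_num
  rw [h4] at h3
  have h5 := norm_nonneg x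
  have h6 : ‖x‖ ^ 2 ≤ 1 / 1000 * ‖x‖ := by nlinarith
  have h7 : ‖x‖ ^ 3 ≤ 1 / 1000 * ‖x‖ := by nlinarith [mul_nonneg h5 h5]
  linarith

theorem near_one (e1 e3 : ℂ) (h1 : ‖e1‖ ≤ 1 / 200) (h3 : ‖e3‖ ≤ 1 / 250) :
    ‖(1 + e1) / (1 + e3) - 1‖ ≤ 1 / 50 := by
  have h4 : 1 - 1 / 250 ≤ ‖1 + e3‖ := by
    have := norm_sub_norm_le (1 : ℂ) (-e3)
    rw [norm_one, norm_neg, sub_neg_eq_add] at this
    linarith
  have h5 : (1 + e3) ≠ 0 := by
    intro h
    rw [h, norm_zero] at h4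
    norm_num at h4
  have h6 : (1 + e1) / (1 + e3) - 1 = (e1 - e3) / (1 + e3) := by
    field_simp
    ring
  rw [h6, norm_div, div_le_iff₀ (by linarith)]
  have := norm_sub_le e1 e3
  linarith

section
variable {w : ℂ} {μ1 μ2 : ℝ}

/-- admissible spectral parameters -/
structure Adm (w : ℂ) (μ1 μ2 : ℝ) : Prop where
  im0 : 0 < w.im
  p1 : 0 < μ1
  p2 : μ2 < 2
  l1 : μ1 ≤ (4 - w.re) / 2
  l2 : (4 - w.re) / 2 ≤ μ2
  s0 : w.im ≤ μ1 * (1 - μ2 ^ 2 / 4) / 800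

theorem Adm.q0 (h : Adm w μ1 μ2) : 0 < 1 - μ2 ^ 2 / 4 := by
  have h1 := h.p1
  have h2 := h.p2
  have h3 := h.l1.trans h.l2
  nlinarith

theorem Adm.q1 (h : Adm w μ1 μ2) : 0 < μ1 * (1 - μ2 ^ 2 / 4) := mul_pos h.p1 h.q0

theorem Adm.s1 (h : Adm w μ1 μ2) : w.im ≤ μ1 / 800 := by
  have h1 := h.s0
  have h2 := h.p1
  have h3 : μ1 * (1 - μ2 ^ 2 / 4) ≤ μ1 := by
    have : 0 ≤ μ2 ^ 2 / 4 := by positivity
    nlinarith
  linarith

theorem Adm.s2 (h : Adm w μ1 μ2) : w.im ≤ 1 / 400 := by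
  have h1 := h.s1
  have h2 := h.l1.trans h.l2
  have h3 := h.p2
  linarith

/-- the size of the second derivative -/
noncomputable def PP (w : ℂ) (k : ℝ) : ℝ :=
  (4 - w.re) / 2 * (1 - (4 - w.re) / 2 * Real.cos k + Real.cos k ^ 2) / (ch w k).re ^ 3

theorem Adm.Q1 (h : Adm w μ1 μ2) (k : ℝ) : μ1 * (1 - μ2 ^ 2 / 4) ≤
    (4 - w.re) / 2 * (1 - (4 - w.re) / 2 * Real.cos k + Real.cos k ^ 2) := by
  have h1 := h.l1
  have h2 := h.l2
  have h3 := h.p1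
  have h4 := h.q0
  set μ := (4 - w.re) / 2 with hμ
  have h5 : 1 - μ2 ^ 2 / 4 ≤ 1 - μ * Real.cos k + Real.cos k ^ 2 := by
    nlinarith [sq_nonneg (Real.cos k - μ / 2)]
  exact mul_le_mul h1 h5 h4.le (by linarith)

theorem Adm.ch_lower (h : Adm w μ1 μ2) (k : ℝ) : μ1 ≤ (ch w k).re ^ 2 := by
  have h1 := rt_re2 (1 + CC w k) (Complex.slitPlane_ne_zero (one_add_slit h.im0 k))
  rw [Complex.add_re, CC_re, Complex.one_re] at h1
  change (ch w k).re ^ 2 - (ch w k).im ^ 2 = _ at h1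
  have h2 := Real.cos_le_one k
  have h3 := h.l1
  nlinarith [sq_nonneg (ch w k).im]

theorem Adm.ch_upper (h : Adm w μ1 μ2) (k : ℝ) : (ch w k).re ^ 2 ≤ 5 := by
  have h1 := rt_norm (1 + CC w k) (Complex.slitPlane_ne_zero (one_add_slit h.im0 k))
  change ‖ch w k‖ ^ 2 = _ at h1
  rw [norm_sq'] at h1
  have h2 : ‖1 + CC w k‖ ≤ 5 := by
    have h3 := Complex.norm_le_abs_re_add_abs_im (1 + CC w k)
    rw [one_add_im h.im0, Complex.add_re, CC_re, Complex.one_re] at h3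
    have h4 : |-(w.im / 2)| ≤ 1 := by
      rw [abs_neg, abs_of_pos (by have := h.im0; positivity)]
      have := h.s2
      linarith
    have h5 : |1 + ((4 - w.re) / 2 - Real.cos k)| ≤ 4 := by
      have h6 := Real.cos_le_one k
      have h7 := Real.neg_one_le_cos k
      have h8 := h.l1
      have h9 := h.l2
      have h10 := h.p1
      have h11 := h.p2
      rw [abs_le]
      constructor <;> linarith
    linarith
  nlinarith [sq_nonneg (ch w k).im]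

theorem Adm.PP_pos (h : Adm w μ1 μ2) (k : ℝ) : 0 < PP w k := by
  unfold PP
  exact div_pos (h.q1.trans_le (h.Q1 k)) (pow_pos (ch_re h.im0 k) 3)

theorem Adm.PP_lower (h : Adm w μ1 μ2) (k : ℝ) : μ1 * (1 - μ2 ^ 2 / 4) / 12 ≤ PP w k := by
  unfold PP
  have h1 := ch_re h.im0 k
  have h2 := h.ch_upper k
  have h3 : (ch w k).re ^ 3 ≤ 12 := by
    have h4 : ((ch w k).re ^ 3) ^ 2 ≤ 12 ^ 2 := by
      have h5 := pow_le_pow_left₀ (by positivity) h2 3
      nlinarith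
    exact le_of_sq_le_sq h4 (by norm_num)
  exact div_le_div₀ (h.q1.le.trans (h.Q1 k)) (h.Q1 k) (pow_pos h1 3) h3

/-- the second derivative of the phase -/
theorem Adm.repr (h : Adm w μ1 μ2) (k : ℝ) : ∃ e : ℂ, ‖e‖ ≤ 1 / 50 ∧
    (4 - w) / 2 * (1 - CC w k * Real.cos k) / SS w k ^ 3 =
      (PP w k : ℂ) * ((1 + e) / xi w k ^ 3) := by
  have hs := h.im0
  have hQ := h.Q1 k
  have hq1 := h.q1
  have hch := ch_re hs k
  set μ := (4 - w.re) / 2 with hμ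
  set c := Real.cos k with hc
  set Q : ℝ := μ * (1 - μ * c + c ^ 2) with hQd
  have hQ0 : 0 < Q := hq1.trans_le hQ
  -- numerator
  set e1 : ℂ := ((4 - w) / 2 * (1 - CC w k * c) - Q) / Q with he1
  have hQc : (Q : ℂ) ≠ 0 := by exact_mod_cast hQ0.ne'
  have hn1 : (4 - w) / 2 * (1 - CC w k * c) = Q * (1 + e1) := by
    rw [he1]
    field_simp
    ring
  have hw2 : (4 - w) / 2 = (μ : ℂ) - Complex.I * ((w.im / 2 : ℝ) : ℂ) := by
    rw [hμ]
    apply Complex.ext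
    · have : (4 - w) / 2 = (4 - w) * ((1 / 2 : ℝ) : ℂ) := by push_cast; ring
      rw [this, Complex.re_mul_ofReal]
      simp
      ring
    · have : (4 - w) / 2 = (4 - w) * ((1 / 2 : ℝ) : ℂ) := by push_cast; ring
      rw [this, Complex.im_mul_ofReal]
      simp
      ring
  have hCC : CC w k = ((μ - c : ℝ) : ℂ) - Complex.I * ((w.im / 2 : ℝ) : ℂ) := by
    have hcc : CC w k = (4 - w) / 2 - (c : ℂ) := rfl
    rw [hcc, hw2, Complex.ofReal_sub]
    ring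
  have hb1 : ‖e1‖ ≤ 1 / 200 := by
    rw [he1, norm_div, Complex.norm_real, Real.norm_eq_abs, abs_of_pos hQ0, div_le_iff₀ hQ0]
    have e2 : (4 - w) / 2 * (1 - CC w k * c) - Q = Complex.I * ((w.im / 2 : ℝ) : ℂ) *
        ((μ * c - (1 - (μ - c) * c) : ℝ) : ℂ) + ((w.im / 2 * (w.im / 2) * c : ℝ) : ℂ) := by
      rw [hw2, hCC, hQd]
      have := Complex.I_sq
      push_cast
      linear_combination (-((w.im : ℂ) / 2 * ((w.im : ℂ) / 2) * (c : ℂ))) * this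
    rw [e2]
    refine (norm_add_le _ _).trans ?_
    rw [norm_mul, norm_mul, Complex.norm_I, one_mul, Complex.norm_real, Complex.norm_real,
      Complex.norm_real, Real.norm_eq_abs, Real.norm_eq_abs, Real.norm_eq_abs,
      abs_of_pos (by positivity : 0 < w.im / 2)]
    have c1 := Real.cos_le_one k
    have c2 := Real.neg_one_le_cos k
    rw [← hc] at c1 c2
    have m1 := h.l1
    have m2 := h.l2
    have m3 := h.p1
    have m4 := h.p2
    have s0 := h.s0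
    have s2 := h.s2
    have k1 : |μ * c - (1 - (μ - c) * c)| ≤ 6 := by
      rw [abs_le]
      constructor <;> nlinarith
    have k2 : |w.im / 2 * (w.im / 2) * c| ≤ w.im / 2 := by
      rw [abs_mul, abs_of_nonneg (by positivity)]
      have : |c| ≤ 1 := abs_le.2 ⟨c2, c1⟩
      have : w.im / 2 * (w.im / 2) * |c| ≤ w.im / 2 * (w.im / 2) * 1 := by gcongr
      nlinarith
    have k3 : w.im / 2 * |μ * c - (1 - (μ - c) * c)| ≤ w.im / 2 * 6 := by gcongr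
    have k4 : w.im ≤ Q / 800 := by linarith
    linarith
  -- denominator
  set e2 : ℝ := (ch w k).im / (ch w k).re with he2
  have hchd : ch w k = ((ch w k).re : ℂ) * (1 + Complex.I * e2) := by
    apply Complex.ext
    · simp
    · simp [he2]
      field_simp
  have hb2 : |e2| ≤ 1 / 1000 := by
    have h1 := rt_im (1 + CC w k) (Complex.slitPlane_ne_zero (one_add_slit hs k))
    rw [one_add_im hs] at h1
    change 2 * (ch w k).re * (ch w k).im = _ at h1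
    have h2 := h.ch_lower k
    have h3 := h.s1
    have h4 : e2 = -(w.im / 4) / (ch w k).re ^ 2 := by
      rw [he2]
      field_simp
      nlinarith
    rw [h4, abs_div, abs_neg, abs_of_pos (by positivity : 0 < w.im / 4),
      abs_of_pos (by positivity : 0 < (ch w k).re ^ 2), div_le_iff₀ (by positivity)]
    have := h.p1
    linarith
  have hb3 := small_cube e2 hb2
  set e3 : ℂ := (1 + Complex.I * e2) ^ 3 - 1 with he3
  have hch3 : ch w k ^ 3 = ((ch w k).re : ℂ) ^ 3 * (1 + e3) := by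
    rw [he3]
    nth_rewrite 1 [hchd]
    ring
  refine ⟨(1 + e1) / (1 + e3) - 1, near_one e1 e3 hb1 hb3, ?_⟩
  have hne3 : (1 + e3) ≠ 0 := by
    intro h0
    have h4 : ‖(1 : ℂ)‖ ≤ ‖(1 + e3)‖ + ‖e3‖ := by
      have := norm_sub_le (1 + e3) e3
      rwa [add_sub_cancel_right] at this
    rw [h0, norm_zero, norm_one, zero_add] at h4
    linarith
  have hchr : ((ch w k).re : ℂ) ≠ 0 := by exact_mod_cast hch.ne'
  have hxi : xi w k ≠ 0 := rt_ne _
  unfold SS PP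
  rw [mul_pow, hch3, hn1]
  rw [← hμ, ← hc, ← hQd]
  push_cast
  field_simp
  ring

/-- the sector condition -/
theorem Adm.sector (h : Adm w μ1 μ2) (n : ℕ) (k : ℝ) (u : ℂ) (hu : ‖u‖ ^ 2 = 5)
    (hsec : 7 / 20 / ‖xi w k‖ ^ 3 ≤ (u / xi w k ^ 3).re) :
    (n : ℝ) * (μ1 * (1 - μ2 ^ 2 / 4) / 1000) ≤ ((-(u / Real.sqrt 5)) *
        (-(n * ((4 - w) / 2 * (1 - CC w k * Real.cos k) / SS w k ^ 3)))).re ∧
    ‖-(n * ((4 - w) / 2 * (1 - CC w k * Real.cos k) / SS w k ^ 3))‖ ≤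
      8 * ((-(u / Real.sqrt 5)) *
        (-(n * ((4 - w) / 2 * (1 - CC w k * Real.cos k) / SS w k ^ 3)))).re := by
  obtain ⟨e, he, hrep⟩ := h.repr k
  rw [hrep]
  have hP := h.PP_pos k
  have hPl := h.PP_lower k
  have hxi : xi w k ≠ 0 := rt_ne _
  have hn : 0 < ‖xi w k‖ := norm_pos_iff.2 hxi
  have h5 : (0 : ℝ) < Real.sqrt 5 := by positivity
  have h5s : Real.sqrt 5 ^ 2 = 5 := Real.sq_sqrt (by norm_num)
  have hun : ‖u‖ = Real.sqrt 5 := by
    rw [← hu, Real.sqrt_sq (norm_nonneg _)]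
  have h5a : Real.sqrt 5 ≤ 9 / 4 := by
    rw [Real.sqrt_le_left (by norm_num)]
    norm_num
  set X : ℝ := 1 / ‖xi w k‖ ^ 3 with hX
  have hX0 : 0 < X := by positivity
  have e1 : (-(u / Real.sqrt 5)) * (-(n * ((PP w k : ℂ) * ((1 + e) / xi w k ^ 3)))) =
      ((n * PP w k / Real.sqrt 5 : ℝ) : ℂ) * (u / xi w k ^ 3 + u * e / xi w k ^ 3) := by
    push_cast
    field_simp
  rw [e1, Complex.re_ofReal_mul, Complex.add_re]
  have h6 : |(u * e / xi w k ^ 3).re| ≤ 9 / 200 * X := by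
    refine (Complex.abs_re_le_norm _).trans ?_
    rw [norm_div, norm_mul, norm_pow, hun, div_eq_mul_one_div, ← hX]
    have : Real.sqrt 5 * ‖e‖ ≤ 9 / 4 * (1 / 50) := mul_le_mul h5a he (norm_nonneg _) (by norm_num)
    nlinarith
  have h7 := (abs_le.1 h6).1
  have h8 : 7 / 20 * X ≤ (u / xi w k ^ 3).re := by
    refine le_trans (le_of_eq ?_) hsec
    rw [hX]
    ring
  have h9 : 3 / 10 * X ≤ (u / xi w k ^ 3).re + (u * e / xi w k ^ 3).re := by linarith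
  have hnn : (0 : ℝ) ≤ n := Nat.cast_nonneg n
  have h10 : n * PP w k / Real.sqrt 5 * (3 / 10 * X) ≤ n * PP w k / Real.sqrt 5 *
      ((u / xi w k ^ 3).re + (u * e / xi w k ^ 3).re) :=
    mul_le_mul_of_nonneg_left h9 (by positivity)
  have h11 : (n : ℝ) * PP w k * (4 / 9) ≤ n * PP w k / Real.sqrt 5 := by
    rw [le_div_iff₀ h5]
    have : (n : ℝ) * PP w k * (4 / 9) * Real.sqrt 5 ≤ n * PP w k * (4 / 9) * (9 / 4) := by gcongr
    linarith
  have h12 : (n : ℝ) * PP w k * (4 / 9) * (3 / 10 * X) ≤ n * PP w k / Real.sqrt 5 * (3 / 10 * X) :=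
    mul_le_mul_of_nonneg_right h11 (by positivity)
  constructor
  · refine le_trans ?_ (h12.trans h10)
    -- X ≥ 1/6
    have hx3 : ‖xi w k‖ ^ 2 ≤ 3 := by
      have h13 := rt_norm (1 - CC w k) (Complex.slitPlane_ne_zero (one_sub_slit h.im0 k))
      change ‖xi w k‖ ^ 2 = _ at h13
      rw [h13]
      have h14 := Complex.norm_le_abs_re_add_abs_im (1 - CC w k)
      rw [one_sub_im h.im0, Complex.sub_re, CC_re, Complex.one_re] at h14
      have h15 : |w.im / 2| ≤ 1 / 2 := by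
        rw [abs_of_pos (by have := h.im0; positivity)]
        have := h.s2
        linarith
      have h16 : |1 - ((4 - w.re) / 2 - Real.cos k)| ≤ 2 := by
        have h6 := Real.cos_le_one k
        have h7 := Real.neg_one_le_cos k
        have h8 := h.l1
        have h9 := h.l2
        have h10 := h.p1
        have h11 := h.p2
        rw [abs_le]
        constructor <;> linarith
      linarith
    have hx6 : ‖xi w k‖ ^ 3 ≤ 6 := by
      have h4 : (‖xi w k‖ ^ 3) ^ 2 ≤ 6 ^ 2 := by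
        have h5 := pow_le_pow_left₀ (by positivity) hx3 3
        nlinarith
      exact le_of_sq_le_sq h4 (by norm_num)
    have hX6 : 1 / 6 ≤ X := by
      rw [hX]
      exact one_div_le_one_div_of_le (by positivity) hx6
    have hq := h.q1
    have h17 : (n : ℝ) * (μ1 * (1 - μ2 ^ 2 / 4) / 12) * (4 / 9) * (3 / 10 * (1 / 6)) ≤
        (n : ℝ) * PP w k * (4 / 9) * (3 / 10 * X) := by gcongr
    refine le_trans ?_ h17
    have : 0 ≤ (n : ℝ) * (μ1 * (1 - μ2 ^ 2 / 4)) := by positivity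
    nlinarith
  · have h13 : ‖-((n : ℂ) * ((PP w k : ℂ) * ((1 + e) / xi w k ^ 3)))‖ ≤
        n * PP w k * (51 / 50 * X) := by
      rw [norm_neg, norm_mul, norm_mul, norm_div, norm_pow, Complex.norm_natCast,
        Complex.norm_real, Real.norm_eq_abs, abs_of_pos hP, mul_assoc]
      have h14 : ‖1 + e‖ ≤ 51 / 50 := by
        have := norm_add_le (1 : ℂ) e
        rw [norm_one] at this
        linarith
      have h15 : ‖1 + e‖ / ‖xi w k‖ ^ 3 ≤ 51 / 50 * X := by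
        rw [div_eq_mul_one_div, ← hX]
        gcongr
      gcongr
    refine h13.trans ?_
    have h16 := mul_le_mul_of_nonneg_left (h12.trans h10) (by norm_num : (0 : ℝ) ≤ 8)
    refine le_trans ?_ h16
    have : 0 ≤ (n : ℝ) * PP w k * X := by positivity
    nlinarith

end

end Pool.Agent.Zk71.D2
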